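import Pool.Agent.DLN.ADefs

/-! # Part A: no continuous bijection onto a Hausdorff space with a countable base (package A07)

(problem MP_c2fbea_gt, project DLN, part A)

Let `f` be a continuous bijection from `(Y, τ)` onto the Hausdorff space `(Z, ρ)` with the
countable base
`𝓑`: `IsCnt 𝓑` gives `w`, `e` with `IsOm w`, `IsFun e w`, every member of `𝓑` is a value of `e`.
Let `K` be the
relation (`exists_rel` between `w` and `Y`): `(k, y) ∈ K` iff there are `V`, `t` with `Val e k V`,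
`V ∈ 𝓑`,
`Val f y t`, `t ∈ V`.
* `CSq E Y B h w K`: for `(k, y) ∈ K`: `V ∈ 𝓑 ⊆ ρ`, so by continuity (last clause of `IsCBij`) the
  preimage of
  `V` is a member of `τ`; `IsCT` gives the code `b`.
* `CSpr E Y w K`: for `x ≠ y` in `Y` the values `s`, `t` of `f` are different, let `U`, `V ∈ ρ` be
  disjoint
  neighbourhoods, `U' ⊆ U`, `V' ⊆ V` members of `𝓑` with `s ∈ U'`, `t ∈ V'`, and `k`, `m` with
  `Val e k U'`,
  `Val e m V'`. A `z` with `Val K k z`, `Val K m z` would have its value in `U'` and in `V'`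
  (`e` and `f` are
  functions). -/

universe v

namespace DLN

open STP STP.Fml CPI

variable {N : Type v} {E : N → N → Prop}

theorem no_bij (hE : ZFC E) {Y B h τ : N} (hns : CNSep E Y B h) (hτ : IsCT E Y B h τ) :
    ¬ ∃ Z ρ f, IsTop E Z ρ ∧ IsHd E Z ρ ∧ IsCB E ρ ∧ IsCBij E Y τ Z ρ f := by
  rintro ⟨Z, ρ, f, -, hhd, ⟨A, hAρ, ⟨w, e, hw, he, hen⟩, hbase⟩, hf, hfZ, -, hfinj, hfc⟩
  obtain ⟨K, -, hK⟩ := exists_rel hE
    (ρ := fun k y => ∃ V t, Val E e k V ∧ E V A ∧ Val E f y t ∧ E t V)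
    ⟨ex (ex (an (fVal 4 2 1) (an (.mem 1 5) (an (fVal 6 3 0) (.mem 0 1))))), vv e [e, A, f], by
      intro x y; simp⟩ w Y
  refine hns w K hw ?_ ?_
  · intro k y hk hy hky
    obtain ⟨-, -, V, t, hkV, hVA, hyt, htV⟩ := (hK k y).1 hky
    obtain ⟨V', hV', hV''⟩ := hfc V (hAρ V hVA)
    obtain ⟨b, hb, hyb, hbz⟩ := ((hτ V').1 hV').2 y ((hV'' y).2 ⟨t, htV, hyt⟩)
    refine ⟨b, hb, hyb, fun z hz hzb => ?_⟩
    obtain ⟨s, hsV, hzs⟩ := (hV'' z).1 (hbz z hz hzb)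
    exact (hK k z).2 ⟨hk, hz, V, s, hkV, hVA, hzs, hsV⟩
  · intro x y hx hy hxy
    obtain ⟨s, hs⟩ := hf.2.1 x hx
    obtain ⟨t, ht⟩ := hf.2.1 y hy
    have hst : s ≠ t := by
      rintro rfl
      exact hxy (hfinj x y s hs ht)
    obtain ⟨U, V, hU, hV, hsU, htV, hdis⟩ := hhd s t (hfZ x s hs) (hfZ y t ht) hst
    obtain ⟨U', hU', hsU', hUU⟩ := hbase U s hU hsU
    obtain ⟨V', hV', htV', hVV⟩ := hbase V t hV htV
    obtain ⟨k, hk, hkU⟩ := hen U' hU'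
    obtain ⟨m, hm, hmV⟩ := hen V' hV'
    refine ⟨k, m, hk, hm, (hK k x).2 ⟨hk, hx, U', s, hkU, hU', hs, hsU'⟩,
      (hK m y).2 ⟨hm, hy, V', t, hmV, hV', ht, htV'⟩, ?_⟩
    rintro z - ⟨h1, h2⟩
    obtain ⟨-, -, V1, t1, hk1, -, hz1, ht1⟩ := (hK k z).1 h1
    obtain ⟨-, -, V2, t2, hm2, -, hz2, ht2⟩ := (hK m z).1 h2
    have e1 : V1 = U' := he.2.2 k V1 U' hk1 hkU
    have e2 : V2 = V' := he.2.2 m V2 V' hm2 hmV
    have e3 : t1 = t2 := hf.2.2 z t1 t2 hz1 hz2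
    subst e1 e2 e3
    exact hdis t1 ⟨hUU t1 ht1, hVV t1 ht2⟩

end DLN
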