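import Pool.Agent.DLN.ADefs

/-! # Part A: the complement of the diagonal and its topology (package A03)

(problem MP_c2fbea_gt, project DLN, part A)

* `exists_Off`: `exists_prod` (all ordered pairs of elements of `X`) and `sep` for
  `∃ x y, IsOP p x y ∧ x ≠ y`; the components are unique: `IsOP.inj hE`.
* `exists_PT`: power set of `D` and `sep` with `fPO 1 2 0` (`IsPT E τ D σ` says `E U σ ↔ IsPO E τ D U`).
* `PT_top`: `D ∈ σ`: take `V = W = X` (`X ∈ τ`; an element of `D` is a pair of elements of `X`). Unions: clear.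
  Intersections `IsInt W U V`: the boxes for `U` and `V` are intersected coordinatewise (`exists_int`, and the
  last clause of `IsTop`).
* `PT_box`: `U := {p ∈ D | ∃ x y, IsOP p x y ∧ x ∈ V ∧ y ∈ W}` by `sep`.
* `PT_hd`: `p ≠ p'` in `D`, `p = (x, y)`, `p' = (x', y')`; if `x ≠ x'` take disjoint open `V ∋ x`, `V' ∋ x'` and the
  boxes `V × X`, `V' × X` (`PT_box`); otherwise `y ≠ y'` (pairs with equal components are equal:
  `IsOP.uniq`).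
* `PT_zd`: `p = (x, y) ∈ U ∈ σ`: boxes `V0 × W0` from `IsPT`; `IsZD` for `X` gives clopen `V ∋ x`, `V ⊆ V0` with
  complement `V'`, clopen `W ∋ y`, `W ⊆ W0`, with complement `W'`. The box `V × W` (`PT_box`) is a subset
  of `U`, and its complement in `D` is the union of the boxes `V' × X` and `X × W'`: open (define it by
  `sep` on `D` and prove membership in `σ` with `IsPT`). -/

universe v

namespace DLN

open STP STP.Fml CPI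

variable {N : Type v} {E : N → N → Prop}

theorem exists_Off (hE : ZFC E) (X : N) : ∃ D, IsOff E X D := by
  obtain ⟨P, hP⟩ := exists_prod hE X X
  obtain ⟨D, hD⟩ := sep hE (ρ := fun p => ∃ x y, IsOP E p x y ∧ x ≠ y)
    ⟨ex (ex (an (fOP 2 1 0) (no (.eq 1 0)))), vv X [], by intro x; simp⟩ P
  refine ⟨D, fun p => ?_⟩
  rw [hD, hP]
  constructor
  · rintro ⟨⟨x, y, hx, hy, h1⟩, x', y', h2, h3⟩
    obtain ⟨rfl, rfl⟩ := IsOP.inj hE h1 h2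
    exact ⟨x, y, hx, hy, h3, h1⟩
  · rintro ⟨x, y, hx, hy, h3, h1⟩
    exact ⟨⟨x, y, hx, hy, h1⟩, x, y, h1, h3⟩

theorem exists_PT (hE : ZFC E) (τ D : N) : ∃ σ, IsPT E τ D σ := by
  obtain ⟨P, hP⟩ := hE.power D
  obtain ⟨σ, hσ⟩ := sep hE (ρ := fun U => IsPO E τ D U)
    ⟨fPO 1 2 0, vv D [τ, D], by intro x; simp⟩ P
  refine ⟨σ, fun U => ?_⟩
  rw [hσ, hP]
  exact ⟨fun h => h.2, fun h => ⟨h.1, h⟩⟩

private theorem off_mem (hE : ZFC E) {X D p x y : N} (hD : IsOff E X D) (hp : E p D)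
    (h : IsOP E p x y) : E x X ∧ E y X ∧ x ≠ y := by
  obtain ⟨x', y', h1, h2, h3, h4⟩ := (hD p).1 hp
  obtain ⟨rfl, rfl⟩ := IsOP.inj hE h h4
  exact ⟨h1, h2, h3⟩

private theorem off_op {X D p : N} (hD : IsOff E X D) (hp : E p D) :
    ∃ x y, E x X ∧ E y X ∧ IsOP E p x y := by
  obtain ⟨x', y', h1, h2, h3, h4⟩ := (hD p).1 hp
  exact ⟨x', y', h1, h2, h4⟩

theorem PT_top (hE : ZFC E) {X τ D σ : N} (hτ : IsTop E X τ) (hD : IsOff E X D)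
    (hσ : IsPT E τ D σ) : IsTop E D σ := by
  obtain ⟨t1, t2, t3, t4⟩ := hτ
  refine ⟨fun U hU => ((hσ U).1 hU).1, ?_, ?_, ?_⟩
  · refine (hσ D).2 ⟨fun z hz => hz, fun p x y hp hxy => ?_⟩
    obtain ⟨hx, hy, -⟩ := off_mem hE hD hp hxy
    exact ⟨X, X, t2, t2, hx, hy, fun q x' y' hq _ _ _ => hq⟩
  · intro S u hS hu
    refine (hσ u).2 ⟨fun z hz => ?_, fun p x y hp hxy => ?_⟩
    · obtain ⟨U, hU, hzU⟩ := (hu z).1 hz
      exact ((hσ U).1 (hS U hU)).1 z hzU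
    · obtain ⟨U, hU, hpU⟩ := (hu p).1 hp
      obtain ⟨V, W, h1, h2, h3, h4, h5⟩ := ((hσ U).1 (hS U hU)).2 p x y hpU hxy
      exact ⟨V, W, h1, h2, h3, h4, fun q x' y' h6 h7 h8 h9 =>
        (hu q).2 ⟨U, hU, h5 q x' y' h6 h7 h8 h9⟩⟩
  · intro U V W hU hV hW
    refine (hσ W).2 ⟨fun z hz => ((hσ U).1 hU).1 z ((hW z).1 hz).1, fun p x y hp hxy => ?_⟩
    obtain ⟨hpU, hpV⟩ := (hW p).1 hp
    obtain ⟨A, B, h1, h2, h3, h4, h5⟩ := ((hσ U).1 hU).2 p x y hpU hxy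
    obtain ⟨A', B', k1, k2, k3, k4, k5⟩ := ((hσ V).1 hV).2 p x y hpV hxy
    obtain ⟨C, hC⟩ := exists_int hE A A'
    obtain ⟨C', hC'⟩ := exists_int hE B B'
    refine ⟨C, C', t4 A A' C h1 k1 hC, t4 B B' C' h2 k2 hC', (hC x).2 ⟨h3, k3⟩,
      (hC' y).2 ⟨h4, k4⟩, fun q x' y' h6 h7 h8 h9 => ?_⟩
    obtain ⟨a1, a2⟩ := (hC x').1 h8
    obtain ⟨b1, b2⟩ := (hC' y').1 h9
    exact (hW q).2 ⟨h5 q x' y' h6 h7 a1 b1, k5 q x' y' h6 h7 a2 b2⟩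

theorem PT_box (hE : ZFC E) {X τ D σ V W : N} (hD : IsOff E X D) (hσ : IsPT E τ D σ)
    (hV : E V τ) (hW : E W τ) :
    ∃ U, E U σ ∧ ∀ p x y, IsOP E p x y → (E p U ↔ E p D ∧ E x V ∧ E y W) := by
  obtain ⟨U, hU⟩ := sep hE (ρ := fun p => ∃ x y, IsOP E p x y ∧ E x V ∧ E y W)
    ⟨ex (ex (an (fOP 2 1 0) (an (.mem 1 3) (.mem 0 4)))), vv D [V, W], by intro x; simp⟩ D
  have key : ∀ p x y, IsOP E p x y → (E p U ↔ E p D ∧ E x V ∧ E y W) := by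
    intro p x y hp
    rw [hU]
    constructor
    · rintro ⟨h1, x', y', h2, h3, h4⟩
      obtain ⟨rfl, rfl⟩ := IsOP.inj hE hp h2
      exact ⟨h1, h3, h4⟩
    · rintro ⟨h1, h3, h4⟩
      exact ⟨h1, x, y, hp, h3, h4⟩
  refine ⟨U, (hσ U).2 ⟨fun z hz => ((hU z).1 hz).1, fun p x y hp hxy => ?_⟩, key⟩
  obtain ⟨h1, h2, h3⟩ := (key p x y hxy).1 hp
  exact ⟨V, W, hV, hW, h2, h3, fun q x' y' h6 h7 h8 h9 => (key q x' y' h7).2 ⟨h6, h8, h9⟩⟩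

theorem PT_hd (hE : ZFC E) {X τ D σ : N} (hτ : IsTop E X τ) (hhd : IsHd E X τ)
    (hD : IsOff E X D) (hσ : IsPT E τ D σ) : IsHd E D σ := by
  intro p p' hp hp' hne
  obtain ⟨x, y, hx, hy, hxy⟩ := off_op hD hp
  obtain ⟨x', y', hx', hy', hxy'⟩ := off_op hD hp'
  by_cases h : x = x'
  · have h1 : y ≠ y' := by
      rintro rfl
      subst h
      exact hne (IsOP.uniq hE hxy hxy')
    obtain ⟨W, W', h2, h3, h4, h5, h6⟩ := hhd y y' hy hy' h1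
    obtain ⟨U, hU, kU⟩ := PT_box hE hD hσ hτ.2.1 h2
    obtain ⟨U', hU', kU'⟩ := PT_box hE hD hσ hτ.2.1 h3
    refine ⟨U, U', hU, hU', (kU p x y hxy).2 ⟨hp, hx, h4⟩, (kU' p' x' y' hxy').2 ⟨hp', hx', h5⟩,
      ?_⟩
    rintro z ⟨h7, h8⟩
    obtain ⟨a, b, -, -, hab⟩ := off_op hD (((hσ U).1 hU).1 z h7)
    exact h6 b ⟨((kU z a b hab).1 h7).2.2, ((kU' z a b hab).1 h8).2.2⟩
  · obtain ⟨W, W', h2, h3, h4, h5, h6⟩ := hhd x x' hx hx' h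
    obtain ⟨U, hU, kU⟩ := PT_box hE hD hσ h2 hτ.2.1
    obtain ⟨U', hU', kU'⟩ := PT_box hE hD hσ h3 hτ.2.1
    refine ⟨U, U', hU, hU', (kU p x y hxy).2 ⟨hp, h4, hy⟩, (kU' p' x' y' hxy').2 ⟨hp', h5, hy'⟩,
      ?_⟩
    rintro z ⟨h7, h8⟩
    obtain ⟨a, b, -, -, hab⟩ := off_op hD (((hσ U).1 hU).1 z h7)
    exact h6 a ⟨((kU z a b hab).1 h7).2.1, ((kU' z a b hab).1 h8).2.1⟩

theorem PT_zd (hE : ZFC E) {X τ D σ : N} (hτ : IsTop E X τ) (hzd : IsZD E X τ)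
    (hD : IsOff E X D) (hσ : IsPT E τ D σ) : IsZD E D σ := by
  intro U p hU hpU
  have hp : E p D := ((hσ U).1 hU).1 p hpU
  obtain ⟨x, y, hx, hy, hxy⟩ := off_op hD hp
  obtain ⟨A, B, h1, h2, h3, h4, h5⟩ := ((hσ U).1 hU).2 p x y hpU hxy
  obtain ⟨A1, A2, a1, a2, a3, a4, a5⟩ := hzd A x h1 h3
  obtain ⟨B1, B2, b1, b2, b3, b4, b5⟩ := hzd B y h2 h4
  obtain ⟨V, hV, kV⟩ := PT_box hE hD hσ a1 b1
  obtain ⟨W, hW⟩ := sep hE (ρ := fun q => ¬ E q V)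
    ⟨no (.mem 0 1), vv D [V], by intro x; simp⟩ D
  refine ⟨V, W, hV, ?_, (kV p x y hxy).2 ⟨hp, a3, b3⟩, ?_, fun q hq => ?_⟩
  · refine (hσ W).2 ⟨fun z hz => ((hW z).1 hz).1, fun q a b hq hab => ?_⟩
    obtain ⟨hqD, hqV⟩ := (hW q).1 hq
    obtain ⟨ha, hb, -⟩ := off_mem hE hD hqD hab
    by_cases h : E a A1
    · have h6 : ¬ E b B1 := fun h7 => hqV ((kV q a b hab).2 ⟨hqD, h, h7⟩)
      refine ⟨X, B2, hτ.2.1, b2, ha, (b5 b hb).2 h6, fun r a' b' h7 h8 h9 h10 => ?_⟩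
      obtain ⟨-, hb', -⟩ := off_mem hE hD h7 h8
      exact (hW r).2 ⟨h7, fun h11 => (b5 b' hb').1 h10 ((kV r a' b' h8).1 h11).2.2⟩
    · refine ⟨A2, X, a2, hτ.2.1, (a5 a ha).2 h, hb, fun r a' b' h7 h8 h9 h10 => ?_⟩
      obtain ⟨ha', -, -⟩ := off_mem hE hD h7 h8
      exact (hW r).2 ⟨h7, fun h11 => (a5 a' ha').1 h9 ((kV r a' b' h8).1 h11).2.1⟩
  · intro q hq
    have hqD : E q D := ((hσ V).1 hV).1 q hq
    obtain ⟨a, b, ha, hb, hab⟩ := off_op hD hqD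
    obtain ⟨-, h6, h7⟩ := (kV q a b hab).1 hq
    exact h5 q a b hqD hab (a4 a h6) (b4 b h7)
  · rw [hW]
    exact ⟨fun h => h.2, fun h => ⟨hq, h⟩⟩

end DLN
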