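import Pool.Agent.DLN.ATop
import Pool.Agent.DLN.APro

/-! # Part A: closed sets of pairs in `H × H` are Lindelof (package A05)

(problem MP_c2fbea_gt, project DLN, part A)

`lin_of_clin2`: let `S ⊆ ρ` cover `c` (members of `ρ` are traces `V ∩ c` of members of `σ`, `IsSubT`). Let
`Q0` be the set of all ordered pairs `(b, b')` of elements of `B` (`exists_prod`) and `O` the set of all
`(b, b') ∈ Q0` such that either no element `(x, y)` of `c` satisfies `Val h x b`, `Val h y b'`, or there is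
`U ∈ S` which contains all `(x, y) ∈ c` with `Val h x b`, `Val h y b'` (`sep`). It satisfies
`CCov2 E h H O`: let `x ≠ y` in `H` (so in `Y`) and let `p = (x, y) ∈ D`. If `p ∉ c`: `p` is in the open set `U0`
(`hcl`), and if `p ∈ c`: `p` is in some `U ∈ S`, `U = V ∩ c`, `V ∈ σ`. In both cases `IsPT` gives `V', W' ∈ τ` with
`x ∈ V'`, `y ∈ W'` and `(V' × W') ∩ D ⊆ U0` (or `⊆ V`), and `IsCT` gives codes `b`, `b'` with `Val h x b`,
`Val h y b'` whose basic sets are subsets of `V'`, `W'`; `(b, b') ∈ O`. By `CLin2` there is a countable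
`O' ⊆ O` with `CCov2 E h H O'`. Let `O1` be the set of all pairs in `O'` which satisfy the second alternative
(`sep`); countable by `cnt_sub`. `choose_cnt` (`CPI/ACho.lean`) with the relation: `U ∈ S` contains all
`(x, y) ∈ c` with `Val h x b`, `Val h y b'`, where the element of `O1` is the pair `(b, b')` (state it
with `∃ b b', IsOP o b b' ∧ ..`) gives a countable `S' ⊆ S`. It covers `c`: `p = (x, y) ∈ c` has `x, y ∈ H`,
`x ≠ y`, so some `(b, b') ∈ O'` with `Val h x b`, `Val h y b'`; the first alternative is false because of `p`,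
so `(b, b') ∈ O1`. (The pair may satisfy both formulations only if no such `p` exists.) -/

universe v

namespace DLN

open STP STP.Fml CPI

variable {N : Type v} {E : N → N → Prop}

/-- a box with the codes `b`, `b'` around a point of an open set of pairs -/
private theorem box_aux {Y B h τ D σ V p x y : N} (hτ : IsCT E Y B h τ)
    (hσ : IsPT E τ D σ) (hV : E V σ) (hp : E p V) (hxy : IsOP E p x y) :
    ∃ b b', E b B ∧ E b' B ∧ Val E h x b ∧ Val E h y b' ∧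
      ∀ q x' y', E q D → IsOP E q x' y' → E x' Y → E y' Y → Val E h x' b → Val E h y' b' →
        E q V := by
  obtain ⟨V', W', hV', hW', hx, hy, hbox⟩ := ((hσ V).1 hV).2 p x y hp hxy
  obtain ⟨b, hb, hxb, hb'⟩ := ((hτ V').1 hV').2 x hx
  obtain ⟨c, hc, hyc, hc'⟩ := ((hτ W').1 hW').2 y hy
  refine ⟨b, c, hb, hc, hxb, hyc, fun q x' y' hq hq' hx' hy' h1 h2 => ?_⟩
  exact hbox q x' y' hq hq' (hb' x' hx' h1) (hc' y' hy' h2)

/-- the relation `the box with the code o, intersected with c, is a subset of U` -/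
private def Bx (E : N → N → Prop) (c h o U : N) : Prop :=
  ∃ b b', IsOP E o b b' ∧ ∀ p x y, E p c → IsOP E p x y → Val E h x b → Val E h y b' → E p U

private theorem df_Bx (c h : N) : Df2 E (Bx E c h) :=
  ⟨ex (ex (an (fOP 2 1 0) (.all (.all (.all (.imp (.mem 2 7) (.imp (fOP 2 1 0)
    (.imp (fVal 8 1 4) (.imp (fVal 8 0 3) (.mem 2 6)))))))))), vv c [c, h],
    by intro x y; simp [Bx]⟩

/-- the box with the code `o` does not meet `c` -/
private def Bn (E : N → N → Prop) (c h o : N) : Prop :=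
  ∃ b b', IsOP E o b b' ∧ ∀ p x y, E p c → IsOP E p x y → Val E h x b → ¬ Val E h y b'

private theorem df_or (c h S : N) : Df1 E fun o => Bn E c h o ∨ ∃ U, E U S ∧ Bx E c h o U :=
  ⟨or (ex (ex (an (fOP 2 1 0) (.all (.all (.all (.imp (.mem 2 6) (.imp (fOP 2 1 0)
    (.imp (fVal 7 1 4) (no (fVal 7 0 3))))))))))) (ex (an (.mem 0 4)
    (ex (ex (an (fOP 3 1 0) (.all (.all (.all (.imp (.mem 2 7) (.imp (fOP 2 1 0)
    (.imp (fVal 8 1 4) (.imp (fVal 8 0 3) (.mem 2 5))))))))))))), vv c [c, h, S],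
    by intro x; simp [Bx, Bn]⟩

private theorem df_ex (c h S : N) : Df1 E fun o => ∃ U, E U S ∧ Bx E c h o U :=
  ⟨ex (an (.mem 0 4)
    (ex (ex (an (fOP 3 1 0) (.all (.all (.all (.imp (.mem 2 7) (.imp (fOP 2 1 0)
    (.imp (fVal 8 1 4) (.imp (fVal 8 0 3) (.mem 2 5)))))))))))), vv c [c, h, S],
    by intro x; simp [Bx]⟩

theorem lin_of_clin2 (hE : ZFC E) {Y B h τ D σ H c ρ : N} (hτ : IsCT E Y B h τ)
    (hD : IsOff E Y D) (hσ : IsPT E τ D σ) (hHY : Sub E H Y) (hlin : CLin2 E B h H)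
    (hcD : Sub E c D) (hc : ∀ p x y, IsOP E p x y → E p c → E x H ∧ E y H)
    (hcl : ∃ U0, E U0 σ ∧ ∀ p, E p D → (E p U0 ↔ ¬ E p c)) (hρ : IsSubT E σ c ρ) :
    IsLin E c ρ := by
  intro S hS hcov
  obtain ⟨U0, hU0, hU0c⟩ := hcl
  obtain ⟨Q0, hQ0⟩ := exists_prod hE B B
  obtain ⟨O, hO⟩ := sep hE (df_or (E := E) c h S) Q0
  -- members of O are pairs of codes
  have hOB : ∀ b b', Val E O b b' → E b B ∧ E b' B := by
    rintro b b' ⟨o, ho, hbb⟩
    obtain ⟨u, u', hu, hu', ho'⟩ := (hQ0 o).1 ((hO o).1 ho).1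
    obtain ⟨rfl, rfl⟩ := IsOP.inj hE hbb ho'
    exact ⟨hu, hu'⟩
  -- the boxes in O cover
  have hOc : CCov2 E h H O := by
    intro x y hx hy hne
    obtain ⟨p, hp⟩ := exists_op hE x y
    have hpD : E p D := (hD p).2 ⟨x, y, hHY x hx, hHY y hy, hne, hp⟩
    by_cases hpc : E p c
    · obtain ⟨U, hU, hpU⟩ := hcov p hpc
      obtain ⟨V, hV, hVU⟩ := (hρ U).1 (hS U hU)
      obtain ⟨b, b', hb, hb', hxb, hyb, hbox⟩ := box_aux hτ hσ hV ((hVU p).1 hpU).1 hp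
      obtain ⟨o, ho⟩ := exists_op hE b b'
      refine ⟨b, b', ⟨o, (hO o).2 ⟨(hQ0 o).2 ⟨b, b', hb, hb', ho⟩, Or.inr ⟨U, hU, b, b', ho, ?_⟩⟩,
        ho⟩, hxb, hyb⟩
      intro q x' y' hq hq' h1 h2
      obtain ⟨hx', hy'⟩ := hc q x' y' hq' hq
      exact (hVU q).2 ⟨hbox q x' y' (hcD q hq) hq' (hHY x' hx') (hHY y' hy') h1 h2, hq⟩
    · have hpU : E p U0 := (hU0c p hpD).2 hpc
      obtain ⟨b, b', hb, hb', hxb, hyb, hbox⟩ := box_aux hτ hσ hU0 hpU hp
      obtain ⟨o, ho⟩ := exists_op hE b b'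
      refine ⟨b, b', ⟨o, (hO o).2 ⟨(hQ0 o).2 ⟨b, b', hb, hb', ho⟩, Or.inl ⟨b, b', ho, ?_⟩⟩,
        ho⟩, hxb, hyb⟩
      intro q x' y' hq hq' h1 h2
      obtain ⟨hx', hy'⟩ := hc q x' y' hq' hq
      have hqD : E q D := hcD q hq
      exact (hU0c q hqD).1 (hbox q x' y' hqD hq' (hHY x' hx') (hHY y' hy') h1 h2) hq
  obtain ⟨O', hO'O, hO'cnt, hO'cov⟩ := hlin O hOB hOc
  obtain ⟨O1, hO1⟩ := sep hE (df_ex (E := E) c h S) O'
  have hO1cnt : IsCnt E O1 := cnt_sub (fun o ho => ((hO1 o).1 ho).1) hO'cnt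
  obtain ⟨S', hS'S, hS'cnt, hS'⟩ := choose_cnt hE (df_Bx (E := E) c h) hO1cnt
    (fun o ho => ((hO1 o).1 ho).2)
  refine ⟨S', hS'S, hS'cnt, fun p hp => ?_⟩
  obtain ⟨x, y, -, -, hne, hxy⟩ := (hD p).1 (hcD p hp)
  obtain ⟨hx, hy⟩ := hc p x y hxy hp
  obtain ⟨b, b', ⟨o, ho, hob⟩, hxb, hyb⟩ := hO'cov x y hx hy hne
  rcases ((hO o).1 (hO'O o ho)).2 with h1 | h1
  · obtain ⟨u, u', huo, h2⟩ := h1
    obtain ⟨rfl, rfl⟩ := IsOP.inj hE hob huo
    exact absurd hyb (h2 p x y hp hxy hxb)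
  · obtain ⟨U, hU, u, u', huo, h2⟩ := hS' o ((hO1 o).2 ⟨ho, h1⟩)
    obtain ⟨rfl, rfl⟩ := IsOP.inj hE hob huo
    exact ⟨U, hU, h2 p x y hp hxy hxb hyb⟩

end DLN
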