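import Pool.Agent.DLN.Coded
import Pool.Agent.CPI.ATool
import Pool.Agent.CPI.AChoI
import Pool.Agent.CPI.ACho
import Pool.Agent.CPI.FLang

/-! # Part A, definitions: the topology of a coded space, zero-dimensional spaces, cuts

(problem MP_c2fbea_gt, project DLN, part A; no sorry in this file)

Everything happens in an arbitrary structure `(N, E)` with `ZFC E`. A Lean predicate on `N` defines a
set only if it is given by a formula with parameters: `Df1`, `Df2` (`CPI/ADefs.lean`), `sep`, `img`,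
`exists_rel`, `exists_fun`, `exists_prod`, `exists_op`, `exists_int` (`CPI/ATool.lean`). To prove `Df1 E P`
give a formula (de Bruijn, variable `0` is the argument, the parameters are the variables
`1, 2, ...`) and the parameters, for instance `⟨fVal 1 0 2, vv d [f, y], by intro x; simp⟩` for
`P x = Val E f x y` (`d` is any element of `N`). For `Df2 E P` the arguments `x, y` of `P x y` are the
variables `0, 1`. Formulas for the notions of set theory: `fSub`, `fOP`, `fVal`, `fFun`, `fOm`, `fUn`,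
`fInt` (`STP/FLang.lean`), `fCnt`, `fTop`, ... (`CPI/FLang.lean`), `fCOp`, `fBox`, `fCut` below. -/

universe v

namespace DLN

open STP STP.Fml CPI

section

variable {N : Type v} (E : N → N → Prop)

/-- `U` is an open set of the coded space `(Y, B, h)` -/
def COp (Y B h U : N) : Prop :=
  Sub E U Y ∧ ∀ y, E y U → ∃ b, E b B ∧ Val E h y b ∧ ∀ z, E z Y → Val E h z b → E z U

/-- `τ` is the topology of the coded space `(Y, B, h)` -/
def IsCT (Y B h τ : N) : Prop := ∀ U, E U τ ↔ COp E Y B h U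

/-- the space `(X, τ)` has a base of clopen sets (`V` is open, `W` is its complement, an open
set) -/
def IsZD (X τ : N) : Prop :=
  ∀ U x, E U τ → E x U → ∃ V W, E V τ ∧ E W τ ∧ E x V ∧ Sub E V U ∧
    ∀ y, E y X → (E y W ↔ ¬ E y V)

/-- the set `U` of ordered pairs contains with every pair a box in `D` -/
def IsPO (τ D U : N) : Prop :=
  Sub E U D ∧ ∀ p x y, E p U → IsOP E p x y → ∃ V W, E V τ ∧ E W τ ∧ E x V ∧ E y W ∧
    ∀ q x' y', E q D → IsOP E q x' y' → E x' V → E y' W → E q U

/-- `c` is a cut of the linear order `(Q, q)`: a nonempty proper initial segment without maximum -/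
def IsCut (Q q c : N) : Prop :=
  Sub E c Q ∧ (∃ x, E x c) ∧ (∃ x, E x Q ∧ ¬ E x c) ∧
  (∀ x y, Val E q x y → E y c → E x c) ∧ ∀ x, E x c → ∃ y, E y c ∧ Val E q x y

end

/-- formula for `COp` -/
def fCOp (Y B h U : ℕ) : Fml :=
  an (fSub U Y) (.all (.imp (.mem 0 (U + 1)) (ex (an (.mem 0 (B + 2)) (an (fVal (h + 2) 1 0)
    (.all (.imp (.mem 0 (Y + 3)) (.imp (fVal (h + 3) 0 1) (.mem 0 (U + 3))))))))))

/-- formula for `IsPO` -/
def fPO (t D U : ℕ) : Fml :=
  an (fSub U D) (.all (.all (.all (.imp (.mem 2 (U + 3)) (.imp (fOP 2 1 0)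
    (ex (ex (an (.mem 1 (t + 5)) (an (.mem 0 (t + 5)) (an (.mem 3 1) (an (.mem 2 0)
      (.all (.all (.all (.imp (.mem 2 (D + 8)) (.imp (fOP 2 1 0) (.imp (.mem 1 4)
        (.imp (.mem 0 3) (.mem 2 (U + 8))))))))))))))))))))

/-- formula for `IsCut` -/
def fCut (Q q c : ℕ) : Fml :=
  an (fSub c Q) (an (ex (.mem 0 (c + 1))) (an (ex (an (.mem 0 (Q + 1)) (no (.mem 0 (c + 1)))))
    (an (.all (.all (.imp (fVal (q + 2) 1 0) (.imp (.mem 0 (c + 2)) (.mem 1 (c + 2))))))
      (.all (.imp (.mem 0 (c + 1)) (ex (an (.mem 0 (c + 2)) (fVal (q + 2) 1 0))))))))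

section

variable {N : Type v} {E : N → N → Prop} {v : ℕ → N}

@[simp] theorem sat_fCOp {Y B h U : ℕ} : sat E (fCOp Y B h U) v ↔
    COp E (v Y) (v B) (v h) (v U) := by
  simp [fCOp, COp]

@[simp] theorem sat_fPO {t D U : ℕ} : sat E (fPO t D U) v ↔ IsPO E (v t) (v D) (v U) := by
  simp [fPO, IsPO]

@[simp] theorem sat_fCut {Q q c : ℕ} : sat E (fCut Q q c) v ↔ IsCut E (v Q) (v q) (v c) := by
  simp [fCut, IsCut]

end

end DLN
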