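import Pool.Agent.DLN.ADL

/-! # Part A: the complement of the diagonal is discretely Lindelof (package A06)

(problem MP_c2fbea_gt, project DLN, part A)

* `cl_open`: the closure `c` of `A` in a space `(X, τ)` is a subset of `X` with open complement: the union of
  all `U ∈ τ` which contain no element of `A` (`sep` on `τ`, `hE.union`, third clause of `IsTop`).
* `cdisc`: a discrete subset `A` of `(D, σ)` satisfies `CDisc E Y B h A`: for `(x, y) = p ∈ A` (`Val A x y`) let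
  `U ∈ σ` with `p ∈ U` and no other element of `A` in `U`; `IsPT` gives `V', W' ∈ τ`, and `IsCT` gives codes
  `b`, `c`. If `Val A x' y'`, `Val h x' b`, `Val h y' c` then `(x', y') ∈ U`, so it is `p` (`IsOP.inj`).
* `dl_of_cdl`: `CDL` gives `H`. The closure `c` of `A` consists of pairs in `H × H`: let `p = (x, y) ∈ c` and
  suppose `¬ E x H`; the complement `U1` of `H` is open (`CT_cl`), and the box `U1 × Y` (`PT_box`) contains `p`
  and no element of `A`. The same for `y`. Then `cl_open` and `lin_of_clin2`. -/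

universe v

namespace DLN

open STP STP.Fml CPI

variable {N : Type v} {E : N → N → Prop}

theorem cl_open (hE : ZFC E) {X τ A c : N} (hτ : IsTop E X τ) (hc : IsCl E X τ A c) :
    Sub E c X ∧ ∃ U, E U τ ∧ ∀ x, E x X → (E x U ↔ ¬ E x c) := by
  refine ⟨fun x hx => ((hc x).1 hx).1, ?_⟩
  obtain ⟨S, hS⟩ := sep hE (ρ := fun U => ∀ a, E a A → ¬ E a U)
    ⟨.all (.imp (.mem 0 2) (no (.mem 0 1))), vv A [A], by intro x; simp⟩ τ
  obtain ⟨u, hu⟩ := hE.union S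
  refine ⟨u, hτ.2.2.1 S u (fun U hU => ((hS U).1 hU).1) hu, fun x hx => ?_⟩
  rw [hu, hc]
  constructor
  · rintro ⟨w, hw, hxw⟩ ⟨-, h⟩
    obtain ⟨a, ha, haw⟩ := h w ((hS w).1 hw).1 hxw
    exact ((hS w).1 hw).2 a ha haw
  · intro h
    by_contra hn
    refine h ⟨hx, fun U hU hxU => ?_⟩
    by_contra h'
    exact hn ⟨U, (hS U).2 ⟨hU, fun a ha haU => h' ⟨a, ha, haU⟩⟩, hxU⟩

/-- the components of an element of the complement of the diagonal -/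
private theorem off_comp (hE : ZFC E) {X D p x y : N} (hD : IsOff E X D) (hp : IsOP E p x y)
    (h : E p D) : E x X ∧ E y X ∧ x ≠ y := by
  obtain ⟨x', y', hx, hy, hne, hp'⟩ := (hD p).1 h
  obtain ⟨rfl, rfl⟩ := IsOP.inj hE hp hp'
  exact ⟨hx, hy, hne⟩

theorem cdisc (hE : ZFC E) {Y B h τ D σ A : N} (hτ : IsCT E Y B h τ) (hD : IsOff E Y D)
    (hσ : IsPT E τ D σ) (hA : IsDisc E D σ A) : CDisc E Y B h A := by
  rintro x y ⟨p, hpA, hp⟩
  have hpD := hA.1 p hpA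
  obtain ⟨hx, hy, hne⟩ := off_comp hE hD hp hpD
  obtain ⟨U, hU, hpU, huniq⟩ := hA.2 p hpA
  obtain ⟨V, W, hV, hW, hxV, hyW, hbox⟩ := ((hσ U).1 hU).2 p x y hpU hp
  obtain ⟨b, hb, hxb, hbV⟩ := ((hτ V).1 hV).2 x hxV
  obtain ⟨c, hc, hyc, hcW⟩ := ((hτ W).1 hW).2 y hyW
  refine ⟨hx, hy, hne, b, c, hb, hc, hxb, hyc, ?_⟩
  rintro x' y' ⟨p', hp'A, hp'⟩ hxb' hyc'
  have hp'D := hA.1 p' hp'A
  obtain ⟨hx', hy', -⟩ := off_comp hE hD hp' hp'D
  have h1 := huniq p' hp'A (hbox p' x' y' hp'D hp' (hbV x' hx' hxb') (hcW y' hy' hyc'))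
  subst h1
  exact IsOP.inj hE hp' hp

theorem dl_of_cdl (hE : ZFC E) {Y B h τ D σ : N} (hsp : CSp E Y B h) (hcdl : CDL E Y B h)
    (hτ : IsCT E Y B h τ) (hD : IsOff E Y D) (hσ : IsPT E τ D σ) : IsDL E D σ := by
  intro A c ρ hA hc hρ
  obtain ⟨H, hHcl, hlin, hAH⟩ := hcdl A (cdisc hE hτ hD hσ hA)
  have htop := CT_top hsp hτ
  obtain ⟨hcD, hcl⟩ := cl_open hE (PT_top hE htop hD hσ) hc
  refine lin_of_clin2 hE hτ hD hσ hHcl.1 hlin hcD (fun p x y hp hpc => ?_) hcl hρ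
  obtain ⟨U1, hU1, hU1'⟩ := CT_cl hE hHcl hτ
  have hpD := hcD p hpc
  obtain ⟨hx, hy, -⟩ := off_comp hE hD hp hpD
  refine ⟨?_, ?_⟩
  · by_contra hxH
    obtain ⟨U, hU, hUbox⟩ := PT_box hE hD hσ hU1 htop.2.1
    obtain ⟨a, haA, haU⟩ := ((hc p).1 hpc).2 U hU
      ((hUbox p x y hp).2 ⟨hpD, (hU1' x).2 ⟨hx, hxH⟩, hy⟩)
    obtain ⟨x', y', -, -, -, ha⟩ := (hD a).1 (hA.1 a haA)
    exact ((hU1' x').1 ((hUbox a x' y' ha).1 haU).2.1).2 (hAH x' y' ⟨a, haA, ha⟩).1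
  · by_contra hyH
    obtain ⟨U, hU, hUbox⟩ := PT_box hE hD hσ htop.2.1 hU1
    obtain ⟨a, haA, haU⟩ := ((hc p).1 hpc).2 U hU
      ((hUbox p x y hp).2 ⟨hpD, hx, (hU1' y).2 ⟨hy, hyH⟩⟩)
    obtain ⟨x', y', -, -, -, ha⟩ := (hD a).1 (hA.1 a haA)
    exact ((hU1' y').1 ((hUbox a x' y' ha).1 haU).2.2).2 (hAH x' y' ⟨a, haA, ha⟩).2

end DLN
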