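import Pool.Agent.DLN.ADefs

/-! # Part A: the topology of a coded space (package A01)

(problem MP_c2fbea_gt, project DLN, part A)

See `CPI/ATop.lean`, `CPI/AHd.lean` for similar proofs.
* `exists_CT`: power set of `Y` and `sep` with `fCOp 1 2 3 0`, parameters `vv Y [Y, B, h]`.
* `CT_top`: `CSp` (the basic sets cover and are directed).
* `CT_bas`: `U := {y ∈ Y | Val h y b}` by `sep`; it is open (the code `b` works). `CT_cobas`: its complement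
  `{y ∈ Y | ¬ Val h y b}`, open by `CClp`.
* `CT_hd`: the basic sets from `CHd` and `CT_bas`.
* `CT_zd`: for `x ∈ U ∈ τ` take the code `b` from `COp`, `V` from `CT_bas`, `W` from `CT_cobas`.
* `CT_cl`: the complement of a closed set `H` (`CCl`) is open: `sep`. -/

universe v

namespace DLN

open STP STP.Fml CPI

variable {N : Type v} {E : N → N → Prop}

theorem exists_CT (hE : ZFC E) (Y B h : N) : ∃ τ, IsCT E Y B h τ := by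
  obtain ⟨P, hP⟩ := hE.power Y
  obtain ⟨τ, hτ⟩ := sep hE (ρ := fun U => COp E Y B h U)
    ⟨fCOp 1 2 3 0, vv Y [Y, B, h], by intro x; simp⟩ P
  exact ⟨τ, fun U => ⟨fun hU => ((hτ U).1 hU).2, fun hU => (hτ U).2 ⟨(hP U).2 hU.1, hU⟩⟩⟩

theorem CT_top {Y B h τ : N} (hsp : CSp E Y B h) (hτ : IsCT E Y B h τ) : IsTop E Y τ := by
  refine ⟨fun U hU => ((hτ U).1 hU).1, ?_, fun S u hS hu => ?_, fun U V W hU hV hW => ?_⟩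
  · refine (hτ Y).2 ⟨fun x hx => hx, fun y hy => ?_⟩
    obtain ⟨b, hb, hyb⟩ := hsp.1 y hy
    exact ⟨b, hb, hyb, fun z hz _ => hz⟩
  · refine (hτ u).2 ⟨fun x hx => ?_, fun y hy => ?_⟩
    · obtain ⟨U, hU, hx⟩ := (hu x).1 hx
      exact ((hτ U).1 (hS U hU)).1 x hx
    · obtain ⟨U, hU, hyU⟩ := (hu y).1 hy
      obtain ⟨b, hb, hyb, hbU⟩ := ((hτ U).1 (hS U hU)).2 y hyU
      exact ⟨b, hb, hyb, fun z h1 h2 => (hu z).2 ⟨U, hU, hbU z h1 h2⟩⟩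
  · refine (hτ W).2 ⟨fun x hx => ((hτ U).1 hU).1 x ((hW x).1 hx).1, fun y hy => ?_⟩
    obtain ⟨b, hb, hyb, hbU⟩ := ((hτ U).1 hU).2 y ((hW y).1 hy).1
    obtain ⟨b', hb', hyb', hbV⟩ := ((hτ V).1 hV).2 y ((hW y).1 hy).2
    have hyY : E y Y := ((hτ U).1 hU).1 y ((hW y).1 hy).1
    obtain ⟨b3, hb3, hyb3, h3⟩ := hsp.2 y b b' hyY hb hb' hyb hyb'
    exact ⟨b3, hb3, hyb3, fun z h4 h5 => (hW z).2
      ⟨hbU z h4 (h3 z h4 h5).1, hbV z h4 (h3 z h4 h5).2⟩⟩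

theorem CT_bas (hE : ZFC E) {Y B h τ b : N} (hτ : IsCT E Y B h τ) (hb : E b B) :
    ∃ U, E U τ ∧ ∀ y, E y U ↔ E y Y ∧ Val E h y b := by
  obtain ⟨U, hU⟩ := sep hE (ρ := fun y => Val E h y b)
    ⟨fVal 1 0 2, vv Y [h, b], by intro x; simp⟩ Y
  refine ⟨U, (hτ U).2 ⟨fun y hy => ((hU y).1 hy).1, fun y hy => ?_⟩, hU⟩
  exact ⟨b, hb, ((hU y).1 hy).2, fun z hz hzb => (hU z).2 ⟨hz, hzb⟩⟩

theorem CT_cobas (hE : ZFC E) {Y B h τ b : N} (hclp : CClp E Y B h) (hτ : IsCT E Y B h τ)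
    (hb : E b B) : ∃ U, E U τ ∧ ∀ y, E y U ↔ E y Y ∧ ¬ Val E h y b := by
  obtain ⟨U, hU⟩ := sep hE (ρ := fun y => ¬ Val E h y b)
    ⟨no (fVal 1 0 2), vv Y [h, b], by intro x; simp⟩ Y
  refine ⟨U, (hτ U).2 ⟨fun y hy => ((hU y).1 hy).1, fun y hy => ?_⟩, hU⟩
  obtain ⟨h1, h2⟩ := (hU y).1 hy
  obtain ⟨c, hc, hyc, h3⟩ := hclp y b h1 hb h2
  exact ⟨c, hc, hyc, fun z hz hzc => (hU z).2 ⟨hz, fun hzb => h3 z hz ⟨hzc, hzb⟩⟩⟩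

theorem CT_hd (hE : ZFC E) {Y B h τ : N} (hhd : CHd E Y B h) (hτ : IsCT E Y B h τ) :
    IsHd E Y τ := by
  intro x y hx hy hne
  obtain ⟨b, c, hb, hc, hxb, hyc, h1⟩ := hhd x y hx hy hne
  obtain ⟨U, hU, hU'⟩ := CT_bas hE hτ hb
  obtain ⟨V, hV, hV'⟩ := CT_bas hE hτ hc
  refine ⟨U, V, hU, hV, (hU' x).2 ⟨hx, hxb⟩, (hV' y).2 ⟨hy, hyc⟩, ?_⟩
  rintro z ⟨hz, hz'⟩
  exact h1 z ((hU' z).1 hz).1 ⟨((hU' z).1 hz).2, ((hV' z).1 hz').2⟩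

theorem CT_zd (hE : ZFC E) {Y B h τ : N} (hclp : CClp E Y B h) (hτ : IsCT E Y B h τ) :
    IsZD E Y τ := by
  intro U x hU hx
  obtain ⟨h1, h2⟩ := (hτ U).1 hU
  obtain ⟨b, hb, hxb, hbU⟩ := h2 x hx
  obtain ⟨V, hV, hV'⟩ := CT_bas hE hτ hb
  obtain ⟨W, hW, hW'⟩ := CT_cobas hE hclp hτ hb
  refine ⟨V, W, hV, hW, (hV' x).2 ⟨h1 x hx, hxb⟩,
    fun z hz => hbU z ((hV' z).1 hz).1 ((hV' z).1 hz).2, fun y hy => ?_⟩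
  rw [hW', hV']
  exact ⟨fun h3 h4 => h3.2 h4.2, fun h3 => ⟨hy, fun h4 => h3 ⟨hy, h4⟩⟩⟩

theorem CT_cl (hE : ZFC E) {Y B h τ H : N} (hH : CCl E Y B h H) (hτ : IsCT E Y B h τ) :
    ∃ U, E U τ ∧ ∀ y, E y U ↔ E y Y ∧ ¬ E y H := by
  obtain ⟨U, hU⟩ := sep hE (ρ := fun y => ¬ E y H)
    ⟨no (.mem 0 1), vv Y [H], by intro x; simp⟩ Y
  refine ⟨U, (hτ U).2 ⟨fun y hy => ((hU y).1 hy).1, fun y hy => ?_⟩, hU⟩
  obtain ⟨h1, h2⟩ := (hU y).1 hy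
  obtain ⟨b, hb, hyb, h3⟩ := hH.2 y h1 h2
  exact ⟨b, hb, hyb, fun z hz hzb => (hU z).2 ⟨hz, fun hzH => h3 z hzH hzb⟩⟩

end DLN
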