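import Pool.Agent.DLN.ADefs
import Pool.Agent.DLN.ATop

/-! # Part A: the coded space is not Lindelof (package A02)

(problem MP_c2fbea_gt, project DLN, part A)

Suppose `IsLin E Y τ`; we prove `CLin`. Let `O ⊆ B` cover `Y`. Let `S` be the set of all `U ∈ τ`
which are the basic set of some `b ∈ O`: `∀ y, y ∈ U ↔ y ∈ Y ∧ Val h y b` (`sep` on `τ`). `S` covers
`Y` (`CT_bas`), so a countable `S' ⊆ S` covers `Y`. `choose_cnt` (`CPI/ACho.lean`) with the relation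
`W is the basic set of b` gives a countable `O' ⊆ O` such that every `W ∈ S'` is the basic set of
some `b ∈ O'`. So `O'` covers. -/

universe v

namespace DLN

open STP STP.Fml CPI

variable {N : Type v} {E : N → N → Prop}

theorem CT_nlin (hE : ZFC E) {Y B h τ : N} (hnl : ¬ CLin E Y B h) (hτ : IsCT E Y B h τ) :
    ¬ IsLin E Y τ := by
  intro hlin
  apply hnl
  intro O hO hc
  obtain ⟨S, hS⟩ := sep hE (ρ := fun W => ∃ b, E b O ∧ ∀ y, E y W ↔ E y Y ∧ Val E h y b)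
    ⟨ex (an (.mem 0 2) (.all (iff (.mem 0 2) (an (.mem 0 4) (fVal 5 0 1))))),
      vv τ [O, Y, h], by intro x; simp⟩ τ
  obtain ⟨S', hS', hcnt, hcov⟩ := hlin S (fun W hW => ((hS W).1 hW).1) (by
    intro y hy
    obtain ⟨b, hb, hyb⟩ := hc y hy
    obtain ⟨W, hW, hW'⟩ := CT_bas hE hτ (hO b hb)
    exact ⟨W, (hS W).2 ⟨hW, b, hb, hW'⟩, (hW' y).2 ⟨hy, hyb⟩⟩)
  obtain ⟨O', hO', hcnt', h1⟩ := choose_cnt hE
    (ρ := fun W b => ∀ y, E y W ↔ E y Y ∧ Val E h y b)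
    ⟨.all (iff (.mem 0 1) (an (.mem 0 3) (fVal 4 0 2))), vv τ [Y, h], by intro x y; simp⟩ hcnt
    fun W hW => ((hS W).1 (hS' W hW)).2
  refine ⟨O', hO', hcnt', fun y hy => ?_⟩
  obtain ⟨W, hW, hyW⟩ := hcov y hy
  obtain ⟨b, hb, hbW⟩ := h1 W hW
  exact ⟨b, hb, ((hbW y).1 hyW).2⟩

end DLN
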