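import Pool.Agent.DLN.ADefs

/-! # Part A: the ordered set of cuts (package A08)

(problem MP_c2fbea_gt, project DLN, part A)

`(Q, q)` is a countable dense linear order without end points in `(N, E)`.
* `exists_cuts`: `R` from the power set of `Q` and `sep` with `fCut 1 2 0`; `l` from `exists_rel`
  with the
  definable relation `Sub c c' ∧ c ≠ c'`.
* `cut_tot`: two cuts are comparable: if `x ∈ c`, `x ∉ c'` then every `y ∈ c'` satisfies `y < x`
  (otherwise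
  `y = x` or `x < y`, and `x ∈ c'`), so `y ∈ c`.
* `exists_low`: for `x ∈ Q` the set `c_x = {y | y < x}` is a cut (`sep`; no end points, density,
  `x ∉ c_x`).
* `cut_end`: let `c` be a cut; `x ∈ c`, `y ∈ Q ∖ c`. `c_x` is a proper subset of `c` (`x ∈ c`, `x
  ∉ c_x`). For an
  element `z > y` the cut `c_z` contains `y` and all elements of `c` (they are `< y`).
* `exists_low_fun`: the function `x ↦ c_x` with domain `Q` (`exists_fun`). -/

universe v

namespace DLN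

open STP STP.Fml CPI

variable {N : Type v} {E : N → N → Prop}

/-- `c = {y | y < x}` -/
def IsLow (E : N → N → Prop) (q x c : N) : Prop := ∀ y, E y c ↔ Val E q y x

/-- `R` is the set of cuts, `l` its order -/
def IsRC' (E : N → N → Prop) (Q q R l : N) : Prop :=
  (∀ c, E c R ↔ IsCut E Q q c) ∧
    ∀ c c', Val E l c c' ↔ IsCut E Q q c ∧ IsCut E Q q c' ∧ Sub E c c' ∧ c ≠ c'

theorem exists_cuts (hE : ZFC E) (Q q : N) : ∃ R l, IsRC' E Q q R l := by
  obtain ⟨P1, hP1⟩ := hE.power Q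
  obtain ⟨R, hR⟩ := sep hE (ρ := fun c => IsCut E Q q c)
    ⟨fCut 1 2 0, vv Q [Q, q], by intro x; simp⟩ P1
  have hR' : ∀ c, E c R ↔ IsCut E Q q c := fun c =>
    ⟨fun h => ((hR c).1 h).2, fun h => (hR c).2 ⟨(hP1 c).2 h.1, h⟩⟩
  obtain ⟨l, -, hl⟩ := exists_rel hE (ρ := fun c c' => Sub E c c' ∧ c ≠ c')
    ⟨an (fSub 0 1) (no (.eq 0 1)), vv Q [], by intro x y; simp⟩ R R
  refine ⟨R, l, hR', fun c c' => ?_⟩
  rw [hl, hR', hR']

theorem cut_tot (hE : ZFC E) {Q q c c' : N} (hQ : CQ E Q q) (hc : IsCut E Q q c)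
    (hc' : IsCut E Q q c') : Sub E c c' ∨ Sub E c' c := by
  by_cases h : Sub E c c'
  · exact Or.inl h
  · unfold STP.Sub at h
    push Not at h
    obtain ⟨x, hx, hx'⟩ := h
    refine Or.inr fun y hy => ?_
    obtain ⟨-, -, -, -, -, htot, -⟩ := hQ
    rcases htot x y (hc.1 x hx) (hc'.1 y hy) with h1 | h1 | h1
    · exact absurd (hc'.2.2.2.1 x y h1 hy) hx'
    · subst h1
      exact absurd hy hx'
    · exact hc.2.2.2.1 y x h1 hx

theorem exists_low (hE : ZFC E) {Q q x : N} (hQ : CQ E Q q) (hx : E x Q) :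
    ∃ c, IsLow E q x c ∧ IsCut E Q q c := by
  obtain ⟨-, -, hdom, hirr, htr, -, hend, hden⟩ := hQ
  obtain ⟨c, hc⟩ := sep hE (ρ := fun y => Val E q y x)
    ⟨fVal 1 0 2, vv Q [q, x], by intro x; simp⟩ Q
  have hc' : ∀ y, E y c ↔ Val E q y x := fun y =>
    ⟨fun h => ((hc y).1 h).2, fun h => (hc y).2 ⟨(hdom y x h).1, h⟩⟩
  refine ⟨c, hc', fun y hy => ((hc y).1 hy).1, ?_, ⟨x, hx, fun h => hirr x ((hc' x).1 h)⟩,
    fun y z h hz => (hc' y).2 (htr y z x h ((hc' z).1 hz)), fun y hy => ?_⟩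
  · obtain ⟨y, hy⟩ := (hend x hx).1
    exact ⟨y, (hc' y).2 hy⟩
  · obtain ⟨d, h1, h2⟩ := hden y x ((hc' y).1 hy)
    exact ⟨d, (hc' d).2 h2, h1⟩

theorem cut_end (hE : ZFC E) {Q q R l c : N} (hQ : CQ E Q q) (hR : IsRC' E Q q R l)
    (hc : E c R) : (∃ d, Val E l d c) ∧ ∃ d, Val E l c d := by
  have hc' := (hR.1 c).1 hc
  obtain ⟨h1, ⟨x, hx⟩, ⟨y, hyQ, hy⟩, h4, h5⟩ := (hR.1 c).1 hc
  have hQ' := hQ
  obtain ⟨-, -, hdom, hirr, htr, htot, hend, -⟩ := hQ'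
  constructor
  · obtain ⟨d, hd, hd'⟩ := exists_low hE hQ (h1 x hx)
    refine ⟨d, (hR.2 d c).2 ⟨hd', hc', fun z hz => h4 z x ((hd z).1 hz) hx, ?_⟩⟩
    rintro rfl
    exact hirr x ((hd x).1 hx)
  · obtain ⟨z, hz⟩ := (hend y hyQ).2
    obtain ⟨d, hd, hd'⟩ := exists_low hE hQ (hdom y z hz).2
    refine ⟨d, (hR.2 c d).2 ⟨hc', hd', fun u hu => ?_, ?_⟩⟩
    · rw [hd]
      rcases htot u y (h1 u hu) hyQ with h6 | h6 | h6
      · exact htr u y z h6 hz
      · rw [h6]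
        exact hz
      · exact absurd (h4 y u h6 hu) hy
    · rintro rfl
      exact hy ((hd y).2 hz)

theorem exists_low_fun (hE : ZFC E) {Q q : N} (hQ : CQ E Q q) :
    ∃ f, IsFun E f Q ∧ ∀ x c, Val E f x c ↔ E x Q ∧ IsLow E q x c := by
  refine exists_fun hE (ρ := fun x c => IsLow E q x c)
    ⟨.all (iff (.mem 0 2) (fVal 3 0 1)), vv Q [q], by intro x y; simp [IsLow]⟩ Q fun x hx => ?_
  obtain ⟨c, hc, -⟩ := exists_low hE hQ hx
  exact ⟨c, hc, fun d hd => hE.ext d c fun z => (hd z).trans (hc z).symm⟩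

end DLN
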