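import Pool.Agent.DLN.ARLa

/-! # Part A: the real line exists in every model with a countable dense order (package A09)

(problem MP_c2fbea_gt, project DLN, part A)

`R`, `l` from `exists_cuts`. The clauses of `IsRL`:
* there is a cut: `exists_low`. Elements of `l` are pairs of cuts; irreflexive; transitive (if
  `Sub c c'`, `Sub c' c''` and `c = c''` then `c = c'` by extensionality `hE.ext`); total: `cut_tot`; no end
  points: `cut_end`.
* countable dense subset: `D := {c_x | x ∈ Q}`, the image of `Q` under the function of `exists_low_fun`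
  (`exists_im`, `cnt_im` of `CPI/AChoI.lean`). If `c` is a proper subset of `c'` let `x ∈ c'`, `x ∉ c`, and
  `y ∈ c'` with `x < y` (no maximum). Then `c ⊆ c_y` (elements of `c` are `< x`), `x ∈ c_y`, `x ∉ c`, and
  `c_y ⊆ c'`, `y ∈ c'`, `y ∉ c_y`.
* completeness: `A` a nonempty set of cuts with an upper bound `b`. The union `s` of `A` (`hE.union`) is a cut:
  it is a subset of `b` (for `a ∈ A`: not `b < a`, so `a ⊆ b` by `cut_tot`), so proper. It is an upper bound
  (`a ⊆ s`, so not `s < a`), and if `b'` is an upper bound then `s ⊆ b'`, so not `b' < s`. -/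

universe v

namespace DLN

open STP STP.Fml CPI

variable {N : Type v} {E : N → N → Prop}

theorem exists_RL (hE : ZFC E) {Q q : N} (hQ : CQ E Q q) : ∃ R l, IsRL E R l := by
  obtain ⟨R, l, hRl⟩ := exists_cuts hE Q q
  obtain ⟨⟨x0, hx0⟩, hcnt, hq1, hirr, htr, htot, hend, hdense⟩ := id hQ
  obtain ⟨hR, hl⟩ := id hRl
  have hsub : ∀ x y : N, Sub E x y → Sub E y x → x = y := fun x y h1 h2 =>
    hE.ext x y fun z => ⟨h1 z, h2 z⟩
  have hlow : ∀ x c, E x Q → IsLow E q x c → IsCut E Q q c := by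
    intro x c hx hc
    obtain ⟨c', h1, h2⟩ := exists_low hE hQ hx
    have h3 : c = c' := hE.ext c c' fun z => (hc z).trans (h1 z).symm
    rwa [h3]
  refine ⟨R, l, ?_, ?_, ?_, ?_, ?_, ?_, ?_, ?_⟩
  · obtain ⟨c, -, hc⟩ := exists_low hE hQ hx0
    exact ⟨c, (hR c).2 hc⟩
  · intro x y h
    obtain ⟨h1, h2, -⟩ := (hl x y).1 h
    exact ⟨(hR x).2 h1, (hR y).2 h2⟩
  · intro x h
    exact ((hl x x).1 h).2.2.2 rfl
  · intro x y z h1 h2
    obtain ⟨a1, a2, a3, a4⟩ := (hl x y).1 h1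
    obtain ⟨-, b2, b3, b4⟩ := (hl y z).1 h2
    refine (hl x z).2 ⟨a1, b2, fun w hw => b3 w (a3 w hw), ?_⟩
    rintro rfl
    exact a4 (hsub x y a3 b3)
  · intro x y hx hy
    have hx' := (hR x).1 hx
    have hy' := (hR y).1 hy
    by_cases hxy : x = y
    · exact Or.inr (Or.inl hxy)
    · rcases cut_tot hE hQ hx' hy' with h | h
      · exact Or.inl ((hl x y).2 ⟨hx', hy', h, hxy⟩)
      · exact Or.inr (Or.inr ((hl y x).2 ⟨hy', hx', h, fun h' => hxy h'.symm⟩))
  · intro x hx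
    exact cut_end hE hQ hRl hx
  · obtain ⟨f, hf, hf'⟩ := exists_low_fun hE hQ
    obtain ⟨W, hW⟩ := exists_im hE hf Q
    refine ⟨W, ?_, cnt_im hE hf hcnt hW, ?_⟩
    · intro c hc
      obtain ⟨x, hx, hxc⟩ := (hW c).1 hc
      exact (hR c).2 (hlow x c hx ((hf' x c).1 hxc).2)
    · intro c c' h
      obtain ⟨h1, h2, h3, h4⟩ := (hl c c').1 h
      have h5 : ∃ x, E x c' ∧ ¬ E x c := by
        by_contra hcon
        push Not at hcon
        exact h4 (hsub c c' h3 hcon)
      obtain ⟨x, hx, hxc⟩ := h5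
      obtain ⟨y, hy, hxy⟩ := h2.2.2.2.2 x hx
      have hyQ : E y Q := (hq1 x y hxy).2
      obtain ⟨d, hd, hdc⟩ := exists_low hE hQ hyQ
      refine ⟨d, (hW d).2 ⟨y, hyQ, (hf' y d).2 ⟨hyQ, hd⟩⟩, (hl c d).2 ⟨h1, hdc, ?_, ?_⟩,
        (hl d c').2 ⟨hdc, h2, ?_, ?_⟩⟩
      · intro z hz
        refine (hd z).2 ?_
        rcases htot z x (h1.1 z hz) (h2.1 x hx) with h6 | h6 | h6
        · exact htr z x y h6 hxy
        · exact absurd (h6 ▸ hz) hxc
        · exact absurd (h1.2.2.2.1 x z h6 hz) hxc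
      · rintro rfl
        exact hxc ((hd x).2 hxy)
      · intro z hz
        exact h2.2.2.2.1 z y ((hd z).1 hz) hy
      · rintro rfl
        exact hirr y ((hd y).1 hy)
  · rintro A hA ⟨a0, ha0⟩ ⟨b, hb, hbA⟩
    obtain ⟨s, hs⟩ := hE.union A
    have hbd : ∀ b', E b' R → (∀ a, E a A → ¬ Val E l b' a) → ∀ a, E a A → Sub E a b' := by
      intro b' hb' h a ha
      have ha' := (hR a).1 (hA a ha)
      have hb'' := (hR b').1 hb'
      rcases cut_tot hE hQ ha' hb'' with h1 | h1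
      · exact h1
      · by_cases h2 : b' = a
        · rw [h2]
          exact fun z hz => hz
        · exact absurd ((hl b' a).2 ⟨hb'', ha', h1, h2⟩) (h a ha)
    have hin : ∀ a, E a A → Sub E a s := fun a ha z hz => (hs z).2 ⟨a, ha, hz⟩
    have hcut : IsCut E Q q s := by
      refine ⟨?_, ?_, ?_, ?_, ?_⟩
      · intro z hz
        obtain ⟨a, ha, hza⟩ := (hs z).1 hz
        exact ((hR a).1 (hA a ha)).1 z hza
      · obtain ⟨z, hz⟩ := ((hR a0).1 (hA a0 ha0)).2.1
        exact ⟨z, hin a0 ha0 z hz⟩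
      · obtain ⟨x, hx, hxb⟩ := ((hR b).1 hb).2.2.1
        refine ⟨x, hx, fun h => ?_⟩
        obtain ⟨a, ha, hxa⟩ := (hs x).1 h
        exact hxb (hbd b hb hbA a ha x hxa)
      · intro x y hxy hy
        obtain ⟨a, ha, hya⟩ := (hs y).1 hy
        exact hin a ha x (((hR a).1 (hA a ha)).2.2.2.1 x y hxy hya)
      · intro x hx
        obtain ⟨a, ha, hxa⟩ := (hs x).1 hx
        obtain ⟨y, hy, hxy⟩ := ((hR a).1 (hA a ha)).2.2.2.2 x hxa
        exact ⟨y, hin a ha y hy, hxy⟩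
    refine ⟨s, (hR s).2 hcut, ?_, ?_⟩
    · intro a ha h
      obtain ⟨-, -, h1, h2⟩ := (hl s a).1 h
      exact h2 (hsub s a h1 (hin a ha))
    · intro b' hb' h h'
      obtain ⟨-, -, h1, h2⟩ := (hl b' s).1 h'
      refine h2 (hsub b' s h1 fun z hz => ?_)
      obtain ⟨a, ha, hza⟩ := (hs z).1 hz
      exact hbd b' hb' h a ha z hza

end DLN
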