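import Pool.Agent.DLN.ADefs

/-! # Part A: zero-dimensional Hausdorff spaces are Tychonoff (package A04)

(problem MP_c2fbea_gt, project DLN, part A)

`IsRL` gives two different real numbers: `a` exists, and some `b` with `Val l a b` (no end points); `a ≠ b`
by irreflexivity. Let `x ∈ U ∈ τ`, and `V`, `W` from `IsZD` (`V` clopen, `x ∈ V ⊆ U`, `W` the complement of `V`; we may
assume `Sub W X` because `W ∈ τ`). Let `g` be the function with domain `X` and value `a` on `V`, `b` on `X ∖ V`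
(`exists_fun` with the definable relation
`ρ y t := (y ∈ V ∧ t = a) ∨ (¬ y ∈ V ∧ t = b)`). Continuity: for a real `r` the set
`{y | g y < r}` is one of: the empty set, `V`, `W`, `X`, according to whether `a < r` and `b < r`. The
empty set is in `τ`: it is the union of the empty subset of `τ` (`sep` with a false predicate gives an
empty set). The same for `{y | r < g y}`. Outside of `U` the value is `b`. -/

universe v

namespace DLN

open STP STP.Fml CPI

variable {N : Type v} {E : N → N → Prop}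

/-- the empty set is open -/
theorem emp_top (hE : ZFC E) {X τ : N} (hτ : IsTop E X τ) : ∃ e, E e τ ∧ ∀ z, ¬ E z e := by
  obtain ⟨S, hS⟩ := sep hE (ρ := fun _ => False) ⟨.bot, vv τ [], by intro x; simp⟩ τ
  refine ⟨S, hτ.2.2.1 S S (fun z hz => ((hS z).1 hz).2.elim) fun z => ⟨fun hz => ?_, ?_⟩,
    fun z hz => ((hS z).1 hz).2⟩
  · exact ((hS z).1 hz).2.elim
  · rintro ⟨y, hy, -⟩
    exact ((hS y).1 hy).2.elim

theorem tych_of_zd (hE : ZFC E) {R l X τ : N} (hτ : IsTop E X τ) (hhd : IsHd E X τ)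
    (hzd : IsZD E X τ) (hR : IsRL E R l) : IsTych E R l X τ := by
  refine ⟨hhd, fun x U hU hxU => ?_⟩
  obtain ⟨V, W, hV, hW, hxV, hVU, hVW⟩ := hzd U x hU hxU
  obtain ⟨⟨a, ha⟩, hlR, hirr, -, -, hne, -⟩ := hR
  obtain ⟨-, b, hab⟩ := hne a ha
  have hb : E b R := (hlR a b hab).2
  have hneq : a ≠ b := by
    rintro rfl
    exact hirr _ hab
  have hVX := hτ.1 V hV
  have hWX := hτ.1 W hW
  obtain ⟨g, hg, hgv⟩ := exists_fun hE
    (ρ := fun y t => (E y V ∧ t = a) ∨ (¬ E y V ∧ t = b))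
    ⟨or (an (.mem 0 2) (.eq 1 3)) (an (no (.mem 0 2)) (.eq 1 4)), vv V [V, a, b],
      by intro x y; simp⟩ X (by
      intro y _
      by_cases hy : E y V
      · exact ⟨a, Or.inl ⟨hy, rfl⟩, fun t ht => by
          rcases ht with ⟨-, ht⟩ | ⟨ht, -⟩
          · exact ht
          · exact absurd hy ht⟩
      · exact ⟨b, Or.inr ⟨hy, rfl⟩, fun t ht => by
          rcases ht with ⟨ht, -⟩ | ⟨-, ht⟩
          · exact absurd ht hy
          · exact ht⟩)
  have key : ∀ P : N → Prop, ∃ O, E O τ ∧ ∀ y, E y O ↔ ∃ t, Val E g y t ∧ P t := by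
    intro P
    by_cases hPa : P a
    · by_cases hPb : P b
      · refine ⟨X, hτ.2.1, fun y => ⟨fun hy => ?_, ?_⟩⟩
        · by_cases hyV : E y V
          · exact ⟨a, (hgv y a).2 ⟨hy, Or.inl ⟨hyV, rfl⟩⟩, hPa⟩
          · exact ⟨b, (hgv y b).2 ⟨hy, Or.inr ⟨hyV, rfl⟩⟩, hPb⟩
        · rintro ⟨t, ht, -⟩
          exact ((hgv y t).1 ht).1
      · refine ⟨V, hV, fun y => ⟨fun hy => ⟨a, (hgv y a).2 ⟨hVX y hy, Or.inl ⟨hy, rfl⟩⟩, hPa⟩,
          ?_⟩⟩
        rintro ⟨t, ht, hPt⟩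
        rcases ((hgv y t).1 ht).2 with ⟨h1, -⟩ | ⟨-, rfl⟩
        · exact h1
        · exact absurd hPt hPb
    · by_cases hPb : P b
      · refine ⟨W, hW, fun y => ⟨fun hy => ⟨b, (hgv y b).2 ⟨hWX y hy,
          Or.inr ⟨(hVW y (hWX y hy)).1 hy, rfl⟩⟩, hPb⟩, ?_⟩⟩
        rintro ⟨t, ht, hPt⟩
        obtain ⟨hyX, ⟨-, rfl⟩ | ⟨h1, -⟩⟩ := (hgv y t).1 ht
        · exact absurd hPt hPa
        · exact (hVW y hyX).2 h1
      · obtain ⟨e, he, he'⟩ := emp_top hE hτ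
        refine ⟨e, he, fun y => ⟨fun hy => (he' y hy).elim, ?_⟩⟩
        rintro ⟨t, ht, hPt⟩
        rcases ((hgv y t).1 ht).2 with ⟨-, rfl⟩ | ⟨-, rfl⟩
        · exact absurd hPt hPa
        · exact absurd hPt hPb
  refine ⟨g, a, b, ⟨hg, fun y t ht => ?_, fun r _ => ⟨key fun t => Val E l t r,
    key fun t => Val E l r t⟩⟩, hneq, (hgv x a).2 ⟨hVX x hxV, Or.inl ⟨hxV, rfl⟩⟩, fun y hy hyU =>
    (hgv y b).2 ⟨hy, Or.inr ⟨fun h => hyU (hVU y h), rfl⟩⟩⟩
  rcases ((hgv y t).1 ht).2 with ⟨-, rfl⟩ | ⟨-, rfl⟩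
  · exact ha
  · exact hb

end DLN
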