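import Pool.Agent.DLN.Nam

/-! # The bridge for the simple statements (package B01)

(problem MP_c2fbea_gt, project DLN, part B)

As `CPI/BSp.lean`. All elements of `pN A` have the truth value `⊤`: `F.bsn` for `sn fun _ => ⊤`.
* `br_sp`: first clause: `F.bsn`: the point `kn a`, the code `kn b` with `b` from `h.ex a`. Second clause, reordered
  as `∀ y ∈ Y, ∀ b ∈ B, ∀ b' ∈ B, ..`: `kn a`, `kn b`, `kn b'`, take `kn c` with `c` from `h.dir b b'`; the
  statements `Val h (kn a) (kn c)` are `ρ a c ∈ G.s` (`val_rn`), and `ρ a c = ρ a b ⊓ ρ a b'` by `RO.ext'`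
  and `RO.mem_inf`, so `inf_mem`.
* `br_hd`: reordered as `∀ x ∈ Y, ∀ y ∈ Y, x ≠ y → ..`: ground `a`, `a'`; if `a = a'` the premise is false;
  otherwise `F.loc` and the hypothesis.
* `br_clp`: reordered as `∀ y ∈ Y, ∀ b ∈ B, ¬ Val h y b → ..`; for ground `a`, `b` and a condition `q` which
  forces `¬ Val h (kn a) (kn b)` (`F.imp`, `F.no`, `F.valr`): no `r ≤ q` is in `ρ a b`. `F.loc`.
* `br_cl`: `Sub` by `sn_sub` or `F.bsn`; `∀ y ∈ Y, ¬ y ∈ H → ..`: ground `a`, `kn a ∈ HN H` iff `a ∈ H`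
  (`kn_sn_chi`), `F.loc` and the hypothesis; `∀ z ∈ HN H`: `F.bsn` with `RO.mem_chi`.

How to work with these statements (file `CPI/BTv.lean`, `CPI/BNam.lean`; see the proofs in `CPI/BSp.lean`,
`CPI/BNlin.lean`, `CPI/BNet.lean` for models): `F p S` means that `S G` is true in all quotients `NG G` with
`RO.up p ∈ G.s`. A statement `S G` for an arbitrary `G` is proved by `F.top fun p => ?_` (all statements
about names have a truth value: class `TV`, found by instance search; state the statement as a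
function of `G`). Quantifiers: `F.all`, `F.ex`, `F.bsn` (`∀ x ∈ sn φ`: it is enough to treat `x = kn a` below
conditions `q ∈ φ a`), `F.esn`, `F.bck`, `F.eck` (`∀/∃ x ∈ ω`, `om_eq`), `F.dest_sn`, `F.bsub`, `F.esub`,
connectives: `F.imp`, `F.and`, `F.no`, `F.or`, `F.loc` (densely), `F.mono`, `F.const`, `F.not_false`,
`F.of_not`. Atomic statements: `kn_eq`, `kn_sn`, `kn_sn_chi`, `val_rn`, `val_iff`, `chi_mem`; forced forms:
`F.sn`, `F.valr`, `F.kn_eq`, `F.mem`. To reorder the premises of a statement (so that all quantifiers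
become bounded) prove the reordered statement and apply it. If `rw` does not find a pattern, use
`beta_reduce` or `show`. From `q ∈ φ a` and `RO.up q ∈ G.s` one gets `φ a ∈ G.s` by
`G.up hG (RO.up_le.2 h)`; `q ∈ chi c ↔ c` is `RO.mem_chi`. -/

set_option autoImplicit false

namespace DLN

open STP STP.BSet CPI Cardinal

variable {P : Type} [PartialOrder P] {A C : Type} {ρ : A → C → RO P}

private theorem kn_pN (G : Ult (RO P)) (a : A) : EG G (NG.mk G (kn a)) (NG.mk G (pN A)) :=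
  (kn_sn G).2 G.top

theorem br_sp (h : TSp ρ) (G : Ult (RO P)) :
    CSp (EG G) (NG.mk G (pN A)) (NG.mk G (pN C)) (NG.mk G (rn ρ)) := by
  refine ⟨?_, ?_⟩
  · have h1 : ∀ G : Ult (RO P), ∀ y, EG G y (NG.mk G (pN A)) →
        ∃ b, EG G b (NG.mk G (pN C)) ∧ Val (EG G) (NG.mk G (rn ρ)) y b := by
      refine F.top fun p => F.bsn.2 fun a q _ _ G hG => ?_
      obtain ⟨b, hb⟩ := h.ex a
      have h2 : ρ a b = ⊤ := top_le_iff.1 (RO.le_def.2 fun q _ => hb q)
      refine ⟨NG.mk G (kn b), kn_pN G b, ?_⟩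
      rw [val_rn, h2]
      exact G.top
    exact h1 G
  · have h2 : ∀ b b' c : C, (∀ a, ρ a c = ρ a b ⊓ ρ a b') → ∀ G : Ult (RO P), ∀ z,
        EG G z (NG.mk G (pN A)) → (Val (EG G) (NG.mk G (rn ρ)) z (NG.mk G (kn c)) →
          Val (EG G) (NG.mk G (rn ρ)) z (NG.mk G (kn b)) ∧
          Val (EG G) (NG.mk G (rn ρ)) z (NG.mk G (kn b'))) := by
      intro b b' c hc
      refine F.top fun p => F.bsn.2 fun a q _ _ G _ => ?_
      beta_reduce
      rw [val_rn, val_rn, val_rn, hc, inf_mem]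
      exact id
    have h1 : ∀ G : Ult (RO P), ∀ y, EG G y (NG.mk G (pN A)) →
        ∀ b, EG G b (NG.mk G (pN C)) → ∀ b', EG G b' (NG.mk G (pN C)) →
          (Val (EG G) (NG.mk G (rn ρ)) y b → Val (EG G) (NG.mk G (rn ρ)) y b' →
            ∃ c, EG G c (NG.mk G (pN C)) ∧ Val (EG G) (NG.mk G (rn ρ)) y c ∧
              ∀ z, EG G z (NG.mk G (pN A)) → Val (EG G) (NG.mk G (rn ρ)) z c →
                Val (EG G) (NG.mk G (rn ρ)) z b ∧ Val (EG G) (NG.mk G (rn ρ)) z b') := by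
      refine F.top fun p => F.bsn.2 fun a q1 _ _ => F.bsn.2 fun b q2 _ _ =>
        F.bsn.2 fun b' q3 _ _ G _ => ?_
      obtain ⟨c, hc⟩ := h.dir b b'
      have hc' : ∀ a, ρ a c = ρ a b ⊓ ρ a b' := fun a => RO.ext' fun q =>
        (hc a q).trans RO.mem_inf.symm
      intro h4 h5
      rw [val_rn] at h4 h5
      refine ⟨NG.mk G (kn c), kn_pN G c, ?_, h2 b b' c hc' G⟩
      rw [val_rn, hc', inf_mem]
      exact ⟨h4, h5⟩
    exact fun y b b' hy hb hb' h4 h5 => h1 G y hy b hb b' hb' h4 h5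

theorem br_hd (h : THd ρ) (G : Ult (RO P)) :
    CHd (EG G) (NG.mk G (pN A)) (NG.mk G (pN C)) (NG.mk G (rn ρ)) := by
  have h1 : ∀ G : Ult (RO P), ∀ x, EG G x (NG.mk G (pN A)) →
      ∀ y, EG G y (NG.mk G (pN A)) → (¬ x = y →
        ∃ b c, EG G b (NG.mk G (pN C)) ∧ EG G c (NG.mk G (pN C)) ∧
          Val (EG G) (NG.mk G (rn ρ)) x b ∧ Val (EG G) (NG.mk G (rn ρ)) y c ∧
          ∀ z, EG G z (NG.mk G (pN A)) →
            ¬ (Val (EG G) (NG.mk G (rn ρ)) z b ∧ Val (EG G) (NG.mk G (rn ρ)) z c)) := by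
    refine F.top fun p => F.bsn.2 fun a q1 _ _ => F.bsn.2 fun a' q2 hq2 _ => ?_
    by_cases haa : a = a'
    · subst haa
      exact fun G _ h2 => absurd rfl h2
    · have h2 : F q2 fun G => ∃ b c, EG G b (NG.mk G (pN C)) ∧ EG G c (NG.mk G (pN C)) ∧
          Val (EG G) (NG.mk G (rn ρ)) (NG.mk G (kn a)) b ∧
          Val (EG G) (NG.mk G (rn ρ)) (NG.mk G (kn a')) c ∧
          ∀ z, EG G z (NG.mk G (pN A)) →
            ¬ (Val (EG G) (NG.mk G (rn ρ)) z b ∧ Val (EG G) (NG.mk G (rn ρ)) z c) := by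
        refine F.loc fun r hr => ?_
        obtain ⟨r', hr', b, b', hb, hb', hl⟩ := h r a a' haa
        have h3 : F r' fun G => ∀ z, EG G z (NG.mk G (pN A)) →
            ¬ (Val (EG G) (NG.mk G (rn ρ)) z (NG.mk G (kn b)) ∧
              Val (EG G) (NG.mk G (rn ρ)) z (NG.mk G (kn b'))) := by
          refine F.bsn.2 fun a2 s hs _ => F.no.2 fun t ht h4 => ?_
          have h5 := F.and.1 h4
          exact hl a2 t (ht.trans hs) ⟨F.valr.1 h5.1, F.valr.1 h5.2⟩
        exact ⟨r', hr', fun G hG => ⟨NG.mk G (kn b), NG.mk G (kn b'), kn_pN G b, kn_pN G b',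
          F.valr.2 hb G hG, F.valr.2 hb' G hG, h3 G hG⟩⟩
      exact fun G hG _ => h2 G hG
  exact fun x y hx hy hxy => h1 G x hx y hy hxy

theorem br_clp (h : TClp ρ) (G : Ult (RO P)) :
    CClp (EG G) (NG.mk G (pN A)) (NG.mk G (pN C)) (NG.mk G (rn ρ)) := by
  have h1 : ∀ G : Ult (RO P), ∀ y, EG G y (NG.mk G (pN A)) →
      ∀ b, EG G b (NG.mk G (pN C)) → (¬ Val (EG G) (NG.mk G (rn ρ)) y b →
        ∃ c, EG G c (NG.mk G (pN C)) ∧ Val (EG G) (NG.mk G (rn ρ)) y c ∧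
          ∀ z, EG G z (NG.mk G (pN A)) →
            ¬ (Val (EG G) (NG.mk G (rn ρ)) z c ∧ Val (EG G) (NG.mk G (rn ρ)) z b)) := by
    refine F.top fun p => F.bsn.2 fun a q1 _ _ => F.bsn.2 fun b q2 _ _ =>
      F.imp.2 fun q _ hn => F.loc fun r hr => ?_
    obtain ⟨r', hr', c, hc, hl⟩ := h r a b fun s hs hm =>
      F.no.1 hn s (hs.trans hr) (F.valr.2 hm)
    have h3 : F r' fun G => ∀ z, EG G z (NG.mk G (pN A)) →
        ¬ (Val (EG G) (NG.mk G (rn ρ)) z (NG.mk G (kn c)) ∧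
          Val (EG G) (NG.mk G (rn ρ)) z (NG.mk G (kn b))) := by
      refine F.bsn.2 fun a2 s hs _ => F.no.2 fun t ht h4 => ?_
      have h5 := F.and.1 h4
      exact hl a2 t (ht.trans hs) ⟨F.valr.1 h5.1, F.valr.1 h5.2⟩
    exact ⟨r', hr', fun G hG => ⟨NG.mk G (kn c), kn_pN G c, F.valr.2 hc G hG, h3 G hG⟩⟩
  exact fun y b hy hb hyb => h1 G y hy b hb hyb

theorem br_cl {H : Set A} (h : TCl ρ H) (G : Ult (RO P)) :
    CCl (EG G) (NG.mk G (pN A)) (NG.mk G (pN C)) (NG.mk G (rn ρ)) (NG.mk G (HN H)) := by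
  refine ⟨sn_sub (fun _ => le_top) G, ?_⟩
  have h1 : ∀ G : Ult (RO P), ∀ y, EG G y (NG.mk G (pN A)) →
      (¬ EG G y (NG.mk G (HN H)) →
        ∃ b, EG G b (NG.mk G (pN C)) ∧ Val (EG G) (NG.mk G (rn ρ)) y b ∧
          ∀ z, EG G z (NG.mk G (HN H)) → ¬ Val (EG G) (NG.mk G (rn ρ)) z b) := by
    refine F.top fun p => F.bsn.2 fun a q1 _ _ => ?_
    by_cases ha : a ∈ H
    · exact fun G _ h2 => absurd ((kn_sn_chi G).2 ha) h2
    · refine F.imp.2 fun q _ _ => F.loc fun r hr => ?_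
      obtain ⟨r', hr', b, hb, hl⟩ := h r a ha
      have h3 : F r' fun G => ∀ z, EG G z (NG.mk G (HN H)) →
          ¬ Val (EG G) (NG.mk G (rn ρ)) z (NG.mk G (kn b)) := by
        refine F.bsn.2 fun a2 s hs ha2 => F.no.2 fun t ht h4 => ?_
        exact hl a2 (RO.mem_chi.1 ha2) t (ht.trans hs) (F.valr.1 h4)
      exact ⟨r', hr', fun G hG => ⟨NG.mk G (kn b), kn_pN G b, F.valr.2 hb G hG, h3 G hG⟩⟩
  exact fun y hy hyH => h1 G y hy hyH

end DLN
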