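import Pool.Agent.DLN.BLin
import Pool.Agent.DLN.BSp

/-! # The bridge for discrete sets (package B04)

(problem MP_c2fbea_gt, project DLN, part B)

`F.top`, `F.all`: let `Z` be a name, `F.imp`: let `q` force `CDisc .. Z`. The typed relation
`Zt a a' := BSet.mem (opN (kn a) (kn a')) Z` is the truth value of `Val Z (kn a) (kn a')`.
* `TDisc ρ q Zt`: let `r ≤ q`, `r ∈ Zt a a'`. `r` forces the conclusion of `CDisc` for `x = kn a`,
  `y = kn a'`: `a ≠ a'` (`F.kn_eq`, `F.const`), and names `b`, `c` of elements of `pN C` (`F.ex`), which are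
  densely some `kn b0`, `kn c0` (`F.dest_sn` twice): `r'`. `r' ∈ ρ a b0`, `r' ∈ ρ a' c0` (`F.valr`). If
  `r'' ≤ r'`, `r'' ∈ Zt c c'`, `r'' ∈ ρ c b0`, `r'' ∈ ρ c' c0` then `r''` forces `kn c = kn a`,
  `kn c' = kn a'`, so `c = a`, `c' = a'`.
* `h` gives `H : Set A`. Take the name `HN H`: `br_cl`, `br_lin2` (true in all quotients). The last clause:
  `Val Z x y` is forced by `r ≤ q` for names `x`, `y`; by `CDisc` `x, y ∈ pN A`; `F.loc`, `F.dest_sn`: densely
  `x = kn a`, `y = kn a'`, so `r' ∈ Zt a a'`, and `a ∈ H`, `a' ∈ H`.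

How to work with these statements (file `CPI/BTv.lean`, `CPI/BNam.lean`; see the proofs in `CPI/BSp.lean`,
`CPI/BNlin.lean`, `CPI/BNet.lean` for models): `F p S` means that `S G` is true in all quotients `NG G` with
`RO.up p ∈ G.s`. A statement `S G` for an arbitrary `G` is proved by `F.top fun p => ?_` (all statements
about names have a truth value: class `TV`, found by instance search; state the statement as a
function of `G`). Quantifiers: `F.all`, `F.ex`, `F.bsn` (`∀ x ∈ sn φ`: it is enough to treat `x = kn a` below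
conditions `q ∈ φ a`), `F.esn`, `F.bck`, `F.eck` (`∀/∃ x ∈ ω`, `om_eq`), `F.dest_sn`, `F.bsub`, `F.esub`,
connectives: `F.imp`, `F.and`, `F.no`, `F.or`, `F.loc` (densely), `F.mono`, `F.const`, `F.not_false`,
`F.of_not`. Atomic statements: `kn_eq`, `kn_sn`, `kn_sn_chi`, `val_rn`, `val_iff`, `chi_mem`; forced forms:
`F.sn`, `F.valr`, `F.kn_eq`, `F.mem`. To reorder the premises of a statement (so that all quantifiers
become bounded) prove the reordered statement and apply it. If `rw` does not find a pattern, use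
`beta_reduce` or `show`. From `q ∈ φ a` and `RO.up q ∈ G.s` one gets `φ a ∈ G.s` by
`G.up hG (RO.up_le.2 h)`; `q ∈ chi c ↔ c` is `RO.mem_chi`. -/

set_option autoImplicit false

namespace DLN

open STP STP.BSet CPI Cardinal

variable {P : Type} [PartialOrder P] {A C : Type} {ρ : A → C → RO P}

private theorem mem_zt {Z : BSet (RO P)} {r : P} {a a' : A} :
    r ∈ BSet.mem (opN (kn a) (kn a')) Z ↔
      F r fun G => Val (EG G) (NG.mk G Z) (NG.mk G (kn a)) (NG.mk G (kn a')) := by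
  simp only [val_iff]
  exact F.mem.symm

private theorem tdisc_of {Z : BSet (RO P)} {q : P}
    (hD : F q fun G => CDisc (EG G) (NG.mk G (pN A)) (NG.mk G (pN C)) (NG.mk G (rn ρ))
      (NG.mk G Z)) :
    TDisc ρ q fun a a' => BSet.mem (opN (kn a) (kn a')) Z := by
  intro r hr a a' hra
  have h1 := mem_zt.1 hra
  have h2 : F r fun G => EG G (NG.mk G (kn a)) (NG.mk G (pN A)) ∧
      EG G (NG.mk G (kn a')) (NG.mk G (pN A)) ∧ NG.mk G (kn a) ≠ NG.mk G (kn a') ∧
      ∃ b c, EG G b (NG.mk G (pN C)) ∧ EG G c (NG.mk G (pN C)) ∧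
        Val (EG G) (NG.mk G (rn ρ)) (NG.mk G (kn a)) b ∧
        Val (EG G) (NG.mk G (rn ρ)) (NG.mk G (kn a')) c ∧
        ∀ x' y', Val (EG G) (NG.mk G Z) x' y' → Val (EG G) (NG.mk G (rn ρ)) x' b →
          Val (EG G) (NG.mk G (rn ρ)) y' c → x' = NG.mk G (kn a) ∧ y' = NG.mk G (kn a') :=
    fun G hG => hD G (up_mem hr hG) _ _ (h1 G hG)
  refine ⟨?_, ?_⟩
  · rintro rfl
    exact F.not_false (p := r) fun G hG => (h2 G hG).2.2.1 rfl
  have h3 : F r fun G => ∃ b c, EG G b (NG.mk G (pN C)) ∧ EG G c (NG.mk G (pN C)) ∧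
        Val (EG G) (NG.mk G (rn ρ)) (NG.mk G (kn a)) b ∧
        Val (EG G) (NG.mk G (rn ρ)) (NG.mk G (kn a')) c ∧
        ∀ x' y', Val (EG G) (NG.mk G Z) x' y' → Val (EG G) (NG.mk G (rn ρ)) x' b →
          Val (EG G) (NG.mk G (rn ρ)) y' c → x' = NG.mk G (kn a) ∧ y' = NG.mk G (kn a') :=
    fun G hG => (h2 G hG).2.2.2
  obtain ⟨b, hb⟩ := F.ex.1 h3
  obtain ⟨c, hc⟩ := F.ex.1 hb
  have h4 : F r fun G => EG G (NG.mk G b) (NG.mk G (pN C)) := fun G hG => (hc G hG).1
  have h5 : F r fun G => EG G (NG.mk G c) (NG.mk G (pN C)) := fun G hG => (hc G hG).2.1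
  obtain ⟨r1, hr1, b0, -, hb0⟩ := F.dest_sn h4 r le_rfl
  obtain ⟨r2, hr2, c0, -, hc0⟩ := F.dest_sn h5 r1 hr1
  have hr2r : r2 ≤ r := hr2.trans hr1
  refine ⟨r2, hr2r, b0, c0, ?_, ?_, ?_⟩
  · refine F.valr.1 fun G hG => ?_
    have h6 : NG.mk G b = NG.mk G (kn b0) := hb0 G (up_mem hr2 hG)
    have h7 := (hc G (up_mem hr2r hG)).2.2.1
    rwa [h6] at h7
  · refine F.valr.1 fun G hG => ?_
    have h6 : NG.mk G c = NG.mk G (kn c0) := hc0 G hG
    have h7 := (hc G (up_mem hr2r hG)).2.2.2.1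
    rwa [h6] at h7
  · intro d d' r3 hr3 hZ hd hd'
    have h8 : F r3 fun G => NG.mk G (kn d) = NG.mk G (kn a) ∧
        NG.mk G (kn d') = NG.mk G (kn a') := by
      intro G hG
      have h6 : NG.mk G b = NG.mk G (kn b0) := hb0 G (up_mem (hr3.trans hr2) hG)
      have h7 : NG.mk G c = NG.mk G (kn c0) := hc0 G (up_mem hr3 hG)
      have h9 := (hc G (up_mem (hr3.trans hr2r) hG)).2.2.2.2
      refine h9 _ _ (mem_zt.1 hZ G hG) ?_ ?_
      · rw [h6]
        exact F.valr.2 hd G hG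
      · rw [h7]
        exact F.valr.2 hd' G hG
    exact ⟨F.kn_eq.1 (F.and.1 h8).1, F.kn_eq.1 (F.and.1 h8).2⟩

theorem br_dl (hE : Enum P) (h : TDL ρ) (G : Ult (RO P)) :
    CDL (EG G) (NG.mk G (pN A)) (NG.mk G (pN C)) (NG.mk G (rn ρ)) := by
  have key : ∀ G : Ult (RO P), ∀ Z, (CDisc (EG G) (NG.mk G (pN A)) (NG.mk G (pN C))
      (NG.mk G (rn ρ)) Z → ∃ H, CCl (EG G) (NG.mk G (pN A)) (NG.mk G (pN C)) (NG.mk G (rn ρ)) H ∧
        CLin2 (EG G) (NG.mk G (pN C)) (NG.mk G (rn ρ)) H ∧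
        ∀ x y, Val (EG G) Z x y → EG G x H ∧ EG G y H) := by
    refine F.top fun p => F.all.2 fun Z => F.imp.2 fun q _ hD => ?_
    have hT := tdisc_of hD
    obtain ⟨H, hH1, hH2, hH3⟩ := h q _ hT
    have hlast : F q fun G => ∀ x y, (Val (EG G) (NG.mk G Z) x y →
        EG G x (NG.mk G (HN H)) ∧ EG G y (NG.mk G (HN H))) := by
      refine F.all.2 fun X => F.all.2 fun Y => F.imp.2 fun r hr hXY => ?_
      have h1 : F r fun G => EG G (NG.mk G X) (NG.mk G (pN A)) := fun G hG =>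
        (hD G (up_mem hr hG) _ _ (hXY G hG)).1
      have h2 : F r fun G => EG G (NG.mk G Y) (NG.mk G (pN A)) := fun G hG =>
        (hD G (up_mem hr hG) _ _ (hXY G hG)).2.1
      refine F.loc fun r1 hr1 => ?_
      obtain ⟨r2, hr2, a, -, ha⟩ := F.dest_sn h1 r1 hr1
      obtain ⟨r3, hr3, a', -, ha'⟩ := F.dest_sn h2 r2 (hr2.trans hr1)
      refine ⟨r3, hr3.trans hr2, fun G hG => ?_⟩
      have h3 : NG.mk G X = NG.mk G (kn a) := ha G (up_mem hr3 hG)
      have h4 : NG.mk G Y = NG.mk G (kn a') := ha' G hG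
      have h5 : r3 ∈ BSet.mem (opN (kn a) (kn a')) Z := by
        refine mem_zt.2 fun G' hG' => ?_
        have h6 : NG.mk G' X = NG.mk G' (kn a) := ha G' (up_mem hr3 hG')
        have h7 : NG.mk G' Y = NG.mk G' (kn a') := ha' G' hG'
        have h8 : Val (EG G') (NG.mk G' Z) (NG.mk G' X) (NG.mk G' Y) :=
          hXY G' (up_mem ((hr3.trans hr2).trans hr1) hG')
        rwa [h6, h7] at h8
      obtain ⟨h9, h10⟩ := hH3 r3 (((hr3.trans hr2).trans hr1).trans hr) a a' h5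
      beta_reduce
      rw [h3, h4]
      exact ⟨(kn_sn_chi G).2 h9, (kn_sn_chi G).2 h10⟩
    exact fun G hG => ⟨NG.mk G (HN H), br_cl hH1 G, br_lin2 hE hH2 G, hlast G hG⟩
  exact fun Z hZ => key G Z hZ

end DLN
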