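import Pool.Agent.DLN.Typed

/-! # The poset and the space

(problem MP_c2fbea_gt, project DLN; no sorry in this file)

* `kap l`: the regular cardinals `κ_l` (successors of `2^ω`), `K l` a well-ordered set of type `κ_l`.
* `Gf = ∏ (κ_l + 1)`, `Df = ∏ κ_l`, `lst g h`: `g l ≤ h l` for almost all `l`; `InZ g`: `g l < κ_l` for almost
  all `l`.
* Rows `(g, i, j)`, plus columns `(h, n)`, low columns `(l, β, n)` (`Co` is the set of pairs `(l, β)`). The cell
  of the row `(g, i, j)` and the plus column `c` is `((g, i), c)`.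
* `free g c`: the column `c` is free for `g`.
* `Cn`: conditions: finite partial functions `r : ω → 2^ω` and `c : Cell → 2` (as sets of pairs).
* `Pt`: the points (rows `(g, i, j)` with `g ∈ Z`). `Cod`: codes of basic sets, lists of literals: `(u, true)` means
  `g l ≤ β`, `(u, false)` means `¬ g l ≤ β` (`u = (l, β)`), `(c, v)` means: the value at the column `c` is `v`.
* `Kn p a b`: the condition `p` decides that the row `a` is in the basic set `b`. -/

namespace DLN

open Cardinal STP

/-- the cardinals `κ_l` -/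
noncomputable def kap : ℕ → Cardinal.{0}
  | 0 => Order.succ #Th
  | l + 1 => Order.succ (kap l)

/-- a well-ordered set of type `κ_l` -/
abbrev K (l : ℕ) : Type := (kap l).ord.ToType

/-- pairs `(l, β)` with `β < κ_l` -/
abbrev Co : Type := Σ l, K l

/-- the product of the `κ_l + 1` -/
abbrev Gf : Type := (l : ℕ) → WithTop (K l)

/-- the product of the `κ_l` -/
abbrev Df : Type := (l : ℕ) → K l

/-- the inclusion of `Df` in `Gf` -/
def up (h : Df) : Gf := fun l => (h l : WithTop (K l))

/-- `g ≤* h` -/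
def lst (g : Gf) (h : Df) : Prop := ∃ m, ∀ l, m ≤ l → g l ≤ (h l : WithTop (K l))

/-- `g l < κ_l` for almost all `l` -/
def InZ (g : Gf) : Prop := ∃ m, ∀ l, m ≤ l → g l ≠ ⊤

/-- rows `(g, i, j)` -/
abbrev Row : Type := Gf × ℕ × ℕ

/-- plus columns `(h, n)` -/
abbrev PC : Type := Df × ℕ

/-- low columns `(l, β, n)` -/
abbrev LC : Type := Co × ℕ

/-- columns -/
abbrev Col : Type := PC ⊕ LC

/-- cells -/
abbrev Cell : Type := ((Gf × ℕ) × PC) ⊕ (Row × LC)

/-- the cell of a row and a column -/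
def cell (a : Row) : Col → Cell
  | .inl c => .inl ((a.1, a.2.1), c)
  | .inr c => .inr (a, c)

/-- the column `c` is free for `g` -/
def free (g : Gf) : Col → Prop
  | .inl c => ¬ lst g c.1
  | .inr c => g c.1.1 ≤ (c.1.2 : WithTop (K c.1.1))

/-- literals -/
abbrev Lit : Type := (Co × Bool) ⊕ (Col × Bool)

/-- codes of basic sets -/
abbrev Cod : Type := List Lit

/-- conditions -/
@[ext]
structure Cn : Type where
  r : Set (ℕ × Th)
  c : Set (Cell × Bool)
  fr : r.Finite
  fc : c.Finite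
  ur : ∀ n v v', (n, v) ∈ r → (n, v') ∈ r → v = v'
  uc : ∀ x v v', (x, v) ∈ c → (x, v') ∈ c → v = v'

instance : PartialOrder Cn where
  le q p := p.r ⊆ q.r ∧ p.c ⊆ q.c
  le_refl _ := ⟨subset_rfl, subset_rfl⟩
  le_trans _ _ _ h h' := ⟨h'.1.trans h.1, h'.2.trans h.2⟩
  le_antisymm _ _ h h' := Cn.ext (h'.1.antisymm h.1) (h'.2.antisymm h.2)

theorem le_def {q p : Cn} : q ≤ p ↔ p.r ⊆ q.r ∧ p.c ⊆ q.c := Iff.rfl

/-- points: rows `(g, i, j)` with `g ∈ Z` -/
abbrev Pt : Type := {a : Row // InZ a.1}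

/-- `p` decides that the literal `z` is true for the row `a` -/
def Kl (p : Cn) (a : Row) : Lit → Prop
  | .inl (u, true) => a.1 u.1 ≤ (u.2 : WithTop (K u.1))
  | .inl (u, false) => ¬ a.1 u.1 ≤ (u.2 : WithTop (K u.1))
  | .inr (c, v) => (free a.1 c → (cell a c, v) ∈ p.c) ∧ (¬ free a.1 c → v = false)

/-- `p` decides that the row `a` is in the basic set `b` -/
def Kn (p : Cn) (a : Row) (b : Cod) : Prop := ∀ z ∈ b, Kl p a z

theorem Kl.mono {p q : Cn} (hq : q ≤ p) {a : Row} {z : Lit} (h : Kl p a z) : Kl q a z := by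
  match z with
  | .inl (u, true) => exact h
  | .inl (u, false) => exact h
  | .inr (c, v) => exact ⟨fun h' => hq.2 (h.1 h'), h.2⟩

theorem Kn.mono {p q : Cn} (hq : q ≤ p) {a : Row} {b : Cod} (h : Kn p a b) : Kn q a b :=
  fun z hz => (h z hz).mono hq

theorem Kn.append {p : Cn} {a : Row} {b b' : Cod} : Kn p a (b ++ b') ↔ Kn p a b ∧ Kn p a b' := by
  unfold Kn
  simp only [List.mem_append]
  exact ⟨fun h => ⟨fun z hz => h z (Or.inl hz), fun z hz => h z (Or.inr hz)⟩,
    fun h z hz => hz.elim (h.1 z) (h.2 z)⟩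

/-- adding one entry to a condition -/
theorem exists_add (p : Cn) (x : Cell) (v : Bool) (h : (x, !v) ∉ p.c) :
    ∃ q ≤ p, (x, v) ∈ q.c ∧ q.r = p.r ∧ ∀ y w, (y, w) ∈ q.c → (y, w) ∈ p.c ∨ (y = x ∧ w = v) := by
  refine ⟨⟨p.r, insert (x, v) p.c, p.fr, p.fc.insert _, p.ur, ?_⟩,
    ⟨subset_rfl, Set.subset_insert _ _⟩, Set.mem_insert _ _, rfl, ?_⟩
  · intro y w w' h1 h2
    rcases h1 with h1 | h1 <;> rcases h2 with h2 | h2
    · rw [Prod.mk.injEq] at h1 h2
      rw [h1.2, h2.2]
    · rw [Prod.mk.injEq] at h1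
      obtain ⟨rfl, rfl⟩ := h1
      by_contra hne
      have : w' = !w := by
        cases w <;> cases w' <;> simp_all
      exact h (this ▸ h2)
    · rw [Prod.mk.injEq] at h2
      obtain ⟨rfl, rfl⟩ := h2
      by_contra hne
      have : w = !w' := by
        cases w <;> cases w' <;> simp_all
      exact h (this ▸ h1)
    · exact p.uc y w w' h1 h2
  · intro y w h1
    rcases h1 with h1 | h1
    · rw [Prod.mk.injEq] at h1
      exact Or.inr h1
    · exact Or.inl h1

/-- the truth value of: the point `a` is in the basic set `b` -/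
def rho (a : Pt) (b : Cod) : RO Cn where
  carrier := {p | Kn p a.1 b}
  reg p := by
    constructor
    · intro h q hq
      exact ⟨q, le_rfl, Kn.mono hq h⟩
    · intro h z hz
      match z, hz with
      | .inl (u, true), hz =>
        obtain ⟨r, hr, h1⟩ := h p le_rfl
        exact h1 _ hz
      | .inl (u, false), hz =>
        obtain ⟨r, hr, h1⟩ := h p le_rfl
        exact h1 _ hz
      | .inr (c, v), hz =>
        refine ⟨fun hf => ?_, fun hf => ?_⟩
        · by_contra hn
          have : ∃ q ≤ p, (cell a.1 c, !v) ∈ q.c := by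
            by_cases h2 : (cell a.1 c, !v) ∈ p.c
            · exact ⟨p, le_rfl, h2⟩
            · obtain ⟨q, hq, h3, -⟩ := exists_add p (cell a.1 c) (!v) (by simpa using hn)
              exact ⟨q, hq, h3⟩
          obtain ⟨q, hq, h2⟩ := this
          obtain ⟨r, hr, h1⟩ := h q hq
          have h3 : (cell a.1 c, v) ∈ r.c := (h1 _ hz).1 hf
          have h4 := r.uc _ _ _ h3 (hr.2 h2)
          cases v <;> simp at h4
        · obtain ⟨r, hr, h1⟩ := h p le_rfl
          exact (h1 _ hz).2 hf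

theorem mem_rho {p : Cn} {a : Pt} {b : Cod} : p ∈ rho a b ↔ Kn p a.1 b := Iff.rfl

/-- the empty condition -/
def one : Cn := ⟨∅, ∅, Set.finite_empty, Set.finite_empty, by simp, by simp⟩

/-- the truth value of: the value of the collapsing function at `n` is `v` -/
def rr (n : ℕ) (v : Th) : RO Cn where
  carrier := {p | (n, v) ∈ p.r}
  reg p := by
    constructor
    · intro h q hq
      exact ⟨q, le_rfl, hq.1 h⟩
    · intro h
      by_contra hn
      have : ∃ q ≤ p, ∃ w, w ≠ v ∧ (n, w) ∈ q.r := by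
        by_cases h2 : ∃ w, (n, w) ∈ p.r
        · obtain ⟨w, hw⟩ := h2
          exact ⟨p, le_rfl, w, fun h3 => hn (h3 ▸ hw), hw⟩
        · refine ⟨⟨insert (n, vᶜ) p.r, p.c, p.fr.insert _, p.fc, ?_, p.uc⟩,
            ⟨Set.subset_insert _ _, subset_rfl⟩, vᶜ, ?_, Set.mem_insert _ _⟩
          · intro m w w' h3 h4
            rcases h3 with h3 | h3 <;> rcases h4 with h4 | h4
            · rw [Prod.mk.injEq] at h3 h4
              rw [h3.2, h4.2]
            · rw [Prod.mk.injEq] at h3
              exact absurd ⟨w', h3.1 ▸ h4⟩ h2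
            · rw [Prod.mk.injEq] at h4
              exact absurd ⟨w, h4.1 ▸ h3⟩ h2
            · exact p.ur m w w' h3 h4
          · intro h3
            have h4 : (0 : ℕ) ∈ vᶜ ↔ (0 : ℕ) ∈ v := by rw [h3]
            rw [Set.mem_compl_iff] at h4
            tauto
      obtain ⟨q, hq, w, hw, h2⟩ := this
      obtain ⟨r, hr, h1⟩ := h q hq
      exact hw (r.ur _ _ _ (hr.1 h2) h1)

theorem mem_rr {p : Cn} {n : ℕ} {v : Th} : p ∈ rr n v ↔ (n, v) ∈ p.r := Iff.rfl

end DLN
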