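import Pool.Agent.DLN.Nam
import Pool.Agent.DLN.Pos

/-! # The collapse: ground model families of size `2^ω` are countable (package B02)

(problem MP_c2fbea_gt, project DLN, part B)

`Enum P`: for every family `w` of names indexed by `Th` the set of the `w v` is countable in all
quotients. `enum_Cn`: the name
`f := BSet.mk (ℕ × Th) (fun z => opN (nn z.1) (w z.2)) fun z => rr z.1 z.2` is a function with domain
`oN` (the set of natural numbers; `IsOm` of it is `ck_om G`) which takes all `w v` as values.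
`BSet.mem x f = ⨆ z, rr z.1 z.2 ⊓ eq x (opN (nn z.1) (w z.2))` (definition). Prove an elimination rule as
`F.elim_rn` in `CPI/BNam.lean`: if `p` forces `x ∈ f` then below `p` densely there are `n`, `v` with
`r ∈ rr n v` and `r` forces `x = opN (nn n) (w v)` (`RO.mem_iSup`, `RO.mem_inf`, `F.eq`).
* first clause of `IsFun`: elimination, `opN_op`, `nn_mem`. Third clause: two pairs
  `opN (nn n) (w v)`, `opN (nn n') (w v')` with the same first component (`eq_opN` or `IsOP.inj`): `n = n'`,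
  and `r ∈ rr n v`, `r ∈ rr n v'` give `v = v'` (`mem_rr`, `r.ur`).
* second clause: `F.bck`: for every `n` and every condition `q` there is `r ≤ q` and `v` with `(n, v) ∈ r.r`
  (if no `(n, v)` is in `q.r`, add `(n, ∅)`); then `r` forces `opN (nn n) (w v) ∈ f` (`vl_le_mem`, `F.mem`).
* every element of `BSet.mk Th w fun _ => ⊤` is densely equal to some `w v` (`RO.mem_iSup`); below every
  condition `q` there is `r ≤ q` with `(n, v) ∈ r.r` for some `n` which does not occur in `q.r` (finite), so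
  `r` forces `Val f (nn n) (w v)`.

How to work with these statements (file `CPI/BTv.lean`, `CPI/BNam.lean`; see the proofs in `CPI/BSp.lean`,
`CPI/BNlin.lean`, `CPI/BNet.lean` for models): `F p S` means that `S G` is true in all quotients `NG G` with
`RO.up p ∈ G.s`. A statement `S G` for an arbitrary `G` is proved by `F.top fun p => ?_` (all statements
about names have a truth value: class `TV`, found by instance search; state the statement as a
function of `G`). Quantifiers: `F.all`, `F.ex`, `F.bsn` (`∀ x ∈ sn φ`: it is enough to treat `x = kn a` below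
conditions `q ∈ φ a`), `F.esn`, `F.bck`, `F.eck` (`∀/∃ x ∈ ω`, `om_eq`), `F.dest_sn`, `F.bsub`, `F.esub`,
connectives: `F.imp`, `F.and`, `F.no`, `F.or`, `F.loc` (densely), `F.mono`, `F.const`, `F.not_false`,
`F.of_not`. Atomic statements: `kn_eq`, `kn_sn`, `kn_sn_chi`, `val_rn`, `val_iff`, `chi_mem`; forced forms:
`F.sn`, `F.valr`, `F.kn_eq`, `F.mem`. To reorder the premises of a statement (so that all quantifiers
become bounded) prove the reordered statement and apply it. If `rw` does not find a pattern, use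
`beta_reduce` or `show`. From `q ∈ φ a` and `RO.up q ∈ G.s` one gets `φ a ∈ G.s` by
`G.up hG (RO.up_le.2 h)`; `q ∈ chi c ↔ c` is `RO.mem_chi`. -/

set_option autoImplicit false

namespace DLN

open STP STP.BSet CPI Cardinal

variable {P : Type} [PartialOrder P] {A C : Type} {ρ : A → C → RO P}

/-- ground model families indexed by `Th` are countable -/
def Enum (P : Type) [PartialOrder P] : Prop :=
  ∀ (w : Th → BSet (RO P)) (G : Ult (RO P)),
    IsCnt (EG G) (NG.mk G (BSet.mk Th w fun _ => (⊤ : RO P)))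

/-- the name of the enumeration of the values of `w` -/
private noncomputable def fN (w : Th → BSet (RO Cn)) : BSet (RO Cn) :=
  BSet.mk (ℕ × Th) (fun z => opN (CPI.nn z.1) (w z.2)) fun z => rr z.1 z.2

private theorem mem_fN (x : BSet (RO Cn)) (w : Th → BSet (RO Cn)) :
    mem x (fN w) = ⨆ z : ℕ × Th, rr z.1 z.2 ⊓ eq x (opN (CPI.nn z.1) (w z.2)) := rfl

private theorem elim_fN {w : Th → BSet (RO Cn)} {q : Cn} {X : BSet (RO Cn)}
    (h : F q fun G => EG G (NG.mk G X) (NG.mk G (fN w))) :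
    ∀ q' ≤ q, ∃ r ≤ q', ∃ n v, r ∈ rr n v ∧
      F r fun G => NG.mk G X = NG.mk G (opN (CPI.nn n) (w v)) := by
  rw [F.mem, mem_fN, RO.mem_iSup] at h
  intro q' hq'
  obtain ⟨r, hr, z, h1, h2⟩ := h q' hq'
  exact ⟨r, hr, z.1, z.2, h1, F.eq.2 h2⟩

private theorem elim_val {w : Th → BSet (RO Cn)} {q : Cn} {X Y : BSet (RO Cn)}
    (h : F q fun G => Val (EG G) (NG.mk G (fN w)) (NG.mk G X) (NG.mk G Y)) :
    ∀ q' ≤ q, ∃ r ≤ q', ∃ n v, r ∈ rr n v ∧ (F r fun G => NG.mk G X = NG.mk G (CPI.nn n)) ∧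
      F r fun G => NG.mk G Y = NG.mk G (w v) := by
  simp only [CPI.val_iff] at h
  intro q' hq'
  obtain ⟨r, hr, n, v, h1, h2⟩ := elim_fN h q' hq'
  exact ⟨r, hr, n, v, h1, fun G hG => (CPI.eq_opN (h2 G hG)).1,
    fun G hG => (CPI.eq_opN (h2 G hG)).2⟩

private theorem val_fN (w : Th → BSet (RO Cn)) {r : Cn} {n : ℕ} {v : Th} (h : r ∈ rr n v) :
    F r fun G => Val (EG G) (NG.mk G (fN w)) (NG.mk G (CPI.nn n)) (NG.mk G (w v)) := by
  simp only [CPI.val_iff]
  exact F.mem.2 (RO.le_def.1 (vl_le_mem (fN w) (n, v)) r h)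

private theorem addr (q : Cn) (n : ℕ) (v : Th) (h : ∀ w, (n, w) ∉ q.r) :
    ∃ r ≤ q, (n, v) ∈ r.r := by
  refine ⟨⟨insert (n, v) q.r, q.c, q.fr.insert _, q.fc, ?_, q.uc⟩,
    ⟨Set.subset_insert _ _, subset_rfl⟩, Set.mem_insert _ _⟩
  intro m w w' h3 h4
  rcases h3 with h3 | h3 <;> rcases h4 with h4 | h4
  · rw [Prod.mk.injEq] at h3 h4
    rw [h3.2, h4.2]
  · rw [Prod.mk.injEq] at h3
    exact absurd (h3.1 ▸ h4) (h w')
  · rw [Prod.mk.injEq] at h4
    exact absurd (h4.1 ▸ h3) (h w)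
  · exact q.ur m w w' h3 h4

private theorem dom_all (q : Cn) (n : ℕ) : ∃ r ≤ q, ∃ v, (n, v) ∈ r.r := by
  by_cases h : ∃ w, (n, w) ∈ q.r
  · obtain ⟨w, hw⟩ := h
    exact ⟨q, le_rfl, w, hw⟩
  · push Not at h
    obtain ⟨r, hr, h1⟩ := addr q n ∅ h
    exact ⟨r, hr, _, h1⟩

private theorem ran_all (q : Cn) (v : Th) : ∃ r ≤ q, ∃ n, (n, v) ∈ r.r := by
  obtain ⟨n, hn⟩ := (q.fr.image Prod.fst).exists_notMem
  obtain ⟨r, hr, h1⟩ := addr q n v fun w hw => hn ⟨(n, w), hw, rfl⟩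
  exact ⟨r, hr, _, h1⟩

theorem enum_Cn : Enum Cn := by
  intro w G
  have s1 : ∀ G : Ult (RO Cn), ∀ z, EG G z (NG.mk G (fN w)) →
      ∃ x y, EG G x (NG.mk G CPI.oN) ∧ IsOP (EG G) z x y := by
    refine F.top fun p => F.all.2 fun X => F.imp.2 fun q _ hX => F.loc fun q' hq' => ?_
    obtain ⟨r, hr, n, v, -, h2⟩ := elim_fN hX q' hq'
    refine ⟨r, hr, fun G hG => ⟨NG.mk G (CPI.nn n), NG.mk G (w v), nn_mem G n, ?_⟩⟩
    have h3 : NG.mk G X = NG.mk G (opN (CPI.nn n) (w v)) := h2 G hG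
    rw [h3]
    exact opN_op G _ _
  have s2 : ∀ G : Ult (RO Cn), ∀ x, EG G x (NG.mk G CPI.oN) →
      ∃ y, Val (EG G) (NG.mk G (fN w)) x y := by
    refine F.top fun p => F.bck.2 fun n => F.loc fun q' _ => ?_
    obtain ⟨r, hr, v, hv⟩ := dom_all q' n
    exact ⟨r, hr, fun G hG => ⟨NG.mk G (w v), val_fN w (mem_rr.2 hv) G hG⟩⟩
  have s3 : ∀ G : Ult (RO Cn), ∀ x y z, Val (EG G) (NG.mk G (fN w)) x y →
      Val (EG G) (NG.mk G (fN w)) x z → y = z := by
    refine F.top fun p => F.all.2 fun X => F.all.2 fun Y => F.all.2 fun Z =>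
      F.imp.2 fun q1 _ h1 => F.imp.2 fun q2 hq2 h2 => F.loc fun q3 hq3 => ?_
    obtain ⟨r1, hr1, n, v, hv, h3, h4⟩ := elim_val h1 q3 (hq3.trans hq2)
    obtain ⟨r2, hr2, n', v', hv', h5, h6⟩ := elim_val h2 r1 (hr1.trans hq3)
    have hn : n = n' := by
      refine (F.const (p := r2)).1 fun G hG => ?_
      have g1 : NG.mk G X = NG.mk G (CPI.nn n) := h3 G (up_mem hr2 hG)
      have g2 : NG.mk G X = NG.mk G (CPI.nn n') := h5 G hG
      have g3 : NG.mk G (CPI.nn n) = NG.mk G (CPI.nn n') := g1.symm.trans g2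
      exact Nat.cast_inj.1 ((ck_eq_iff G).1 g3)
    subst hn
    have hvv : v = v' := r2.ur n v v' (hr2.1 (mem_rr.1 hv)) (mem_rr.1 hv')
    subst hvv
    refine ⟨r2, hr2.trans hr1, fun G hG => ?_⟩
    have g1 : NG.mk G Y = NG.mk G (w v) := h4 G (up_mem hr2 hG)
    have g2 : NG.mk G Z = NG.mk G (w v) := h6 G hG
    exact g1.trans g2.symm
  have s4 : ∀ G : Ult (RO Cn), ∀ y, EG G y (NG.mk G (BSet.mk Th w fun _ => (⊤ : RO Cn))) →
      ∃ n, EG G n (NG.mk G CPI.oN) ∧ Val (EG G) (NG.mk G (fN w)) n y := by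
    refine F.top fun p => F.all.2 fun Y => F.imp.2 fun q _ hY => F.loc fun q' hq' => ?_
    have h0 : mem Y (BSet.mk Th w fun _ => (⊤ : RO Cn)) = ⨆ v, ⊤ ⊓ eq Y (w v) := rfl
    rw [F.mem, h0, RO.mem_iSup] at hY
    obtain ⟨r, hr, v, -, h2⟩ := hY q' hq'
    obtain ⟨r', hr', n, hn⟩ := ran_all r v
    refine ⟨r', hr'.trans hr, fun G hG => ⟨NG.mk G (CPI.nn n), nn_mem G n, ?_⟩⟩
    have g1 : NG.mk G Y = NG.mk G (w v) := F.eq.2 h2 G (up_mem hr' hG)
    rw [g1]
    exact val_fN w (mem_rr.2 hn) G hG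
  exact ⟨NG.mk G CPI.oN, NG.mk G (fN w), ck_om G, ⟨s1 G, s2 G, s3 G⟩, s4 G⟩

end DLN
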