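import Pool.Agent.DLN.BEnum
import Pool.Agent.CPI.AChoI

/-! # The bridge for Lindelof squares (package B03)

(problem MP_c2fbea_gt, project DLN, part B)

`F.top`, `F.all`: let `O` be a name, `F.imp`: let `q` force the two premises. The typed relation
`Ot b c := BSet.mem (opN (kn b) (kn c)) O` is the truth value of `Val O (kn b) (kn c)` (`val_iff`,
`F.mem`).
* `TCov2 ρ q H Ot`: let `r ≤ q`, `a, a' ∈ H`, `a ≠ a'`. `r` forces `kn a ∈ HN H`, `kn a' ∈ HN H`
  (`F.sn`,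
  `RO.mem_chi`), `kn a ≠ kn a'`, so it forces
  `∃ b c, Val O b c ∧ Val h (kn a) b ∧ Val h (kn a') c`. Let `b`, `c` be names (`F.ex` twice). By
  the first
  premise `b, c ∈ pN C`; `F.dest_sn` twice: below `r` there are `r'` and ground `b0`, `c0` with `b
  = kn b0`,
  `c = kn c0` forced; `F.valr`.
* `h` gives `e : Th → C × C` with `TCov2 ρ q H (fun b b' => Ot b b' ⊓ chi ((b, b') ∈ Set.range e))`.
  Let `w v := opN (kn (e v).1) (kn (e v).2)` and `W := BSet.mk Th w fun _ => ⊤`. `q` forces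
  (`F.bsn` twice,
  on `HN H`, then `F.loc`) that for all `x, y ∈ H`, `x ≠ y` there are `b`, `c` and a pair
  `p = (b, c)` with `p ∈ O`, `p ∈ W`, `Val h x b`, `Val h y c` (for `e v = (b, c)` the pair
  `opN (kn b) (kn c) = w v` is in `W`: `vl_le_mem`, value `⊤`).
* Now let `RO.up q ∈ G.s`. By `exists_int (NG_zfc G)` there is `O'` with `IsInt O' O W`. It is a
  subset of `O`;
  it is countable by `hE w G` and `cnt_sub`; and it covers.

How to work with these statements (file `CPI/BTv.lean`, `CPI/BNam.lean`; see the proofs in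
`CPI/BSp.lean`,
`CPI/BNlin.lean`, `CPI/BNet.lean` for models): `F p S` means that `S G` is true in all quotients
`NG G` with
`RO.up p ∈ G.s`. A statement `S G` for an arbitrary `G` is proved by `F.top fun p => ?_` (all
statements
about names have a truth value: class `TV`, found by instance search; state the statement as a
function of `G`). Quantifiers: `F.all`, `F.ex`, `F.bsn` (`∀ x ∈ sn φ`: it is enough to treat `x =
kn a` below
conditions `q ∈ φ a`), `F.esn`, `F.bck`, `F.eck` (`∀/∃ x ∈ ω`, `om_eq`), `F.dest_sn`, `F.bsub`,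
`F.esub`,
connectives: `F.imp`, `F.and`, `F.no`, `F.or`, `F.loc` (densely), `F.mono`, `F.const`,
`F.not_false`,
`F.of_not`. Atomic statements: `kn_eq`, `kn_sn`, `kn_sn_chi`, `val_rn`, `val_iff`, `chi_mem`;
forced forms:
`F.sn`, `F.valr`, `F.kn_eq`, `F.mem`. To reorder the premises of a statement (so that all
quantifiers
become bounded) prove the reordered statement and apply it. If `rw` does not find a pattern, use
`beta_reduce` or `show`. From `q ∈ φ a` and `RO.up q ∈ G.s` one gets `φ a ∈ G.s` by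
`G.up hG (RO.up_le.2 h)`; `q ∈ chi c ↔ c` is `RO.mem_chi`. -/

set_option autoImplicit false

namespace DLN

open STP STP.BSet CPI Cardinal

variable {P : Type} [PartialOrder P] {A C : Type} {ρ : A → C → RO P}

theorem br_lin2 (hE : Enum P) {H : Set A} (h : TLin2 ρ H) (G : Ult (RO P)) :
    CLin2 (EG G) (NG.mk G (pN C)) (NG.mk G (rn ρ)) (NG.mk G (HN H)) := by
  revert G
  refine F.top fun p => ?_
  refine F.all.2 fun O => F.imp.2 fun q₀ _ h1 => F.imp.2 fun q hq h2 => ?_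
  have c1 : TCov2 ρ q H fun b c => BSet.mem (opN (kn b) (kn c)) O := by
    intro r hr a ha a' ha' hne
    have h3 : F r fun G => ∃ b, ∃ c, Val (EG G) (NG.mk G O) b c ∧
        Val (EG G) (NG.mk G (rn ρ)) (NG.mk G (kn a)) b ∧
        Val (EG G) (NG.mk G (rn ρ)) (NG.mk G (kn a')) c := fun G hG =>
      h2 G (up_mem hr hG) _ _ ((kn_sn_chi G).2 ha) ((kn_sn_chi G).2 ha')
        fun h3 => hne ((kn_eq G).1 h3)
    obtain ⟨b, h4⟩ := F.ex.1 h3
    obtain ⟨c, h5⟩ := F.ex.1 h4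
    have h6 : F r fun G => EG G (NG.mk G b) (NG.mk G (pN C)) ∧
        EG G (NG.mk G c) (NG.mk G (pN C)) := fun G hG =>
      h1 G (up_mem (hr.trans hq) hG) _ _ (h5 G hG).1
    obtain ⟨r1, hr1, b0, -, h7⟩ := F.dest_sn (F.and.1 h6).1 r le_rfl
    obtain ⟨r2, hr2, c0, -, h8⟩ := F.dest_sn ((F.and.1 h6).2.mono hr1) r1 le_rfl
    refine ⟨r2, hr2.trans hr1, b0, c0, F.mem.1 fun G hG => ?_, F.valr.1 fun G hG => ?_,
      F.valr.1 fun G hG => ?_⟩
    · have e1 : NG.mk G b = NG.mk G (kn b0) := h7 G (up_mem hr2 hG)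
      have e2 : NG.mk G c = NG.mk G (kn c0) := h8 G hG
      have e3 : Val (EG G) (NG.mk G O) (NG.mk G b) (NG.mk G c) :=
        (h5 G (up_mem (hr2.trans hr1) hG)).1
      rw [e1, e2] at e3
      exact val_iff.1 e3
    · have e1 : NG.mk G b = NG.mk G (kn b0) := h7 G (up_mem hr2 hG)
      have e3 : Val (EG G) (NG.mk G (rn ρ)) (NG.mk G (kn a)) (NG.mk G b) :=
        (h5 G (up_mem (hr2.trans hr1) hG)).2.1
      rwa [e1] at e3
    · have e2 : NG.mk G c = NG.mk G (kn c0) := h8 G hG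
      have e3 : Val (EG G) (NG.mk G (rn ρ)) (NG.mk G (kn a')) (NG.mk G c) :=
        (h5 G (up_mem (hr2.trans hr1) hG)).2.2
      rwa [e2] at e3
  obtain ⟨e, he⟩ := h q _ c1
  obtain ⟨w, hw⟩ : ∃ w : Th → BSet (RO P), w = fun v => opN (kn (e v).1) (kn (e v).2) := ⟨_, rfl⟩
  have c3 : F q fun G => ∀ x, EG G x (NG.mk G (HN H)) → ∀ y, EG G y (NG.mk G (HN H)) → x ≠ y →
      ∃ b, ∃ c, (∃ z, IsOP (EG G) z b c ∧ EG G z (NG.mk G O) ∧
        EG G z (NG.mk G (BSet.mk Th w fun _ => (⊤ : RO P)))) ∧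
        Val (EG G) (NG.mk G (rn ρ)) x b ∧ Val (EG G) (NG.mk G (rn ρ)) y c := by
    refine F.bsn.2 fun a q1 hq1 ha => F.bsn.2 fun a' q2 hq2 ha' => F.imp.2 fun q3 hq3 hne => ?_
    refine F.loc fun q4 hq4 => ?_
    have hne' : a ≠ a' := by
      rintro rfl
      exact F.no.1 hne q3 le_rfl (F.of_all (fun G => rfl) q3)
    obtain ⟨r, hr, b, b', h3, h4, h5⟩ := he q4 (hq4.trans (hq3.trans (hq2.trans hq1))) a
      (RO.mem_chi.1 ha) a' (RO.mem_chi.1 ha') hne'
    obtain ⟨h6, h7⟩ := RO.mem_inf.1 h3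
    obtain ⟨v, hv⟩ := RO.mem_chi.1 h7
    refine ⟨r, hr, fun G hG => ⟨NG.mk G (kn b), NG.mk G (kn b'),
      ⟨NG.mk G (opN (kn b) (kn b')), opN_op G _ _, F.mem.2 h6 G hG, ?_⟩, F.valr.2 h4 G hG,
      F.valr.2 h5 G hG⟩⟩
    have h8 := vl_le_mem (BSet.mk Th w fun _ => (⊤ : RO P)) v
    have h9 : w v = opN (kn b) (kn b') := by
      rw [hw]
      change opN (kn (e v).1) (kn (e v).2) = _
      rw [hv]
    refine EG_mk.2 (G.up G.top ?_)
    rw [← h9]
    exact h8
  intro G hG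
  obtain ⟨O', hO'⟩ := exists_int (NG_zfc G) (NG.mk G O)
    (NG.mk G (BSet.mk Th w fun _ => (⊤ : RO P)))
  refine ⟨O', fun z hz => ((hO' z).1 hz).1, cnt_sub (fun z hz => ((hO' z).1 hz).2) (hE w G),
    fun x y hx hy hne => ?_⟩
  obtain ⟨b, c, ⟨z, hz, h3, h4⟩, h5, h6⟩ := c3 G hG x hx y hy hne
  exact ⟨b, c, ⟨z, (hO' z).2 ⟨h3, h4⟩, hz⟩, h5, h6⟩

end DLN
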