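import Pool.Agent.DLN.Nam
import Pool.Agent.CPI.BOmA

/-! # The bridge for: not Lindelof (package B05)

(problem MP_c2fbea_gt, project DLN, part B)

As `CPI/BNlin.lean` (but there is no countable closure of the poset here). Suppose `CLin` is true in
`NG G`; `F.of_not`: some `p` forces it. Let `O` be the set of codes from `h`, and `ON := HN O` (a subset of
`pN C`, it covers by `F.bsn`, `F.loc` and the first clause of `h`). So `p` forces that there is `O' ⊆ ON`
with `IsCnt O'`, `CCov Y h O'`. Let `O'`, `w`, `f` be names (`F.ex`), `p` forces `IsOm w`, `IsFun f w` and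
`∀ y ∈ O', ∃ n ∈ w, Val f n y`; replace `w` by `oN` (`om_eq`). The typed function
`ft n b := BSet.mem (opN (nn n) (kn b)) f` satisfies the premise of the second clause of `h` (`IsFun`,
`F.kn_eq`). We get `r ≤ p` and `a`. `r` forces `∃ b ∈ O', Val h (kn a) b`; by `F.esub` (with `O' ⊆ HN O`)
there are `r' ≤ r` and a ground `b` with `kn b ∈ O'`, `r' ∈ ρ a b`; `b ∈ O` (`F.sn`, `RO.mem_chi`); and `r'`
forces `∃ n ∈ oN, Val f n (kn b)`, so by `F.eck` there are `r'' ≤ r'` and `n` with `r'' ∈ ft n b`.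
Contradiction to the choice of `a`.

How to work with these statements (file `CPI/BTv.lean`, `CPI/BNam.lean`; see the proofs in `CPI/BSp.lean`,
`CPI/BNlin.lean`, `CPI/BNet.lean` for models): `F p S` means that `S G` is true in all quotients `NG G` with
`RO.up p ∈ G.s`. A statement `S G` for an arbitrary `G` is proved by `F.top fun p => ?_` (all statements
about names have a truth value: class `TV`, found by instance search; state the statement as a
function of `G`). Quantifiers: `F.all`, `F.ex`, `F.bsn` (`∀ x ∈ sn φ`: it is enough to treat `x = kn a` below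
conditions `q ∈ φ a`), `F.esn`, `F.bck`, `F.eck` (`∀/∃ x ∈ ω`, `om_eq`), `F.dest_sn`, `F.bsub`, `F.esub`,
connectives: `F.imp`, `F.and`, `F.no`, `F.or`, `F.loc` (densely), `F.mono`, `F.const`, `F.not_false`,
`F.of_not`. Atomic statements: `kn_eq`, `kn_sn`, `kn_sn_chi`, `val_rn`, `val_iff`, `chi_mem`; forced forms:
`F.sn`, `F.valr`, `F.kn_eq`, `F.mem`. To reorder the premises of a statement (so that all quantifiers
become bounded) prove the reordered statement and apply it. If `rw` does not find a pattern, use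
`beta_reduce` or `show`. From `q ∈ φ a` and `RO.up q ∈ G.s` one gets `φ a ∈ G.s` by
`G.up hG (RO.up_le.2 h)`; `q ∈ chi c ↔ c` is `RO.mem_chi`. -/

set_option autoImplicit false

namespace DLN

open STP STP.BSet CPI Cardinal

variable {P : Type} [PartialOrder P] {A C : Type} {ρ : A → C → RO P}

theorem br_nlin (h : TNLin ρ) (G : Ult (RO P)) :
    ¬ CLin (EG G) (NG.mk G (pN A)) (NG.mk G (pN C)) (NG.mk G (rn ρ)) := by
  intro hG
  obtain ⟨p, hp⟩ := F.of_not (S := fun G => CLin (EG G) (NG.mk G (pN A)) (NG.mk G (pN C))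
    (NG.mk G (rn ρ))) hG
  obtain ⟨O, hO1, hO2⟩ := h
  have hsub : ∀ G : Ult (RO P), Sub (EG G) (NG.mk G (HN O)) (NG.mk G (pN C)) :=
    sn_sub fun b => le_top
  have hcov : ∀ G : Ult (RO P), CCov (EG G) (NG.mk G (pN A)) (NG.mk G (rn ρ))
      (NG.mk G (HN O)) := by
    refine F.top fun p => ?_
    refine F.bsn.2 fun a q _ _ => ?_
    refine F.esn.2 fun q' _ => ?_
    obtain ⟨r, hr, b, hb, h1⟩ := hO1 q' a
    exact ⟨r, hr, b, RO.mem_chi.2 hb, F.valr.2 h1⟩
  have h1 : F p fun G => ∃ O', Sub (EG G) O' (NG.mk G (HN O)) ∧ IsCnt (EG G) O' ∧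
      CCov (EG G) (NG.mk G (pN A)) (NG.mk G (rn ρ)) O' :=
    fun G hG => hp G hG _ (hsub G) (hcov G)
  obtain ⟨O', hO'⟩ := F.ex.1 h1
  obtain ⟨h2, h3⟩ := F.and.1 hO'
  obtain ⟨h3, h4⟩ := F.and.1 h3
  unfold IsCnt at h3
  obtain ⟨w, hw⟩ := F.ex.1 h3
  obtain ⟨f, hf⟩ := F.ex.1 hw
  obtain ⟨r, hr, a, ha⟩ := hO2 p (fun n b => BSet.mem (opN (nn n) (kn b)) f) (by
    intro r hr n b b' hb hb'
    rw [← F.mem] at hb hb'
    exact (F.kn_eq (p := r)).1 fun G hG => (hf G (up_mem hr hG)).2.1.2.2 _ _ _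
      (val_iff.2 (hb G hG)) (val_iff.2 (hb' G hG)))
  have h6 : F r fun G => ∃ b, EG G b (NG.mk G O') ∧
      Val (EG G) (NG.mk G (rn ρ)) (NG.mk G (kn a)) b := fun G hG =>
    h4 G (up_mem hr hG) _ ((kn_sn (φ := fun _ : A => (⊤ : RO P)) G).2 G.top)
  obtain ⟨r', hr', b, h7, h8⟩ := F.esub (h2.mono hr) h6 r le_rfl
  have h9 : F r' fun G => EG G (NG.mk G (kn b)) (NG.mk G (HN O)) := fun G hG =>
    h2 G (up_mem (hr'.trans hr) hG) _ (h7 G hG)
  have hb : b ∈ O := RO.mem_chi.1 ((F.sn (φ := fun a => (chi (a ∈ O) : RO P))).1 h9)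
  have h10 : r' ∈ ρ a b := F.valr.1 h8
  have h11 : F r' fun G => ∃ n, EG G n (NG.mk G oN) ∧
      Val (EG G) (NG.mk G f) n (NG.mk G (kn b)) := fun G hG => by
    obtain ⟨h12, -, h14⟩ := hf G (up_mem (hr'.trans hr) hG)
    rw [om_eq G h12] at h14
    exact h14 _ (h7 G hG)
  obtain ⟨r'', hr'', n, hn⟩ := F.eck.1 h11 r' le_rfl
  exact ha r'' (hr''.trans hr') n b hb (F.mem.1 fun G hG => val_iff.1 (hn G hG))
    ((ρ a b).down hr'' h10)

end DLN
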