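import Pool.Agent.DLN.Nam
import Pool.Agent.CPI.BOmA

/-! # The bridge for separating sequences; the rational numbers (package B06)

(problem MP_c2fbea_gt, project DLN, part B)

* `br_nsep`: `F.top`, `F.all` twice, `F.imp` twice: let `q` force `IsOm w`, `CSq .. K`; replace `w` by `oN`
  (`om_eq`). It remains that `q` forces `¬ CSpr Y oN K`: `F.no`: suppose `q' ≤ q` forces `CSpr Y oN K`. The
  typed sequence `U n a := BSet.mem (opN (nn n) (kn a)) K` is the truth value of `Val K (nn n) (kn a)`. It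
  contradicts `h q' U`: the first premise is `CSq` (the name `b ∈ pN C` is densely some `kn b0`,
  `F.dest_sn`), the second is `CSpr` (the names `k, m ∈ oN` are densely `nn n`, `nn m`, `F.dest_ck` or
  `F.eck`).
* `br_Q`: `pN ℚ` and `rn fun x y => chi (x < y)`. Countable: `br_cnt` of `CPI/BOmB.lean` for
  `D = Set.univ` (`chi (a ∈ Set.univ) = ⊤`). All other clauses: `F.top` and `F.bsn`, `F.brn` (quantifiers over
  the pairs of `rn`), `val_rn`, `chi_mem`, and the properties of `ℚ`; see `CPI/BRLa.lean` for the same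
  statements for `ℝ` (`rl_ne`, `rl_dom`, `rl_irr`, `rl_tr`, `rl_tot`, `rl_end`).

How to work with these statements (file `CPI/BTv.lean`, `CPI/BNam.lean`; see the proofs in `CPI/BSp.lean`,
`CPI/BNlin.lean`, `CPI/BNet.lean` for models): `F p S` means that `S G` is true in all quotients `NG G` with
`RO.up p ∈ G.s`. A statement `S G` for an arbitrary `G` is proved by `F.top fun p => ?_` (all statements
about names have a truth value: class `TV`, found by instance search; state the statement as a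
function of `G`). Quantifiers: `F.all`, `F.ex`, `F.bsn` (`∀ x ∈ sn φ`: it is enough to treat `x = kn a` below
conditions `q ∈ φ a`), `F.esn`, `F.bck`, `F.eck` (`∀/∃ x ∈ ω`, `om_eq`), `F.dest_sn`, `F.bsub`, `F.esub`,
connectives: `F.imp`, `F.and`, `F.no`, `F.or`, `F.loc` (densely), `F.mono`, `F.const`, `F.not_false`,
`F.of_not`. Atomic statements: `kn_eq`, `kn_sn`, `kn_sn_chi`, `val_rn`, `val_iff`, `chi_mem`; forced forms:
`F.sn`, `F.valr`, `F.kn_eq`, `F.mem`. To reorder the premises of a statement (so that all quantifiers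
become bounded) prove the reordered statement and apply it. If `rw` does not find a pattern, use
`beta_reduce` or `show`. From `q ∈ φ a` and `RO.up q ∈ G.s` one gets `φ a ∈ G.s` by
`G.up hG (RO.up_le.2 h)`; `q ∈ chi c ↔ c` is `RO.mem_chi`. -/

set_option autoImplicit false

namespace DLN

open STP STP.BSet CPI Cardinal

variable {P : Type} [PartialOrder P] {A C : Type} {ρ : A → C → RO P}

private theorem pN_mem (G : Ult (RO P)) (a : A) : EG G (NG.mk G (kn a)) (NG.mk G (pN A)) :=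
  (kn_sn G).2 G.top

theorem br_nsep (h : TNSep ρ) (G : Ult (RO P)) :
    CNSep (EG G) (NG.mk G (pN A)) (NG.mk G (pN C)) (NG.mk G (rn ρ)) := by
  intro w K hw hsq hspr
  have hw' := om_eq G hw
  subst hw'
  obtain ⟨K, rfl⟩ := NG.exists_rep K
  obtain ⟨p, hp⟩ := F.of_not (S := fun G =>
    CSq (EG G) (NG.mk G (pN A)) (NG.mk G (pN C)) (NG.mk G (rn ρ)) (NG.mk G oN) (NG.mk G K) ∧
      CSpr (EG G) (NG.mk G (pN A)) (NG.mk G oN) (NG.mk G K)) ⟨hsq, hspr⟩
  have hU : ∀ (r : P) (n : ℕ) (a : A), r ∈ BSet.mem (opN (nn n) (kn a)) K ↔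
      F r fun G => Val (EG G) (NG.mk G K) (NG.mk G (nn n)) (NG.mk G (kn a)) := by
    intro r n a
    rw [← F.mem]
    exact ⟨fun h1 G hG => val_iff.2 (h1 G hG), fun h1 G hG => val_iff.1 (h1 G hG)⟩
  refine h p (fun n a => BSet.mem (opN (nn n) (kn a)) K) ?_ ?_
  · intro r hr n a hra
    rw [hU] at hra
    have h1 : F r fun G => ∃ b, EG G b (NG.mk G (pN C)) ∧
        (Val (EG G) (NG.mk G (rn ρ)) (NG.mk G (kn a)) b ∧
          ∀ z, EG G z (NG.mk G (pN A)) → Val (EG G) (NG.mk G (rn ρ)) z b →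
            Val (EG G) (NG.mk G K) (NG.mk G (nn n)) z) := fun G hG =>
      (hp G (up_mem hr hG)).1 _ _ (nn_mem G n) (pN_mem G a) (hra G hG)
    obtain ⟨r', hr', b, -, h2⟩ := F.esn.1 h1 r le_rfl
    refine ⟨r', hr', b, F.valr.1 fun G hG => (h2 G hG).1, fun a' r'' hr'' h3 => ?_⟩
    rw [hU]
    intro G hG
    exact (h2 G (up_mem hr'' hG)).2 _ (pN_mem G a') (F.valr.2 h3 G hG)
  · intro r hr a a' haa
    have h1 : F r fun G => ∃ k, EG G k (NG.mk G oN) ∧ ∃ m, EG G m (NG.mk G oN) ∧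
        (Val (EG G) (NG.mk G K) k (NG.mk G (kn a)) ∧
          Val (EG G) (NG.mk G K) m (NG.mk G (kn a')) ∧
          ∀ z, EG G z (NG.mk G (pN A)) →
            ¬ (Val (EG G) (NG.mk G K) k z ∧ Val (EG G) (NG.mk G K) m z)) := by
      intro G hG
      obtain ⟨k, m, h2, h3, h4⟩ := (hp G (up_mem hr hG)).2 _ _ (pN_mem G a) (pN_mem G a')
        fun h5 => haa ((CPI.kn_eq G).1 h5)
      exact ⟨k, h2, m, h3, h4⟩
    obtain ⟨r1, hr1, n, h2⟩ := F.eck.1 h1 r le_rfl
    obtain ⟨r2, hr2, m, h3⟩ := F.eck.1 h2 r1 le_rfl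
    refine ⟨r2, hr2.trans hr1, n, m, (hU _ _ _).2 fun G hG => (h3 G hG).1,
      (hU _ _ _).2 fun G hG => (h3 G hG).2.1, fun c r'' hr'' h4 => ?_⟩
    have h5 := (hU _ _ _).1 h4.1
    have h6 := (hU _ _ _).1 h4.2
    refine F.not_false (p := r'') fun G hG => ?_
    exact (h3 G (up_mem hr'' hG)).2.2 _ (pN_mem G c) ⟨h5 G hG, h6 G hG⟩

/-- the name of the order -/
private noncomputable abbrev qN : BSet (RO P) := rn fun x y : ℚ => (chi (x < y) : RO P)

private theorem val_q (G : Ult (RO P)) {x y : ℚ} :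
    Val (EG G) (NG.mk G qN) (NG.mk G (kn x)) (NG.mk G (kn y)) ↔ x < y :=
  (val_rn G).trans chi_mem

private theorem q_dom (G : Ult (RO P)) : ∀ x y, Val (EG G) (NG.mk G qN) x y →
    EG G x (NG.mk G (pN ℚ)) ∧ EG G y (NG.mk G (pN ℚ)) := by
  have h : ∀ G : Ult (RO P), ∀ x y, Val (EG G) (NG.mk G qN) x y →
      EG G x (NG.mk G (pN ℚ)) ∧ EG G y (NG.mk G (pN ℚ)) := by
    refine F.top fun p => F.brn.2 fun a c q _ _ G _ => ?_
    exact ⟨pN_mem G a, pN_mem G c⟩
  exact h G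

private theorem q_irr (G : Ult (RO P)) : ∀ x, ¬ Val (EG G) (NG.mk G qN) x x := by
  have h : ∀ G : Ult (RO P), ∀ x, EG G x (NG.mk G (pN ℚ)) →
      ¬ Val (EG G) (NG.mk G qN) x x := by
    refine F.top fun p => F.bsn.2 fun a q _ _ G _ => ?_
    exact fun h1 => lt_irrefl a ((val_q G).1 h1)
  exact fun x hx => h G x (q_dom G x x hx).1 hx

private theorem q_tr (G : Ult (RO P)) : ∀ x y z, Val (EG G) (NG.mk G qN) x y →
    Val (EG G) (NG.mk G qN) y z → Val (EG G) (NG.mk G qN) x z := by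
  have h : ∀ G : Ult (RO P), ∀ x, EG G x (NG.mk G (pN ℚ)) → ∀ y, EG G y (NG.mk G (pN ℚ)) →
      ∀ z, EG G z (NG.mk G (pN ℚ)) → Val (EG G) (NG.mk G qN) x y →
      Val (EG G) (NG.mk G qN) y z → Val (EG G) (NG.mk G qN) x z := by
    refine F.top fun p => F.bsn.2 fun a q _ _ => F.bsn.2 fun b r _ _ =>
      F.bsn.2 fun c s _ _ G _ => ?_
    exact fun h1 h2 => (val_q G).2 (lt_trans ((val_q G).1 h1) ((val_q G).1 h2))
  exact fun x y z h1 h2 => h G x (q_dom G x y h1).1 y (q_dom G x y h1).2 z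
    (q_dom G y z h2).2 h1 h2

private theorem q_tot (G : Ult (RO P)) : ∀ x y, EG G x (NG.mk G (pN ℚ)) →
    EG G y (NG.mk G (pN ℚ)) →
    Val (EG G) (NG.mk G qN) x y ∨ x = y ∨ Val (EG G) (NG.mk G qN) y x := by
  have h : ∀ G : Ult (RO P), ∀ x, EG G x (NG.mk G (pN ℚ)) → ∀ y, EG G y (NG.mk G (pN ℚ)) →
      Val (EG G) (NG.mk G qN) x y ∨ x = y ∨ Val (EG G) (NG.mk G qN) y x := by
    refine F.top fun p => F.bsn.2 fun a q _ _ => F.bsn.2 fun b r _ _ G _ => ?_
    rcases lt_trichotomy a b with h1 | h1 | h1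
    · exact Or.inl ((val_q G).2 h1)
    · exact Or.inr (Or.inl ((CPI.kn_eq G).2 h1))
    · exact Or.inr (Or.inr ((val_q G).2 h1))
  exact fun x y hx hy => h G x hx y hy

private theorem q_end (G : Ult (RO P)) : ∀ x, EG G x (NG.mk G (pN ℚ)) →
    (∃ y, Val (EG G) (NG.mk G qN) y x) ∧ ∃ y, Val (EG G) (NG.mk G qN) x y := by
  have h : ∀ G : Ult (RO P), ∀ x, EG G x (NG.mk G (pN ℚ)) →
      (∃ y, Val (EG G) (NG.mk G qN) y x) ∧ ∃ y, Val (EG G) (NG.mk G qN) x y := by
    refine F.top fun p => F.bsn.2 fun a q _ _ G _ => ?_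
    exact ⟨⟨_, (val_q G).2 (sub_one_lt a)⟩, ⟨_, (val_q G).2 (lt_add_one a)⟩⟩
  exact h G

private theorem q_dense (G : Ult (RO P)) : ∀ x y, Val (EG G) (NG.mk G qN) x y →
    ∃ d, Val (EG G) (NG.mk G qN) x d ∧ Val (EG G) (NG.mk G qN) d y := by
  have h : ∀ G : Ult (RO P), ∀ x y, Val (EG G) (NG.mk G qN) x y →
      ∃ d, Val (EG G) (NG.mk G qN) x d ∧ Val (EG G) (NG.mk G qN) d y := by
    refine F.top fun p => F.brn.2 fun a c q _ hq G _ => ?_
    obtain ⟨r, h1, h2⟩ := exists_between (RO.mem_chi.1 hq)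
    exact ⟨NG.mk G (kn r), (val_q G).2 h1, (val_q G).2 h2⟩
  exact h G

private theorem q_cnt (G : Ult (RO P)) : IsCnt (EG G) (NG.mk G (pN ℚ)) := by
  have h1 : (pN ℚ : BSet (RO P)) = sn fun a : ℚ => chi (a ∈ (Set.univ : Set ℚ)) := by
    refine congrArg sn (funext fun a => ?_)
    exact (iSup_pos (f := fun _ => (⊤ : RO P)) (Set.mem_univ a)).symm
  rw [h1]
  exact br_cnt Set.countable_univ G

theorem br_Q (G : Ult (RO P)) :
    CQ (EG G) (NG.mk G (pN ℚ)) (NG.mk G (rn fun x y : ℚ => (chi (x < y) : RO P))) :=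
  ⟨⟨_, pN_mem G (0 : ℚ)⟩, q_cnt G, q_dom G, q_irr G, q_tr G, q_tot G, q_end G, q_dense G⟩

end DLN
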