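import Pool.Agent.DLN.Sup

/-! # The regular cardinals `κ_l`, upper bounds, the function `c_g` (package C04)

(problem MP_c2fbea_gt, project DLN, part C)

* `kap l` is a successor cardinal, hence regular (`Cardinal.isRegular_succ`, `ℵ₀ ≤ #Th`).
* `exists_ub`: a subset of `K l = (kap l).ord.ToType` of size `< kap l` is bounded, and `K l` has no
  maximum (`kap l` is a limit ordinal), so there is a strict upper bound. (For instance with
  `Ordinal.lsub_lt_ord`, `Ordinal.typein`, `Ordinal.ToType.mk`; or `Ordinal.cof`.)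
* `exists_chi`: for each `l` the set of strict upper bounds of `{β | ⟨l, β⟩ ∈ M}` is not empty
  (`exists_ub`; its size is `≤ #M ≤ #Th < kap l`); `g l` is its minimum (`WellFounded.min`). If `β < g l` then
  `β` is not a strict upper bound.
* `exists_star`: `c l` is the minimum of the set of all `x : WithTop (K l)` with `g l ≤ x` and
  (`x = ⊤` or `x = ↑k` with `⟨l, k⟩ ∈ M`); this set contains `⊤`. For `u ∈ M`: if `g u.1 ≤ u.2` then `u.2` is in
  the set, so `c u.1 ≤ u.2`. The clause for `lst` follows: `⟨l, h l⟩ ∈ M` by `inM_df`. If `inM M g` then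
  `g l` is in the set. -/

namespace DLN

open Cardinal STP

theorem th_lt_kap (l : ℕ) : #Th < kap l := by
  induction l with
  | zero => exact Order.lt_succ _
  | succ l ih => exact ih.trans (Order.lt_succ _)

theorem kap_lt {l l' : ℕ} (h : l < l') : kap l < kap l' :=
  strictMono_nat_of_lt_succ (f := kap) (fun l => Order.lt_succ (kap l)) h

theorem mk_K (l : ℕ) : #(K l) = kap l := Cardinal.mk_ord_toType _

theorem exists_ub {l : ℕ} (S : Set (K l)) (hS : #S < kap l) : ∃ b, ∀ x ∈ S, x < b := by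
  have h1 : ℵ₀ ≤ #Th := Cardinal.aleph0_le_mk Th
  have h2 : (kap l).IsRegular := by
    cases l with
    | zero => exact Cardinal.isRegular_succ h1
    | succ l => exact Cardinal.isRegular_succ (h1.trans (th_lt_kap l).le)
  by_contra hcon
  push Not at hcon
  have h3 : IsCofinal S := fun b => by
    obtain ⟨x, hx, h4⟩ := hcon b
    exact ⟨x, hx, h4⟩
  have h4 : Order.cof (K l) ≤ #S := Order.cof_le h3
  rw [Ordinal.cof_toType, h2.cof_ord] at h4
  exact absurd h4 (not_le.2 hS)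

theorem exists_chi (M : Set Co) (hM : #M ≤ #Th) :
    ∃ g : Df, (∀ u ∈ M, u.2 < g u.1) ∧
      ∀ l, ∀ β < g l, ∃ β' : K l, (⟨l, β'⟩ : Co) ∈ M ∧ β ≤ β' := by
  have h1 : ∀ l, ∃ b : K l, (∀ x ∈ {β : K l | (⟨l, β⟩ : Co) ∈ M}, x < b) := by
    intro l
    refine exists_ub _ (lt_of_le_of_lt ?_ (hM.trans_lt (th_lt_kap l)))
    refine Cardinal.mk_le_of_injective
      (f := fun β : {β : K l | (⟨l, β⟩ : Co) ∈ M} => (⟨⟨l, β.1⟩, β.2⟩ : M)) ?_
    intro x y hxy
    have h2 : (⟨l, x.1⟩ : Co) = ⟨l, y.1⟩ := congrArg Subtype.val hxy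
    exact Subtype.ext (by simpa using h2)
  have h2 : ∀ l, ∃ b : K l, (∀ x ∈ {β : K l | (⟨l, β⟩ : Co) ∈ M}, x < b) ∧
      ∀ b' : K l, b' < b → ¬ ∀ x ∈ {β : K l | (⟨l, β⟩ : Co) ∈ M}, x < b' := by
    intro l
    have wf : WellFounded (fun x y : K l => x < y) := wellFounded_lt
    obtain ⟨b, hb, hb'⟩ := wf.has_min {b : K l | ∀ x ∈ {β : K l | (⟨l, β⟩ : Co) ∈ M}, x < b}
      (h1 l)
    exact ⟨b, hb, fun b' h3 h4 => hb' b' h4 h3⟩
  choose g hg hg' using h2
  refine ⟨g, fun u hu => hg u.1 u.2 hu, fun l β hβ => ?_⟩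
  have h3 := hg' l β hβ
  push Not at h3
  obtain ⟨x, hx, h4⟩ := h3
  exact ⟨x, hx, h4⟩

theorem exists_star (M : Set Co) (g : Gf) :
    ∃ c : Gf, inM M c ∧ (∀ l, g l ≤ c l) ∧
      (∀ u ∈ M, (g u.1 ≤ (u.2 : WithTop (K u.1)) ↔ c u.1 ≤ (u.2 : WithTop (K u.1)))) ∧
      (∀ h : Df, inM M h → (lst g h ↔ lst c h)) ∧ (inM M g → c = g) := by
  have h2 : ∀ l, ∃ c : WithTop (K l), (g l ≤ c ∧ (c = ⊤ ∨ ∃ k : K l, c = (k : WithTop (K l)) ∧
      (⟨l, k⟩ : Co) ∈ M)) ∧ ∀ x : WithTop (K l), g l ≤ x →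
        (x = ⊤ ∨ ∃ k : K l, x = (k : WithTop (K l)) ∧ (⟨l, k⟩ : Co) ∈ M) → c ≤ x := by
    intro l
    have wf : WellFounded (fun x y : WithTop (K l) => x < y) := wellFounded_lt
    obtain ⟨b, hb, hb'⟩ := wf.has_min {x : WithTop (K l) | g l ≤ x ∧
      (x = ⊤ ∨ ∃ k : K l, x = (k : WithTop (K l)) ∧ (⟨l, k⟩ : Co) ∈ M)}
      ⟨⊤, le_top, Or.inl rfl⟩
    exact ⟨b, hb, fun x h3 h4 => not_lt.1 (hb' x ⟨h3, h4⟩)⟩
  choose c hc hc' using h2
  have h4 : ∀ u ∈ M, (g u.1 ≤ (u.2 : WithTop (K u.1)) ↔ c u.1 ≤ (u.2 : WithTop (K u.1))) :=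
    fun u hu => ⟨fun h => hc' u.1 _ h (Or.inr ⟨u.2, rfl, hu⟩), fun h => (hc u.1).1.trans h⟩
  refine ⟨c, ?_, fun l => (hc l).1, h4, ?_, ?_⟩
  · rw [inM_gf]
    rintro ⟨l, k⟩ hu
    rcases (hc l).2 with h | ⟨k', h, h'⟩
    · have h5 : c l = (k : WithTop (K l)) := hu
      rw [h5] at h
      exact absurd h WithTop.coe_ne_top
    · have h5 : c l = (k : WithTop (K l)) := hu
      rw [h5] at h
      have h6 : k = k' := WithTop.coe_injective h
      rw [h6]
      exact h'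
  · intro h hM
    rw [inM_df] at hM
    unfold lst
    exact exists_congr fun m => forall_congr' fun l => imp_congr_right fun _ => h4 ⟨l, h l⟩ (hM l)
  · intro hM
    rw [inM_gf] at hM
    funext l
    refine le_antisymm (hc' l _ le_rfl ?_) (hc l).1
    induction hgl : g l using WithTop.recTopCoe with
    | top => exact Or.inl rfl
    | coe k => exact Or.inr ⟨k, rfl, hM ⟨l, k⟩ hgl⟩

theorem InZ_of_lst {g : Gf} {h : Df} (hg : lst g h) : InZ g := by
  obtain ⟨m, hm⟩ := hg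
  refine ⟨m, fun l hl h => ?_⟩
  have h1 := hm l hl
  rw [h, top_le_iff] at h1
  exact WithTop.coe_ne_top h1

theorem InZ_up (h : Df) : InZ (up h) := ⟨0, fun _ _ => WithTop.coe_ne_top⟩

theorem exists_max (h h' : Df) : ∃ h'' : Df, ∀ g, lst g h ∨ lst g h' → lst g h'' := by
  refine ⟨fun l => max (h l) (h' l), fun g hg => ?_⟩
  rcases hg with ⟨m, hm⟩ | ⟨m, hm⟩
  · exact ⟨m, fun l hl => (hm l hl).trans (WithTop.coe_le_coe.2 (le_max_left _ _))⟩
  · exact ⟨m, fun l hl => (hm l hl).trans (WithTop.coe_le_coe.2 (le_max_right _ _))⟩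

end DLN
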