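import Pool.Agent.DLN.CRst
import Pool.Agent.DLN.CChi

/-! # Amalgamation for discrete sets (package C10)

(problem MP_c2fbea_gt, project DLN, part C)

Pure finite combinatorics. Let `S` be the set of all `(cell a (.inl k), v)` with
`.inr (.inl k, v) ∈ c0`, and, if `¬ inM M b.1`, all `(cell b (.inl k), v)` with
`.inr (.inl k, v) ∈ c0'` and `¬ lst b.1 k.1`. (Finite: `c0`, `c0'` are lists. All `k` are in `M`, because `c0`,
`c0'` are in `M`.) `p3` is the result of `glue` for `p`, `p0`, `S`.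
* `p`, `p0`: a cell of `p0` is in `M`; entries of `p` on it are in `p0` by `hq`; `p0.uc`.
* `p`, `S`: let `(cell a (.inl k), v') ∈ p.c` and `.inr (.inl k, v) ∈ c0`. Then `occ p k`, so
  `.inr (.inl k, v) ∈ c` by `hpl`, and `Kn p a c` gives `(cell a (.inl k), v) ∈ p.c` (`k` is free for `a` by
  `hfree`, as `inM M k.1`). For `b` the same with `hpl'`, `Kn p b c'`, and `k` free for `b`.
* `p0`, `S`: the cells of `p0` are in `M`, but `¬ inM M a.1` (`ha`) and `¬ inM M b.1` (`inM_cell`).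
* within `S`: two entries for `a`: `kn_eq_val hka0 hka0`; two entries for `b`: `kn_eq_val hkb0 hkb0`.
  One for `a`, one for `b`: the cells are equal, so `(a.1, a.2.1) = (b.1, b.2.1)` and we are in the second
  case of `hb`: `(a0.1, a0.2.1) = (b0.1, b0.2.1)`; `Kn p0 a0 c0`, `Kn p0 b0 c0'` and
  `cell a0 (.inl k) = cell b0 (.inl k)`, `free a0.1 (.inl k) ↔ free b0.1 (.inl k)` give equal values
  (`p0.uc`, or both `false`).
* `Kn p3 a c0`: low literals of `c0` are in `c` (`hlow`), so true by `Kn p a c` and `Kl.mono`. Plus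
  literals: `k` is free for `a` (`hfree`) and the entry is in `S`.
* `Kn p3 b c0'`: if `inM M b.1 ∧ b0 = b` it is `Kn p0 b0 c0'`. Otherwise low literals by `hlow'`; plus
  literals `(k, v)`: if `k` is free for `b` the entry is in `S`; if it is not free we need `v = false`:
  in the third case by the last clause of `hb`; in the second case `b.1 = a.1`, and `k` is free by
  `hfree`. -/

namespace DLN

open Cardinal STP

private theorem fin_lit (f : PC × Bool → Cell × Bool) (l : Cod) :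
    {z : Cell × Bool | ∃ (k : PC) (v : Bool), .inr (.inl k, v) ∈ l ∧ z = f (k, v)}.Finite := by
  have h1 : {y : PC × Bool | (.inr (.inl y.1, y.2) : Lit) ∈ l}.Finite := by
    refine Set.Finite.preimage (f := fun y : PC × Bool => (.inr (.inl y.1, y.2) : Lit)) ?_
      (List.finite_toSet l)
    rintro ⟨k, v⟩ - ⟨k', v'⟩ - h
    simp only [Sum.inr.injEq, Prod.mk.injEq, Sum.inl.injEq] at h
    rw [h.1, h.2]
  refine (h1.image f).subset ?_
  rintro z ⟨k, v, h, rfl⟩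
  exact ⟨(k, v), h, rfl⟩

private theorem inM_of_lit {M : Set Co} {l : Cod} (hl : inM M l) {k : PC} {v : Bool}
    (h : (.inr (.inl k, v) : Lit) ∈ l) : inM M k := by
  have h1 := inM_list.1 hl _ h
  rw [inM_inr, inM_mk, inM_inl] at h1
  exact h1.1

private theorem cell_inj {a b : Row} {k k' : PC} (h : cell a (.inl k) = cell b (.inl k')) :
    (a.1, a.2.1) = (b.1, b.2.1) ∧ k = k' := by
  unfold cell at h
  simp only [Sum.inl.injEq, Prod.mk.injEq] at h
  refine ⟨?_, h.2⟩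
  rw [h.1.1, h.1.2]

theorem amal_dl {M : Set Co} {p p0 : Cn} {a b a0 b0 : Row} {c c' c0 c0' : Cod}
    (hp0 : inM M p0) (hc0 : inM M c0) (hc0' : inM M c0')
    (hr : p.r ⊆ p0.r) (hq : ∀ z ∈ p.c, inM M z.1 → z ∈ p0.c)
    (hka : Kn p a c) (hkb : Kn p b c') (hka0 : Kn p0 a0 c0) (hkb0 : Kn p0 b0 c0')
    (hlow : ∀ z, isLow z → z ∈ c0 → z ∈ c) (hlow' : ∀ z, isLow z → z ∈ c0' → z ∈ c')
    (hpl : ∀ (k : PC) (v : Bool), inM M k → occ p k → .inr (.inl k, v) ∈ c0 →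
      .inr (.inl k, v) ∈ c)
    (hpl' : ∀ (k : PC) (v : Bool), inM M k → occ p k → .inr (.inl k, v) ∈ c0' →
      .inr (.inl k, v) ∈ c')
    (hfree : ∀ h : Df, inM M h → ¬ lst a.1 h) (ha : ¬ inM M a.1)
    (hb : (inM M b.1 ∧ b0 = b) ∨
      (¬ inM M b.1 ∧ (a.1, a.2.1) = (b.1, b.2.1) ∧ (a0.1, a0.2.1) = (b0.1, b0.2.1)) ∨
      (¬ inM M b.1 ∧ (a.1, a.2.1) ≠ (b.1, b.2.1) ∧
        ∀ k : PC, .inr (.inl k, true) ∈ c0' → ¬ lst b.1 k.1)) :
    ∃ p3, p3 ≤ p ∧ p3 ≤ p0 ∧ Kn p3 a c0 ∧ Kn p3 b c0' := by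
  classical
  have key : ∀ x v v', (∃ (k : PC) (w : Bool), .inr (.inl k, w) ∈ c0 ∧
      ((x, v) : Cell × Bool) = (cell a (.inl k), w)) →
      (¬ inM M b.1 ∧ ∃ (k : PC) (w : Bool), .inr (.inl k, w) ∈ c0' ∧ ¬ lst b.1 k.1 ∧
      ((x, v') : Cell × Bool) = (cell b (.inl k), w)) → v = v' := by
    rintro x v v' ⟨k, w, hk, h1⟩ ⟨hM, k', w', hk', -, h2⟩
    rw [Prod.mk.injEq] at h1 h2
    obtain ⟨rfl, rfl⟩ := h1
    obtain ⟨h3, rfl⟩ := h2
    obtain ⟨h4, rfl⟩ := cell_inj h3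
    rcases hb with ⟨h5, -⟩ | ⟨-, -, h5⟩ | ⟨-, h5, -⟩
    · exact absurd h5 hM
    · have h6 : cell a0 (.inl k) = cell b0 (.inl k) := by
        unfold cell
        exact congrArg Sum.inl (Prod.ext h5 rfl)
      have h7 : a0.1 = b0.1 := (Prod.mk.inj h5).1
      obtain ⟨h8, h9⟩ : (free a0.1 (.inl k) → (cell a0 (.inl k), v) ∈ p0.c) ∧
        (¬ free a0.1 (.inl k) → v = false) := hka0 _ hk
      obtain ⟨h10, h11⟩ : (free b0.1 (.inl k) → (cell b0 (.inl k), v') ∈ p0.c) ∧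
        (¬ free b0.1 (.inl k) → v' = false) := hkb0 _ hk'
      rw [← h7] at h10 h11
      rw [← h6] at h10
      by_cases hf : free a0.1 (.inl k)
      · exact p0.uc _ _ _ (h8 hf) (h10 hf)
      · rw [h9 hf, h11 hf]
    · exact absurd h4 h5
  have hglue : ∃ t, t ≤ p ∧ t ≤ p0 ∧ ({z : Cell × Bool | ∃ (k : PC) (v : Bool),
      .inr (.inl k, v) ∈ c0 ∧ z = (cell a (.inl k), v)} ∪
     {z : Cell × Bool | ¬ inM M b.1 ∧ ∃ (k : PC) (v : Bool), .inr (.inl k, v) ∈ c0' ∧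
      ¬ lst b.1 k.1 ∧ z = (cell b (.inl k), v)}) ⊆ t.c ∧ t.r = p0.r ∧ t.c = p.c ∪ p0.c ∪
      ({z : Cell × Bool | ∃ (k : PC) (v : Bool),
      .inr (.inl k, v) ∈ c0 ∧ z = (cell a (.inl k), v)} ∪
     {z : Cell × Bool | ¬ inM M b.1 ∧ ∃ (k : PC) (v : Bool), .inr (.inl k, v) ∈ c0' ∧
      ¬ lst b.1 k.1 ∧ z = (cell b (.inl k), v)}) := by
   refine glue (p := p) (q := p0)
    ({z : Cell × Bool | ∃ (k : PC) (v : Bool), .inr (.inl k, v) ∈ c0 ∧ z = (cell a (.inl k), v)} ∪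
     {z : Cell × Bool | ¬ inM M b.1 ∧ ∃ (k : PC) (v : Bool), .inr (.inl k, v) ∈ c0' ∧
      ¬ lst b.1 k.1 ∧ z = (cell b (.inl k), v)}) ?_ hr ?_ ?_ ?_ ?_
   · refine Set.Finite.union (fin_lit (fun y => (cell a (.inl y.1), y.2)) c0) ?_
     refine (fin_lit (fun y => (cell b (.inl y.1), y.2)) c0').subset ?_
     rintro z ⟨-, k, v, h, -, h'⟩
     exact ⟨k, v, h, h'⟩
   · intro x v v' h1 h2
     have h3 : inM M x := inM_cn.1 hp0 _ h2
     exact p0.uc _ _ _ (hq _ h1 h3) h2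
   · rintro x v v' h1 (⟨k, w, hk, h2⟩ | ⟨hM, k, w, hk, hl, h2⟩)
     · rw [Prod.mk.injEq] at h2
       obtain ⟨rfl, rfl⟩ := h2
       have hkM : inM M k := inM_of_lit hc0 hk
       have h3 := hpl k v' hkM ⟨_, v, h1⟩ hk
       obtain ⟨h4, -⟩ : (free a.1 (.inl k) → (cell a (.inl k), v') ∈ p.c) ∧
         (¬ free a.1 (.inl k) → v' = false) := hka _ h3
       exact p.uc _ _ _ h1 (h4 (hfree k.1 (inM_prod.1 hkM).1))
     · rw [Prod.mk.injEq] at h2
       obtain ⟨rfl, rfl⟩ := h2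
       have hkM : inM M k := inM_of_lit hc0' hk
       have h3 := hpl' k v' hkM ⟨_, v, h1⟩ hk
       obtain ⟨h4, -⟩ : (free b.1 (.inl k) → (cell b (.inl k), v') ∈ p.c) ∧
         (¬ free b.1 (.inl k) → v' = false) := hkb _ h3
       exact p.uc _ _ _ h1 (h4 hl)
   · rintro x v v' h1 (⟨k, w, hk, h2⟩ | ⟨hM, k, w, hk, hl, h2⟩)
     · rw [Prod.mk.injEq] at h2
       obtain ⟨rfl, rfl⟩ := h2
       have h3 : inM M (cell a (.inl k)) := inM_cn.1 hp0 _ h1
       exact absurd (inM_cell.1 h3).1 ha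
     · rw [Prod.mk.injEq] at h2
       obtain ⟨rfl, rfl⟩ := h2
       have h3 : inM M (cell b (.inl k)) := inM_cn.1 hp0 _ h1
       exact absurd (inM_cell.1 h3).1 hM
   · rintro x v v' (h1 | h1) (h2 | h2)
     · obtain ⟨k, w, hk, h3⟩ := h1
       obtain ⟨k', w', hk', h4⟩ := h2
       rw [Prod.mk.injEq] at h3 h4
       obtain ⟨rfl, rfl⟩ := h3
       obtain ⟨h5, rfl⟩ := h4
       obtain ⟨-, rfl⟩ := cell_inj h5
       exact kn_eq_val hka0 hka0 hk hk'
     · exact key x v v' h1 h2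
     · exact (key x v' v h2 h1).symm
     · obtain ⟨-, k, w, hk, -, h3⟩ := h1
       obtain ⟨-, k', w', hk', -, h4⟩ := h2
       rw [Prod.mk.injEq] at h3 h4
       obtain ⟨rfl, rfl⟩ := h3
       obtain ⟨h5, rfl⟩ := h4
       obtain ⟨-, rfl⟩ := cell_inj h5
       exact kn_eq_val hkb0 hkb0 hk hk'
  obtain ⟨t, ht, ht0, hS, -, -⟩ := hglue
  refine ⟨t, ht, ht0, ?_, ?_⟩
  · intro z hz
    match z, hz with
    | .inl u, hz => exact (hka _ (hlow (.inl u) trivial hz)).mono ht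
    | .inr (.inr u, v), hz => exact (hka _ (hlow (.inr (.inr u, v)) trivial hz)).mono ht
    | .inr (.inl k, v), hz =>
      refine ⟨fun _ => hS (Or.inl ⟨k, v, hz, rfl⟩), fun hf => absurd ?_ hf⟩
      exact hfree k.1 (inM_prod.1 (inM_of_lit hc0 hz)).1
  · by_cases hM : inM M b.1
    · rcases hb with ⟨-, h5⟩ | ⟨h5, -⟩ | ⟨h5, -⟩
      · rw [← h5]
        exact hkb0.mono ht0
      · exact absurd hM h5
      · exact absurd hM h5
    · intro z hz
      match z, hz with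
      | .inl u, hz => exact (hkb _ (hlow' (.inl u) trivial hz)).mono ht
      | .inr (.inr u, v), hz => exact (hkb _ (hlow' (.inr (.inr u, v)) trivial hz)).mono ht
      | .inr (.inl k, v), hz =>
        refine ⟨fun hf => hS (Or.inr ⟨hM, k, v, hz, hf, rfl⟩), fun hf => ?_⟩
        have hkM : inM M k.1 := (inM_prod.1 (inM_of_lit hc0' hz)).1
        rcases hb with ⟨h5, -⟩ | ⟨-, h5, -⟩ | ⟨-, -, h5⟩
        · exact absurd h5 hM
        · exfalso
          refine hf ?_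
          have h6 : a.1 = b.1 := (Prod.mk.inj h5).1
          have h7 := hfree k.1 hkM
          rw [h6] at h7
          exact h7
        · cases v with
          | false => rfl
          | true => exact absurd (h5 k hz) hf

end DLN
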