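import Pool.Agent.DLN.CRst
import Pool.Agent.DLN.CChi

/-! # Amalgamation for separating families (package C14)

(problem MP_c2fbea_gt, project DLN, part C)

Pure finite combinatorics. Let `m` be larger than all `l` which occur in the literals `.inl (⟨l, β⟩, s)` and
`.inr (.inr (⟨l, β⟩, n), v)` of `c0` and `c'` (finite lists). Let `g'' l := g0 l` for `l < m` and `g'' l := g l`
for `l ≥ m`, let `i` be fresh for `p` and `p0` (`fresh`), and `a := (up g'', i, 0)`. Let `S` be the set of all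
`(cell a k, v)` with `.inr (k, v) ∈ c0` or `.inr (k, v) ∈ c'`, and `k` free for `g''`. `p5` is the result of
`glue` for `p`, `p0`, `S`. Note `g0 l < g l` for all `l` (`hg` and `inM M g0`), and `h l < g l` for all `h` in
`M`.
* `p`, `p0`: a cell of `p0` is in `M`; entries of `p` on it are in `p0` by `hq`. `p`, `S` and `p0`, `S`: the cells
  of `S` have the fresh index `i`.
* within `S` (`cell a k = cell a k'` implies `k = k'`): both from `c0`: `kn_eq_val hk0 hk0`; both from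
  `c'`: `kn_eq_val hk' hk'`. `.inr (k, v') ∈ c0` and `.inr (k, v) ∈ c'`: `k` is in `M` (`hc0`), so
  `.inr (k, v') ∈ c` by `hcol`. If `k` is a plus column the cells of `(up g, 0, 0)` and `(up g, 0, 1)` are
  equal, and `hk`, `hk'` give `v = v'` (free: `p.uc`; not free: both are `false`). If `k = .inr (u, n)` then
  `u ∈ M`, `u.2 < g u.1`, so `k` is not free for `g`, and `hk`, `hk'` give `v = v' = false`.
* `Kn p5 a c0`: atoms `(⟨l, β⟩, s)`: `l < m`, so `g'' l = g0 l`, true by `hk0`. Columns `(k, v)`: if `k` is free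
  for `g''` the entry is in `S`. If it is not free and `v = true`: by `hk0` `k` is free for `g0`; a low
  column `⟨l, β⟩` has `l < m` and is free for `g''`, a contradiction; for a plus column `(h, n)`, `h` in
  `M`: `h l < g l = g'' l` for all `l ≥ m`, so `¬ lst (up g'') h`, a contradiction.
* `Kn p5 a c'`: atoms `(⟨l, β⟩, true)`: `g'' l = g0 l < g l ≤ β`. Atoms `(⟨l, β⟩, false)`: `β < g0 l` by `hlb`.
  Columns `(k, v)` not free for `g''` with `v = true`: `k` is free for `g` by `hk'`; low column: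
  `g'' l = g0 l < g l ≤ β`, so free for `g''`; plus column `(h, n)`: `¬ lst (up g) h`, and `g'' l = g l` for
  `l ≥ m`, so `¬ lst (up g'') h`. -/

namespace DLN

open Cardinal STP

/-- the bound of a literal -/
private def bl : Lit → ℕ
  | .inl (u, _) => u.1 + 1
  | .inr (.inr (u, _), _) => u.1 + 1
  | .inr (.inl _, _) => 0

private theorem exists_bound (b : Cod) : ∃ m, ∀ z ∈ b, bl z ≤ m := by
  induction b with
  | nil => exact ⟨0, fun z hz => absurd hz List.not_mem_nil⟩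
  | cons y b ih =>
    obtain ⟨m, hm⟩ := ih
    refine ⟨max (bl y) m, fun z hz => ?_⟩
    rcases List.mem_cons.1 hz with rfl | hz
    · exact le_max_left _ _
    · exact (hm z hz).trans (le_max_right _ _)

private theorem cell_inj' {a : Row} {k k' : Col} (h : cell a k = cell a k') : k = k' := by
  rcases k with k | k <;> rcases k' with k' | k'
  · simp only [cell, Sum.inl.injEq, Prod.mk.injEq, true_and] at h
    rw [h]
  · simp [cell] at h
  · simp [cell] at h
  · simp only [cell, Sum.inr.injEq, Prod.mk.injEq, true_and] at h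
    rw [h]

private theorem ix_cell (a : Row) (k : Col) : ix (cell a k) = a.2.1 := by
  rcases k with k | k <;> rfl

theorem amal_nsep {M : Set Co} {p p0 : Cn} {g g0 : Df} {c c' c0 : Cod}
    (hp0 : inM M p0) (hg0 : inM M g0) (hc0 : inM M c0)
    (hr : p.r ⊆ p0.r) (hq : ∀ z ∈ p.c, inM M z.1 → z ∈ p0.c)
    (hk : Kn p (up g, 0, 0) c) (hk' : Kn p (up g, 0, 1) c') (hk0 : Kn p0 (up g0, 0, 0) c0)
    (hcol : ∀ (k : Col) (v v' : Bool), inM M k → .inr (k, v) ∈ c' → .inr (k, v') ∈ c0 →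
      .inr (k, v') ∈ c)
    (hg : ∀ u ∈ M, u.2 < g u.1) (hlb : ∀ u : Co, .inl (u, false) ∈ c' → u.2 < g0 u.1) :
    ∃ (p5 : Cn) (a : Row), InZ a.1 ∧ p5 ≤ p ∧ p5 ≤ p0 ∧ Kn p5 a c0 ∧ Kn p5 a c' := by
  classical
  obtain ⟨m, hm⟩ := exists_bound (c0 ++ c')
  have hm0 : ∀ z ∈ c0, bl z ≤ m := fun z hz => hm z (List.mem_append_left _ hz)
  have hm' : ∀ z ∈ c', bl z ≤ m := fun z hz => hm z (List.mem_append_right _ hz)
  obtain ⟨i, -, hi1, hi2⟩ := fresh p p0 0
  obtain ⟨g2, hg2⟩ : ∃ g2 : Df, g2 = fun l => if l < m then g0 l else g l := ⟨_, rfl⟩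
  have hlt : ∀ l, g0 l < g l := fun l => hg ⟨l, g0 l⟩ (inM_df.1 hg0 l)
  have hlo : ∀ l, l < m → g2 l = g0 l := fun l hl => by rw [hg2]; exact if_pos hl
  have hhi : ∀ l, m ≤ l → g2 l = g l := fun l hl => by rw [hg2]; exact if_neg (not_lt.2 hl)
  have hle : ∀ l, g2 l ≤ g l := fun l => by
    rcases lt_or_ge l m with hl | hl
    · rw [hlo l hl]
      exact (hlt l).le
    · rw [hhi l hl]
  have hplus : ∀ h : Df, lst (up g2) h → lst (up g) h := by
    rintro h ⟨n, hn⟩
    refine ⟨max n m, fun l hl => ?_⟩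
    have h1 := hn l (le_of_max_le_left hl)
    have h2 : up g l = up g2 l := by
      change (g l : WithTop (K l)) = (g2 l : WithTop (K l))
      rw [hhi l (le_of_max_le_right hl)]
    rw [h2]
    exact h1
  have hnM : ∀ h : Df, inM M h → ¬ lst (up g) h := by
    rintro h hh ⟨n, hn⟩
    have h1 : (g n : WithTop (K n)) ≤ (h n : WithTop (K n)) := hn n le_rfl
    have h2 := hg ⟨n, h n⟩ (inM_df.1 hh n)
    exact absurd (WithTop.coe_le_coe.1 h1) (not_le.2 h2)
  have hinM : ∀ k v, (.inr (k, v) : Lit) ∈ c0 → inM M k := fun k v h =>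
    (inM_mk.1 (inM_inr.1 (inM_list.1 hc0 _ h))).1
  have hfree0 : ∀ k v, (.inr (k, v) : Lit) ∈ c0 → ¬ free (up g2) k → v = false := by
    intro k v hkv hnf
    refine (hk0 _ hkv).2 fun hf => hnf ?_
    rcases k with ⟨h, n⟩ | ⟨u, n⟩
    · have h1 : inM M h := (inM_mk.1 (inM_inl.1 (hinM _ _ hkv))).1
      exact fun h2 => hnM h h1 (hplus h h2)
    · have h1 : u.1 < m := hm0 _ hkv
      change (g2 u.1 : WithTop (K u.1)) ≤ _
      rw [hlo _ h1]
      exact hf
  have hfree' : ∀ k v, (.inr (k, v) : Lit) ∈ c' → ¬ free (up g2) k → v = false := by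
    intro k v hkv hnf
    refine (hk' _ hkv).2 fun hf => hnf ?_
    rcases k with ⟨h, n⟩ | ⟨u, n⟩
    · exact fun h2 => hf (hplus h h2)
    · change (g2 u.1 : WithTop (K u.1)) ≤ _
      exact (WithTop.coe_le_coe.2 (hle u.1)).trans hf
  have hag : ∀ k v v', (.inr (k, v) : Lit) ∈ c' → (.inr (k, v') : Lit) ∈ c0 → v = v' := by
    intro k v v' h1 h2
    have h3 := hcol k v v' (hinM _ _ h2) h1 h2
    by_cases hf : free (up g) k
    · rcases k with k | ⟨u, n⟩
      · exact p.uc _ _ _ ((hk' _ h1).1 hf) ((hk _ h3).1 hf)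
      · have h4 : u ∈ M := inM_co.1 (inM_mk.1 (inM_inr.1 (hinM _ _ h2))).1
        have h5 : (g u.1 : WithTop (K u.1)) ≤ (u.2 : WithTop (K u.1)) := hf
        exact absurd (WithTop.coe_le_coe.1 h5) (not_le.2 (hg u h4))
    · rw [(hk' _ h1).2 hf, (hk _ h3).2 hf]
  let a : Row := (up g2, i, 0)
  let S : Set (Cell × Bool) := {y | ∃ k v, y = (cell a k, v) ∧
    ((.inr (k, v) : Lit) ∈ c0 ∨ (.inr (k, v) : Lit) ∈ c') ∧ free (up g2) k}
  have hS : S.Finite := by
    have h1 : (⋃ z ∈ {z | z ∈ c0 ++ c'}, {y : Cell × Bool | ∃ k v, z = .inr (k, v) ∧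
        y = (cell a k, v)}).Finite := by
      refine (List.finite_toSet (c0 ++ c')).biUnion fun z _ => ?_
      refine Set.Subsingleton.finite ?_
      rintro y ⟨k, v, h1, h2⟩ y' ⟨k', v', h3, h4⟩
      rw [h1] at h3
      simp only [Sum.inr.injEq, Prod.mk.injEq] at h3
      rw [h2, h4, h3.1, h3.2]
    refine h1.subset ?_
    rintro y ⟨k, v, h1, h2, -⟩
    refine Set.mem_biUnion (x := (.inr (k, v) : Lit)) ?_ ⟨k, v, rfl, h1⟩
    exact List.mem_append.2 h2
  have e1 : ∀ x v v', (x, v) ∈ p.c → (x, v') ∈ p0.c → v = v' := by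
    intro x v v' h1 h2
    exact p0.uc x v v' (hq (x, v) h1 (inM_cn.1 hp0 (x, v') h2)) h2
  have e2 : ∀ x v v', (x, v) ∈ p.c → (x, v') ∈ S → v = v' := by
    rintro x v v' h1 ⟨k, w, h2, -, -⟩
    rw [Prod.mk.injEq] at h2
    refine absurd ?_ (hi1 _ h1)
    change ix x = i
    rw [h2.1, ix_cell]
  have e3 : ∀ x v v', (x, v) ∈ p0.c → (x, v') ∈ S → v = v' := by
    rintro x v v' h1 ⟨k, w, h2, -, -⟩
    rw [Prod.mk.injEq] at h2
    refine absurd ?_ (hi2 _ h1)
    change ix x = i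
    rw [h2.1, ix_cell]
  have e4 : ∀ x v v', (x, v) ∈ S → (x, v') ∈ S → v = v' := by
    rintro x v v' ⟨k, w, h1, h2, -⟩ ⟨k', w', h3, h4, -⟩
    rw [Prod.mk.injEq] at h1 h3
    obtain ⟨rfl, rfl⟩ := h1
    obtain ⟨h3, rfl⟩ := h3
    obtain rfl := cell_inj' h3
    rcases h2 with h2 | h2 <;> rcases h4 with h4 | h4
    · exact kn_eq_val hk0 hk0 h2 h4
    · exact (hag k _ _ h4 h2).symm
    · exact hag k _ _ h2 h4
    · exact kn_eq_val hk' hk' h2 h4
  obtain ⟨t, ht1, ht2, hSt, -, -⟩ := glue (p := p) (q := p0) S hS hr e1 e2 e3 e4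
  refine ⟨t, a, InZ_up g2, ht1, ht2, ?_, ?_⟩
  · intro z hz
    rcases z with ⟨u, s⟩ | ⟨k, v⟩
    · have h1 : u.1 < m := hm0 _ hz
      have h2 := hk0 _ hz
      cases s
      · change ¬ (g2 u.1 : WithTop (K u.1)) ≤ _
        rw [hlo _ h1]
        exact h2
      · change (g2 u.1 : WithTop (K u.1)) ≤ _
        rw [hlo _ h1]
        exact h2
    · exact ⟨fun hf => hSt ⟨k, v, rfl, Or.inl hz, hf⟩, hfree0 k v hz⟩
  · intro z hz
    rcases z with ⟨u, s⟩ | ⟨k, v⟩
    · have h1 : u.1 < m := hm' _ hz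
      have h2 := hk' _ hz
      cases s
      · change ¬ (g2 u.1 : WithTop (K u.1)) ≤ _
        rw [hlo _ h1, WithTop.coe_le_coe, not_le]
        exact hlb u hz
      · change (g2 u.1 : WithTop (K u.1)) ≤ _
        exact (WithTop.coe_le_coe.2 (hle u.1)).trans h2
    · exact ⟨fun hf => hSt ⟨k, v, rfl, Or.inr hz, hf⟩, hfree' k v hz⟩

end DLN
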