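import Pool.Agent.DLN.Sup

/-! # Supports of the basic types (package C01)

(problem MP_c2fbea_gt, project DLN, part C)

`#Th = 2^ℵ₀` (`Th = Set ℕ`, `Cardinal.mk_set`), so `ℵ₀ ≤ #Th`, `#Th * #Th = #Th`,
`#Th ^ ℵ₀ = #Th` (`Cardinal.continuum_power_aleph0`, or `← power_mul`).
`SpL X` has the fields `cnt` (supports are countable) and `sml` (for `#M ≤ #Th` there are at most `#Th`
objects with support in `M`).
* `ℕ`, `Bool`, `Th`: the support is empty, and the whole type has size `≤ #Th`.
* `Co`: the support of `u` is `{u}`, so the objects with support in `M` are the elements of `M`.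
* `Gf`: the support of `g` has at most one element `⟨l, k⟩` for every `l` (`WithTop.coe_injective`), so it
  is countable. The map `g ↦ fun l => if g l = ⊤ then none else some ⟨⟨l, k⟩, _⟩` (with `g l = ↑k`) from
  `{g | Sp.sp g ⊆ M}` to `ℕ → Option M` is injective, and `#(ℕ → Option M) = (#M + 1) ^ ℵ₀ ≤ #Th`.
* `Df`: the same (`h` is determined by `l ↦ ⟨l, h l⟩ ∈ M`).
* Products and sums: `Sp.sp (x, y) = Sp.sp x ∪ Sp.sp y`; `{z | Sp.sp z ⊆ M}` embeds in the product
  (sum) of `{x | Sp.sp x ⊆ M}` and `{y | Sp.sp y ⊆ M}` (`Cardinal.mk_le_of_injective`). -/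

namespace DLN

open Cardinal STP

private theorem th_eq : #Th = 𝔠 := by
  rw [Cardinal.mk_set, Cardinal.mk_nat, Cardinal.two_power_aleph0]

theorem aleph0_le_th : ℵ₀ ≤ #Th := by
  rw [th_eq]
  exact Cardinal.aleph0_le_continuum

theorem th_mul : #Th * #Th = #Th := by
  rw [th_eq]
  exact Cardinal.continuum_mul_self

theorem th_pow : #Th ^ ℵ₀ = #Th := by
  rw [th_eq]
  exact Cardinal.continuum_power_aleph0

instance : SpL ℕ := ⟨fun _ => Set.countable_empty, fun _ _ =>
  (Cardinal.mk_set_le _).trans (by rw [Cardinal.mk_nat]; exact aleph0_le_th)⟩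

instance : SpL Bool := ⟨fun _ => Set.countable_empty, fun _ _ =>
  (Cardinal.mk_set_le _).trans (Cardinal.mk_le_aleph0.trans aleph0_le_th)⟩

instance : SpL Th := ⟨fun _ => Set.countable_empty, fun _ _ => Cardinal.mk_set_le _⟩

instance : SpL Co := ⟨fun _ => Set.countable_singleton _, fun M hM =>
  (Cardinal.mk_le_mk_of_subset (t := M) fun _ hx => Set.singleton_subset_iff.1 hx).trans hM⟩

private theorem pow_le {M : Set Co} (hM : #M ≤ #Th) : #(ℕ → Option M) ≤ #Th := by
  have h1 : #(Option M) ≤ #Th := by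
    rw [Cardinal.mk_option]
    exact Cardinal.add_le_of_le aleph0_le_th hM (Cardinal.one_le_aleph0.trans aleph0_le_th)
  calc #(ℕ → Option M) = #(Option M) ^ #ℕ := (Cardinal.power_def _ _).symm
    _ = #(Option M) ^ ℵ₀ := by rw [Cardinal.mk_nat]
    _ ≤ #Th ^ ℵ₀ := Cardinal.power_le_power_right h1
    _ = #Th := th_pow

instance : SpL Gf where
  cnt g := by
    refine Set.countable_of_injective_of_countable_image (f := Sigma.fst) ?_
      (Set.to_countable _)
    rintro ⟨l, k⟩ hk ⟨l', k'⟩ hk' h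
    have h' : l = l' := h
    subst h'
    have h1 : g l = (k : WithTop (K l)) := hk
    have h2 : g l = (k' : WithTop (K l)) := hk'
    rw [h1] at h2
    rw [WithTop.coe_injective h2]
  sml M hM := by
    classical
    refine le_trans (Cardinal.mk_le_of_injective (f := fun (g : {x : Gf | Sp.sp x ⊆ M}) (l : ℕ) =>
      if h : g.1 l = ⊤ then (none : Option M) else
        some ⟨⟨l, (g.1 l).untop h⟩, g.2 (WithTop.coe_untop _ h).symm⟩) ?_) (pow_le hM)
    intro g g' hgg
    apply Subtype.ext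
    funext l
    have h1 := congrFun hgg l
    by_cases h : g.1 l = ⊤
    · by_cases h' : g'.1 l = ⊤
      · rw [h, h']
      · simp [h, h'] at h1
    · by_cases h' : g'.1 l = ⊤
      · simp [h, h'] at h1
      · simp only [h, h', dif_neg, not_false_eq_true] at h1
        have h2 := Option.some.inj h1
        have h3 := congrArg Subtype.val h2
        simp only [Sigma.mk.injEq, heq_eq_eq, true_and] at h3
        rw [← WithTop.coe_untop _ h, ← WithTop.coe_untop _ h', h3]

instance : SpL Df where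
  cnt g := by
    refine Set.countable_of_injective_of_countable_image (f := Sigma.fst) ?_
      (Set.to_countable _)
    rintro ⟨l, k⟩ hk ⟨l', k'⟩ hk' h
    have h' : l = l' := h
    subst h'
    have h1 : g l = k := hk
    have h2 : g l = k' := hk'
    rw [← h1, ← h2]
  sml M hM := by
    refine le_trans (Cardinal.mk_le_of_injective (f := fun (g : {x : Df | Sp.sp x ⊆ M}) (l : ℕ) =>
      (some ⟨⟨l, g.1 l⟩, g.2 rfl⟩ : Option M)) ?_) (pow_le hM)
    intro g g' hgg
    apply Subtype.ext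
    funext l
    have h1 := congrFun hgg l
    have h2 := Option.some.inj h1
    have h3 := congrArg Subtype.val h2
    simpa only [Sigma.mk.injEq, heq_eq_eq, true_and] using h3

instance {X Y : Type} [Sp X] [Sp Y] [SpL X] [SpL Y] : SpL (X × Y) where
  cnt z := (SpL.cnt z.1).union (SpL.cnt z.2)
  sml M hM := by
    have h1 : #({x : X | Sp.sp x ⊆ M} × {y : Y | Sp.sp y ⊆ M}) ≤ #Th := by
      rw [← Cardinal.mul_def, ← th_mul]
      exact mul_le_mul' (SpL.sml M hM) (SpL.sml M hM)
    refine le_trans (Cardinal.mk_le_of_injective (f := fun (z : {x : X × Y | Sp.sp x ⊆ M}) =>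
      ((⟨z.1.1, fun u hu => z.2 (Or.inl hu)⟩, ⟨z.1.2, fun u hu => z.2 (Or.inr hu)⟩) :
        {x : X | Sp.sp x ⊆ M} × {y : Y | Sp.sp y ⊆ M})) ?_) h1
    intro z z' hzz
    simp only [Prod.mk.injEq, Subtype.mk.injEq] at hzz
    exact Subtype.ext (Prod.ext hzz.1 hzz.2)

instance {X Y : Type} [Sp X] [Sp Y] [SpL X] [SpL Y] : SpL (X ⊕ Y) where
  cnt z := by
    rcases z with x | y
    · exact SpL.cnt x
    · exact SpL.cnt y
  sml M hM := by
    have h1 : #({x : X | Sp.sp x ⊆ M} ⊕ {y : Y | Sp.sp y ⊆ M}) ≤ #Th := by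
      rw [← Cardinal.add_def]
      exact Cardinal.add_le_of_le aleph0_le_th (SpL.sml M hM) (SpL.sml M hM)
    refine le_trans (Cardinal.mk_le_of_surjective (f := fun (z : {x : X | Sp.sp x ⊆ M} ⊕
      {y : Y | Sp.sp y ⊆ M}) => (z.elim (fun x => ⟨Sum.inl x.1, x.2⟩) fun y =>
        ⟨Sum.inr y.1, y.2⟩ : {x : X ⊕ Y | Sp.sp x ⊆ M})) ?_) h1
    rintro ⟨x | y, hz⟩
    · exact ⟨Sum.inl ⟨x, hz⟩, rfl⟩
    · exact ⟨Sum.inr ⟨y, hz⟩, rfl⟩

end DLN
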