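import Pool.Agent.DLN.Sup
import Pool.Agent.DLN.CSupA

/-! # Small models closed under a function (package C03)

(problem MP_c2fbea_gt, project DLN, part C)

`close`: iterate `ω₁` times. Let `W` be a well-ordered set of type `ω₁` (for example
`(Order.succ ℵ₀).ord.ToType` in `Type`, or `(aleph 1).ord.ToType`): `#W = ℵ₁ ≤ 2^ℵ₀ = #Th`
(`Order.succ_le_iff`, `Cardinal.cantor`), and every countable subset of `W` has a strict upper bound
(regularity of `ℵ₁`; if a countable set is unbounded then `W` is a countable union of the countable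
initial segments; `Ordinal` cofinality lemmas may also be used). Put
`Gx S := S ∪ ⋃ x ∈ {x | inM S x}, F x`. By `SpL.sml` and `hF`: `#S ≤ #Th` implies `#(Gx S) ≤ #Th` (a union of
at most `#Th` sets of size at most `#Th`: `Cardinal.mk_biUnion_le` or `mk_iUnion_le`, `th_mul`).
Define `N : W → Set Co` by well-founded recursion, `N ξ := A ∪ ⋃ η < ξ, Gx (N η)`. Then `#(N ξ) ≤ #Th`
by induction, and `Gx (N η) ⊆ N ξ` for `η < ξ`. Let `M := A ∪ ⋃ ξ, N ξ`; `#M ≤ #Th`. If `inM M x`: the
support of `x` is countable (`SpL.cnt`) and `N` is monotone, so `inM (N ξ) x` for some `ξ` (elements of `A`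
are in every `N ξ`), hence `F x ⊆ Gx (N ξ) ⊆ M` (take some `ξ' > ξ`).
`close2` is `close` for `X ⊕ Y`. -/

namespace DLN

open Cardinal STP

private theorem enumT {X : Type} {s : Set X} (h : #s ≤ #Th) :
    ∃ g : Th → Option X, ∀ x ∈ s, ∃ t, g t = some x := by
  classical
  obtain ⟨i⟩ := (Cardinal.le_def _ _).1 h
  refine ⟨fun t => if h : ∃ x : s, i x = t then some (h.choose : X) else none,
    fun x hx => ⟨i ⟨x, hx⟩, ?_⟩⟩
  have h1 : ∃ y : s, i y = i ⟨x, hx⟩ := ⟨_, rfl⟩
  beta_reduce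
  rw [dif_pos h1, i.injective h1.choose_spec]

private theorem enumN {X : Type} {s : Set X} (h : s.Countable) :
    ∃ g : ℕ → Option X, ∀ x ∈ s, ∃ n, g n = some x := by
  rcases s.eq_empty_or_nonempty with rfl | hne
  · exact ⟨fun _ => none, fun x hx => absurd hx (Set.notMem_empty x)⟩
  · obtain ⟨g, rfl⟩ := h.exists_eq_range hne
    refine ⟨fun n => some (g n), ?_⟩
    rintro _ ⟨n, rfl⟩
    exact ⟨n, rfl⟩

/-- the index set of the nodes -/
private abbrev Nd (A : Set Co) : Type := Option A ⊕ (Th × ℕ)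

/-- the arities of the nodes -/
private def Ar (A : Set Co) : Nd A → Type
  | .inl _ => Empty
  | .inr _ => ℕ

private theorem card_W (A : Set Co) (hA : #A ≤ #Th) : #(WType (Ar A)) ≤ #Th := by
  refine WType.cardinalMk_le_of_le' ?_
  have h0 : ℵ₀ ≤ #Th := aleph0_le_th
  have h1 : ∀ a : Nd A, #Th ^ Cardinal.lift.{0} #(Ar A a) ≤ #Th := by
    rintro (a | a)
    · have : #(Ar A (.inl a)) = 0 := Cardinal.mk_eq_zero_iff.2 (inferInstanceAs (IsEmpty Empty))
      rw [this, Cardinal.lift_zero, Cardinal.power_zero]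
      exact Cardinal.one_le_aleph0.trans h0
    · have : #(Ar A (.inr a)) = ℵ₀ := Cardinal.mk_nat
      rw [this, Cardinal.lift_aleph0, th_pow]
  refine (Cardinal.sum_le_sum _ (fun _ => #Th) h1).trans ?_
  rw [Cardinal.sum_const', Cardinal.mk_sum, Cardinal.mk_option, Cardinal.lift_id,
    Cardinal.lift_id, Cardinal.mk_prod, Cardinal.lift_id, Cardinal.lift_id, Cardinal.mk_nat]
  have h2 : #A + 1 + #Th * ℵ₀ ≤ #Th := by
    refine Cardinal.add_le_of_le h0 (Cardinal.add_le_of_le h0 hA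
      (Cardinal.one_le_aleph0.trans h0)) ?_
    calc #Th * ℵ₀ ≤ #Th * #Th := mul_le_mul_right h0 _
      _ = #Th := th_mul
  calc (#A + 1 + #Th * ℵ₀) * #Th ≤ #Th * #Th := mul_le_mul_left h2 _
    _ = #Th := th_mul

/-- evaluation of the trees -/
private def evW {X : Type} (A : Set Co) (g : Set Co → Th → Option X)
    (k : X → ℕ → Option Co) : WType (Ar A) → Option Co :=
  WType.elim (Option Co) fun z => match z with
    | ⟨.inl a, _⟩ => a.map Subtype.val
    | ⟨.inr (t, n), f⟩ => (g {u | ∃ b : ℕ, f b = some u} t).bind fun x => k x n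

theorem close {X : Type} [Sp X] [SpL X] (F : X → Set Co) (hF : ∀ x, (F x).Countable)
    (A : Set Co) (hA : #A ≤ #Th) :
    ∃ M : Set Co, A ⊆ M ∧ #M ≤ #Th ∧ ∀ x, inM M x → F x ⊆ M := by
  classical
  have h1 : ∀ S : Set Co, ∃ g : Th → Option X, #S ≤ #Th → ∀ x, Sp.sp x ⊆ S → ∃ t, g t = some x := by
    intro S
    by_cases hS : #S ≤ #Th
    · obtain ⟨g, hg⟩ := enumT (SpL.sml (X := X) S hS)
      exact ⟨g, fun _ x hx => hg x hx⟩
    · exact ⟨fun _ => none, fun h => absurd h hS⟩
  have h2 : ∀ x, ∃ k : ℕ → Option Co, ∀ u ∈ F x, ∃ n, k n = some u := fun x => enumN (hF x)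
  choose g hg using h1
  choose k hk using h2
  have hne : Nonempty (WType (Ar A)) := ⟨WType.mk (.inl none) Empty.elim⟩
  have hin : ∀ u ∈ {u | ∃ w, evW A g k w = some u}, ∃ w, evW A g k w = some u := fun u hu => hu
  refine ⟨{u | ∃ w, evW A g k w = some u}, fun a ha => ?_, ?_, fun x hx u hu => ?_⟩
  · exact ⟨WType.mk (.inl (some ⟨a, ha⟩)) Empty.elim, rfl⟩
  · choose! w hw using hin
    refine (Cardinal.mk_le_of_injective (f := fun u : {u | ∃ w, evW A g k w = some u} => w u.1)
      fun u v huv => ?_).trans (card_W A hA)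
    have e1 := hw u.1 u.2
    have e2 := hw v.1 v.2
    have e3 : w u.1 = w v.1 := huv
    rw [e3, e2] at e1
    exact Subtype.ext (Option.some.inj e1).symm
  · obtain ⟨e, he⟩ := enumN (SpL.cnt x)
    choose! w hw using hin
    let f : ℕ → WType (Ar A) := fun n => match e n with
      | some u => w u
      | none => WType.mk (.inl none) Empty.elim
    have hsp : Sp.sp x ⊆ {u | ∃ b : ℕ, evW A g k (f b) = some u} := by
      intro v hv
      obtain ⟨n, hn⟩ := he v hv
      refine ⟨n, ?_⟩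
      have : f n = w v := by simp only [f, hn]
      rw [this]
      exact hw v (hx hv)
    have hc : #{u | ∃ b : ℕ, evW A g k (f b) = some u} ≤ #Th := by
      refine le_trans ?_ aleph0_le_th
      have hin2 : ∀ u ∈ {u | ∃ b : ℕ, evW A g k (f b) = some u}, ∃ b : ℕ,
        evW A g k (f b) = some u := fun u hu => hu
      choose! w2 hw2 using hin2
      rw [← Cardinal.mk_nat]
      refine Cardinal.mk_le_of_injective
        (f := fun u : {u | ∃ b : ℕ, evW A g k (f b) = some u} => w2 u.1) fun u v huv => ?_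
      have e1 := hw2 u.1 u.2
      have e2 := hw2 v.1 v.2
      have e3 : w2 u.1 = w2 v.1 := huv
      rw [e3, e2] at e1
      exact Subtype.ext (Option.some.inj e1).symm
    obtain ⟨t, ht⟩ := hg _ hc x hsp
    obtain ⟨n, hn⟩ := hk x u hu
    refine ⟨WType.mk (.inr (t, n)) f, ?_⟩
    change ((g {u | ∃ b : ℕ, evW A g k (f b) = some u} t).bind fun x => k x n) = some u
    rw [ht]
    exact hn

theorem close2 {X Y : Type} [Sp X] [SpL X] [Sp Y] [SpL Y] (F : X → Set Co) (G : Y → Set Co)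
    (hF : ∀ x, (F x).Countable) (hG : ∀ y, (G y).Countable) (A : Set Co) (hA : #A ≤ #Th) :
    ∃ M : Set Co, A ⊆ M ∧ #M ≤ #Th ∧ (∀ x, inM M x → F x ⊆ M) ∧ ∀ y, inM M y → G y ⊆ M := by
  obtain ⟨M, h1, h2, h3⟩ := close (X := X ⊕ Y) (Sum.elim F G) (by
    rintro (x | y)
    · exact hF x
    · exact hG y) A hA
  exact ⟨M, h1, h2, fun x hx => h3 (.inl x) (inM_inl.2 hx), fun y hy => h3 (.inr y) (inM_inr.2 hy)⟩

end DLN
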