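import Pool.Agent.DLN.CChi
import Pool.Agent.DLN.CSupA

/-! # Few types: one class is cofinal (package C05)

(problem MP_c2fbea_gt, project DLN, part C)

* `card_low`: `#Co` is infinite, `#Th ≤ kap 0 = #(K 0) ≤ #Co`, and lists, products, sums, finite
  sets over types of size `≤ #Co` have size `≤ #Co`.
* `cofinal_class`: suppose that for every `t : T` there is `b t : Df` such that no `h'` with
  `f h' = t` satisfies `lst (up (b t)) h'`. Let `i : T → Co` be injective (`hT`). For `l : ℕ` the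
  set `{b t l | (i t).1 < l}` has size `< kap l` (`card_seg`). Let `h l` be a strict upper bound
  (`exists_ub`). For `t := f h` we get `b t l ≤ h l` for all `l > (i t).1`, that is
  `lst (up (b t)) h`, a contradiction. -/

namespace DLN

open Cardinal STP

/-- low literals -/
abbrev LL : Type := (Co × Bool) ⊕ (LC × Bool)

private theorem aleph_kap (l : ℕ) : ℵ₀ ≤ kap l := aleph0_le_th.trans (th_lt_kap l).le

private theorem th_le_co : #Th ≤ #Co := by
  refine (th_lt_kap 0).le.trans ?_
  rw [← mk_K 0]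
  exact Cardinal.mk_le_of_injective (f := fun k : K 0 => (⟨0, k⟩ : Co)) sigma_mk_injective

theorem card_low : #(List LL × List LL × Finset (ℕ × Th)) ≤ #Co := by
  have h0 : ℵ₀ ≤ #Co := aleph0_le_th.trans th_le_co
  have hm : ∀ a b : Cardinal.{0}, a ≤ #Co → b ≤ #Co → a * b ≤ #Co := fun a b ha hb =>
    (mul_le_mul' ha hb).trans (Cardinal.mul_eq_self h0).le
  have hb : #Bool ≤ #Co := (Cardinal.mk_le_aleph0 (α := Bool)).trans h0
  have hn : #ℕ ≤ #Co := (Cardinal.mk_le_aleph0 (α := ℕ)).trans h0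
  have hLL : #LL ≤ #Co := by
    simp only [Cardinal.mk_sum, Cardinal.mk_prod, Cardinal.lift_id]
    exact Cardinal.add_le_of_le h0 (hm _ _ le_rfl hb) (hm _ _ (hm _ _ le_rfl hn) hb)
  have hL : #(List LL) ≤ #Co := (Cardinal.mk_list_le_max LL).trans (max_le h0 hLL)
  have hT : #(ℕ × Th) ≤ #Co := by
    rw [Cardinal.mk_prod, Cardinal.lift_id, Cardinal.lift_id]
    exact hm _ _ hn th_le_co
  have hF : #(Finset (ℕ × Th)) ≤ #Co := by
    rw [Cardinal.mk_finset_of_infinite]
    exact hT
  simp only [Cardinal.mk_prod, Cardinal.lift_id]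
  exact hm _ _ hL (hm _ _ hL hF)

private theorem card_seg (l : ℕ) : #{u : Co | u.1 < l} < kap l := by
  induction l with
  | zero =>
    have e : {u : Co | u.1 < 0} = ∅ := by
      ext u
      exact ⟨fun h => absurd h (Nat.not_lt_zero _), fun h => absurd h (Set.notMem_empty _)⟩
    rw [e, Cardinal.mk_eq_zero]
    exact lt_of_lt_of_le Cardinal.aleph0_pos (aleph_kap 0)
  | succ l ih =>
    have e : {u : Co | u.1 < l + 1} ⊆
        {u : Co | u.1 < l} ∪ Set.range fun k : K l => (⟨l, k⟩ : Co) := by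
      rintro ⟨l', k⟩ h
      have h' : l' < l + 1 := h
      rcases Nat.lt_succ_iff_lt_or_eq.1 h' with h1 | h1
      · exact Or.inl h1
      · subst h1
        exact Or.inr ⟨k, rfl⟩
    have h2 : #(Set.range fun k : K l => (⟨l, k⟩ : Co)) ≤ kap l :=
      Cardinal.mk_range_le.trans (mk_K l).le
    calc #{u : Co | u.1 < l + 1} ≤ _ := Cardinal.mk_le_mk_of_subset e
      _ ≤ #{u : Co | u.1 < l} + #(Set.range fun k : K l => (⟨l, k⟩ : Co)) :=
          Cardinal.mk_union_le _ _
      _ ≤ kap l := Cardinal.add_le_of_le (aleph_kap l) ih.le h2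
      _ < kap (l + 1) := kap_lt (Nat.lt_succ_self l)

theorem cofinal_class {T : Type} (hT : #T ≤ #Co) (f : Df → T) :
    ∃ t, ∀ h : Df, ∃ h' : Df, f h' = t ∧ lst (up h) h' := by
  by_contra hcon
  push Not at hcon
  choose b hb using hcon
  obtain ⟨i⟩ := (Cardinal.le_def T Co).1 hT
  have hS : ∀ l, ∃ x : K l, ∀ t, (i t).1 < l → b t l < x := by
    intro l
    have h1 : #((fun t => b t l) '' {t | (i t).1 < l} : Set (K l)) < kap l := by
      refine lt_of_le_of_lt Cardinal.mk_image_le (lt_of_le_of_lt ?_ (card_seg l))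
      exact Cardinal.mk_le_of_injective (f := fun t : {t | (i t).1 < l} =>
        (⟨i t.1, t.2⟩ : {u : Co | u.1 < l})) fun t t' h =>
          Subtype.ext (i.injective (congrArg Subtype.val h))
    obtain ⟨x, hx⟩ := exists_ub _ h1
    exact ⟨x, fun t ht => hx _ ⟨t, ht, rfl⟩⟩
  choose h hh using hS
  refine hb (f h) h rfl ⟨(i (f h)).1 + 1, fun l hl => ?_⟩
  exact WithTop.coe_le_coe.2 (hh l (f h) hl).le

end DLN
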