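import Pool.Agent.DLN.CSupA

/-! # Supports of lists and of conditions (package C02)

(problem MP_c2fbea_gt, project DLN, part C)

* `List X`: the support of `l` is the finite union of the supports of its members. The map
  `l ↦ l.pmap ..` (or `List.attachWith`) from `{l | Sp.sp l ⊆ M}` to `List {x | Sp.sp x ⊆ M}` is
  injective, and `#(List α) ≤ max ℵ₀ #α` (`Cardinal.mk_list_le_max`).
* `Option X`, subtypes: clear (`{x : {x // s x} | ..}` embeds in `{x | Sp.sp x ⊆ M}`).
* `Cn`: the support of `p` is the finite union (over `z ∈ p.c`) of the supports of the cells `z.1`. A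
  condition `p` with `Sp.sp p ⊆ M` is determined by the finite set `p.r ⊆ ℕ × Th` and the finite set `p.c`
  of elements of `{x : Cell | Sp.sp x ⊆ M} × Bool`. For an infinite `α` the set of finite subsets of `α`
  has size `#α` (`Cardinal.mk_finset_of_infinite`; for arbitrary `α`: `#(Finset α) ≤ max ℵ₀ #α`, or use
  lists: `Set.Finite.toFinset`, `Finset.toList`). `#(ℕ × Th) ≤ #Th` and
  `#({x : Cell | Sp.sp x ⊆ M} × Bool) ≤ #Th` by the instances of `CSupA.lean`
  (`SpL.sml` for `Cell`, and `th_mul`). -/

namespace DLN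

open Cardinal STP

private theorem sml_of_inj {X Y : Type} [Sp X] [Sp Y] [SpL Y] (f : X → Y)
    (hf : Function.Injective f) (h : ∀ x, Sp.sp (f x) ⊆ Sp.sp x) (M : Set Co) (hM : #M ≤ #Th) :
    #{x : X | Sp.sp x ⊆ M} ≤ #Th := by
  refine le_trans ?_ (SpL.sml (X := Y) M hM)
  refine Cardinal.mk_le_of_injective
    (f := fun x : {x : X | Sp.sp x ⊆ M} =>
      (⟨f x.1, (h x.1).trans x.2⟩ : {y : Y | Sp.sp y ⊆ M})) ?_
  intro x y hxy
  have h1 : f x.1 = f y.1 := congrArg Subtype.val hxy
  exact Subtype.ext (hf h1)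

instance {X : Type} [Sp X] [SpL X] : SpL (List X) := by
  refine ⟨?_, ?_⟩
  · intro l
    have h : (Sp.sp l : Set Co) = ⋃ x ∈ {x | x ∈ l}, Sp.sp x := by
      ext u
      simp only [Set.mem_iUnion, Set.mem_setOf_eq, exists_prop]
      rfl
    rw [h]
    exact Set.Countable.biUnion (List.finite_toSet l).countable fun x _ => SpL.cnt x
  · intro M hM
    have h1 : #{l : List X | Sp.sp l ⊆ M} ≤ #(List {x : X | Sp.sp x ⊆ M}) := by
      refine Cardinal.mk_le_of_injective
        (f := fun l : {l : List X | Sp.sp l ⊆ M} =>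
          (l.1.pmap (fun x (hx : x ∈ {x : X | Sp.sp x ⊆ M}) =>
            (⟨x, hx⟩ : {x : X | Sp.sp x ⊆ M})) (fun x hx => (inM_list.1 l.2) x hx))) ?_
      intro l l' hll
      have h2 := congrArg (List.map Subtype.val) hll
      simp only [List.map_pmap] at h2
      rw [List.pmap_eq_map, List.pmap_eq_map] at h2
      simp only [List.map_id'] at h2
      exact Subtype.ext h2
    refine h1.trans ((Cardinal.mk_list_le_max _).trans ?_)
    exact max_le aleph0_le_th (SpL.sml M hM)

instance {X : Type} [Sp X] [SpL X] : SpL (Option X) := by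
  refine ⟨?_, ?_⟩
  · intro o
    refine (SpL.cnt (X := List X) o.toList).mono ?_
    rintro u ⟨x, rfl, hu⟩
    exact ⟨x, by simp, hu⟩
  · intro M hM
    refine sml_of_inj (Y := List X) (fun o => o.toList) ?_ ?_ M hM
    · intro o o' h
      cases o <;> cases o' <;> simp_all
    · rintro o u ⟨x, hx, hu⟩
      refine ⟨x, ?_, hu⟩
      simpa [Option.mem_toList] using hx

instance {X : Type} [Sp X] [SpL X] {s : X → Prop} : SpL {x : X // s x} := by
  refine ⟨?_, ?_⟩
  · intro x
    exact SpL.cnt (X := X) x.1
  · intro M hM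
    exact sml_of_inj (Y := X) (fun x => x.1) Subtype.val_injective (fun x => subset_rfl) M hM

instance : SpL Cn := by
  refine ⟨?_, ?_⟩
  · intro p
    have h : (Sp.sp p : Set Co) = ⋃ z ∈ p.c, Sp.sp z.1 := by
      ext u
      simp only [Set.mem_iUnion, exists_prop]
      rfl
    rw [h]
    exact Set.Countable.biUnion p.fc.countable fun z _ => SpL.cnt z.1
  · intro M hM
    refine sml_of_inj (Y := List (ℕ × Th) × List (Cell × Bool))
      (fun p => (p.fr.toFinset.toList, p.fc.toFinset.toList)) ?_ ?_ M hM
    · intro p q h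
      have h1 : p.fr.toFinset.toList = q.fr.toFinset.toList := congrArg Prod.fst h
      have h2 : p.fc.toFinset.toList = q.fc.toFinset.toList := congrArg Prod.snd h
      have h1' : ∀ z, z ∈ p.r ↔ z ∈ q.r := by
        intro z
        have e1 : z ∈ p.fr.toFinset.toList ↔ z ∈ p.r := by
          rw [Finset.mem_toList, Set.Finite.mem_toFinset]
        have e2 : z ∈ q.fr.toFinset.toList ↔ z ∈ q.r := by
          rw [Finset.mem_toList, Set.Finite.mem_toFinset]
        rw [← e1, ← e2, h1]
      have h2' : ∀ z, z ∈ p.c ↔ z ∈ q.c := by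
        intro z
        have e1 : z ∈ p.fc.toFinset.toList ↔ z ∈ p.c := by
          rw [Finset.mem_toList, Set.Finite.mem_toFinset]
        have e2 : z ∈ q.fc.toFinset.toList ↔ z ∈ q.c := by
          rw [Finset.mem_toList, Set.Finite.mem_toFinset]
        rw [← e1, ← e2, h2]
      exact Cn.ext (Set.ext h1') (Set.ext h2')
    · rintro p u (⟨z, hz, hu⟩ | ⟨z, hz, hu⟩)
      · rcases hu with hu | hu
        · exact absurd hu (Set.notMem_empty _)
        · exact absurd hu (Set.notMem_empty _)
      · rcases hu with hu | hu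
        · refine ⟨z, ?_, hu⟩
          have hz' : z ∈ p.fc.toFinset.toList := hz
          rwa [Finset.mem_toList, Set.Finite.mem_toFinset] at hz'
        · exact absurd hu (Set.notMem_empty _)

end DLN
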