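import Pool.Agent.DLN.CAmD
import Pool.Agent.DLN.CClose
import Pool.Agent.DLN.CSupB
import Pool.Agent.DLN.CCls

/-! # Discrete sets are bounded (package C11)

(problem MP_c2fbea_gt, project DLN, part C)

Suppose that for every `h : Df` there are `r ≤ q`, `a`, `a'` with `r ∈ Z a a'` and `¬ lst a.1.1 h`. By
`TDisc` choose for every `h` data `p_h ≤ q`, points `a_h`, `b_h`, codes `c_h`, `c'_h` with `p_h ∈ Z a_h b_h`,
`¬ lst a_h.1.1 h`, `Kn p_h a_h.1 c_h`, `Kn p_h b_h.1 c'_h` and (U): for all `a`, `b`, `r ≤ p_h` with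
`r ∈ Z a b`, `Kn r a.1 c_h`, `Kn r b.1 c'_h` we have `a = a_h`, `b = b_h`.
Type: `ty h` = (list of the low literals of `c_h`, the same for `c'_h` (`List.filterMap` to `LL`),
`p_h.fr.toFinset`). By `cofinal_class card_low ty` there is `t` such that
`T = {h | ty h = t}` is cofinal: `∀ h, ∃ h' ∈ T, lst (up h) h'`.
Model: `close2` for the functions `h ↦ ` support of the data of `h` (on `Df`) and
`x ↦ Sp.sp (h0 x)`, where for
`x = (q1, L, c1, c1', w) : Cn × List PC × Cod × Cod × (Row ⊕ Option Gf)` we choose, if possible,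
`h0 x = h0 ∈ T` with `Φ x h0`: (i) `q1.c ⊆ p_{h0}.c`; (ii) for `k ∈ L` and all `v`:
`.inr (.inl k, v) ∈ c_{h0} → .inr (.inl k, v) ∈ c1`, and the same for `c'_{h0}`, `c1'`; (iii) if `w = .inl b`
then `b_{h0}.1 = b`; if `w = .inr none` then the plus-rows (first two components) of `a_{h0}.1` and
`b_{h0}.1` are equal; if `w = .inr (some g')` then `¬ lst g' k.1` for all `k` with
`.inr (.inl k, true) ∈ c'_{h0}`. (`A = ∅`.) Let `M` be the model, `χ` from `exists_chi M`, and `h* ∈ T` with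
`lst (up χ) h*`. Write `p, a, b, c, c'` for the data of `h*`.
* `¬ lst a.1.1 h'` for every `h'` in `M` (`h' l < χ l` for all `l`, so `lst a.1.1 h'` would give
  `lst a.1.1 h*`), and `¬ inM M a.1.1` (otherwise `a.1.1 l < χ l` whenever `a.1.1 l ≠ ⊤`, and `a.1.1 ∈ Z`,
  so `lst a.1.1 χ`, `lst a.1.1 h*`).
* `x := (rs M p, L, c.filter (inM M), c'.filter (inM M), w)`, where `L` is a list of all `k` in `M` with
  `occ p k` (a finite set), `w = .inl b.1` if `inM M b.1`, otherwise `w = .inr none` if the plus-rows of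
  `a.1`, `b.1` are equal, otherwise `w = .inr (some g')` with `g'` from `exists_star M b.1.1`. `x` is in
  `M`, and `Φ x h*` (in the last case: `.inr (.inl k, true) ∈ c'` and `Kn p b.1 c'` show that `k` is free for
  `b.1`: `¬ lst b.1.1 k.1`, and `b.1.1 ≤ g'`, so `¬ lst g' k.1`). So `h0 := h0 x` satisfies `h0 ∈ T`,
  `Φ x h0`, `inM M h0`, and its data `p0, a0, b0, c0, c0'` are in `M`.
* `amal_dl` (with `a.1, b.1, a0.1, b0.1`) applies: `p.r = p0.r` and the low literals agree because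
  `ty h0 = ty h*`; in the third case of `hb`: `¬ lst g' k.1` and `k.1` is in `M`, so `¬ lst b.1.1 k.1`
  (fourth clause of `exists_star`). We get `p3 ≤ p`, `p3 ≤ p0` with `Kn p3 a.1 c0`, `Kn p3 b.1 c0'`, and
  `p3 ∈ Z a b` (`RO.down`). By (U) for `h0`: `a = a0`. But `a0` is in `M` and `a.1.1` is not. -/

namespace DLN

open Cardinal STP

/-- the low part of a literal -/
private def lowf : Lit → Option LL
  | .inl x => some (.inl x)
  | .inr (.inl _, _) => none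
  | .inr (.inr c, v) => some (.inr (c, v))

private theorem lowf_some {z : Lit} (h : isLow z) : ∃ y, lowf z = some y := by
  match z, h with
  | .inl x, _ => exact ⟨_, rfl⟩
  | .inr (.inr c, v), _ => exact ⟨_, rfl⟩

private theorem lowf_inj {z z' : Lit} {y : LL} (h : lowf z = some y) (h' : lowf z' = some y) :
    z = z' := by
  match z, z', h, h' with
  | .inl x, .inl x', h, h' =>
    have h1 := Option.some.inj (h.trans h'.symm)
    rw [Sum.inl.inj h1]
  | .inl x, .inr (.inr c, v), h, h' =>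
    have h1 := Option.some.inj (h.trans h'.symm)
    exact absurd h1 (by simp)
  | .inr (.inr c, v), .inl x, h, h' =>
    have h1 := Option.some.inj (h.trans h'.symm)
    exact absurd h1 (by simp)
  | .inr (.inr c, v), .inr (.inr c', v'), h, h' =>
    have h1 := Sum.inr.inj (Option.some.inj (h.trans h'.symm))
    rw [Prod.mk.injEq] at h1
    rw [h1.1, h1.2]

private theorem low_mem {l l' : Cod} (h : l.filterMap lowf = l'.filterMap lowf) {z : Lit}
    (hz : isLow z) (hl : z ∈ l) : z ∈ l' := by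
  obtain ⟨y, hy⟩ := lowf_some hz
  have h1 : y ∈ l.filterMap lowf := List.mem_filterMap.2 ⟨z, hl, hy⟩
  rw [h] at h1
  obtain ⟨z', hz', hy'⟩ := List.mem_filterMap.1 h1
  rw [lowf_inj hy hy']
  exact hz'

/-- the plus column of a cell -/
private def pcol : Cell × Bool → Option PC
  | (.inl (_, k), _) => some k
  | (.inr _, _) => none

private theorem occ_fin (p : Cn) : {k | occ p k}.Finite := by
  have h1 : (pcol '' p.c).Finite := p.fc.image _
  have h2 : (Option.some ⁻¹' (pcol '' p.c)).Finite :=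
    h1.preimage (Option.some_injective _).injOn
  refine h2.subset ?_
  rintro k ⟨x, v, hx⟩
  exact ⟨(.inl (x, k), v), hx, rfl⟩

private theorem lst_le {g : Gf} {h h' χ : Df} (h1 : lst g h) (h2 : ∀ l, h l < χ l)
    (h3 : lst (up χ) h') : lst g h' := by
  obtain ⟨m, hm⟩ := h1
  obtain ⟨m', hm'⟩ := h3
  refine ⟨max m m', fun l hl => ?_⟩
  have e1 := hm l (le_trans (le_max_left _ _) hl)
  have e2 : ((h l : K l) : WithTop (K l)) ≤ up χ l := WithTop.coe_le_coe.2 (h2 l).le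
  exact e1.trans (e2.trans (hm' l (le_trans (le_max_right _ _) hl)))

private theorem lst_mono {g g' : Gf} {h : Df} (h1 : ∀ l, g l ≤ g' l) (h2 : lst g' h) :
    lst g h := by
  obtain ⟨m, hm⟩ := h2
  exact ⟨m, fun l hl => (h1 l).trans (hm l hl)⟩

private theorem not_inM_of {M : Set Co} {g : Gf} {χ h' : Df} (hχ : ∀ u ∈ M, u.2 < χ u.1)
    (hg : InZ g) (h3 : lst (up χ) h') (hn : ¬ lst g h') : ¬ inM M g := by
  intro hM
  apply hn
  obtain ⟨m, hm⟩ := hg
  obtain ⟨m', hm'⟩ := h3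
  refine ⟨max m m', fun l hl => ?_⟩
  have e1 := hm l (le_trans (le_max_left _ _) hl)
  obtain ⟨k, hk⟩ := WithTop.ne_top_iff_exists.1 e1
  have e2 := hχ ⟨l, k⟩ (inM_gf.1 hM ⟨l, k⟩ hk.symm)
  have e3 : (k : WithTop (K l)) ≤ up χ l := WithTop.coe_le_coe.2 e2.le
  rw [← hk]
  exact e3.trans (hm' l (le_trans (le_max_right _ _) hl))

theorem bounded (q : Cn) (Z : Pt → Pt → RO Cn) (hZ : TDisc rho q Z) :
    ∃ h : Df, ∀ r ≤ q, ∀ a a', r ∈ Z a a' → lst a.1.1 h := by
  classical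
  by_contra hcon
  have hdat : ∀ h : Df, ∃ (p : Cn) (a b : Pt) (c c' : Cod), p ≤ q ∧ p ∈ Z a b ∧
      ¬ lst a.1.1 h ∧ Kn p a.1 c ∧ Kn p b.1 c' ∧
      ∀ x y : Pt, ∀ r ≤ p, r ∈ Z x y → Kn r x.1 c → Kn r y.1 c' → x = a ∧ y = b := by
    intro h
    by_contra h1
    refine hcon ⟨h, fun r hr a a' hra => ?_⟩
    by_contra h2
    obtain ⟨-, r', hr', b, b', h3, h4, h5⟩ := hZ r hr a a' hra
    exact h1 ⟨r', a, a', b, b', hr'.trans hr, (Z a a').down hr' hra, h2, h3, h4,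
      fun x y r'' hr'' h6 h7 h8 => h5 x y r'' hr'' h6 h7 h8⟩
  choose p a b c c' hpq hpZ hnl hka hkb hU using hdat
  let ty : Df → List LL × List LL × Finset (ℕ × Th) := fun h =>
    ((c h).filterMap lowf, (c' h).filterMap lowf, (p h).fr.toFinset)
  obtain ⟨t, ht⟩ := cofinal_class card_low ty
  have hne : Nonempty Df := by
    obtain ⟨g, -, -⟩ := exists_chi ∅ (by simp)
    exact ⟨g⟩
  let W : Row ⊕ Option Gf → Df → Prop := fun w h0 => match w with
    | .inl b1 => (b h0).1 = b1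
    | .inr none => ((a h0).1.1, (a h0).1.2.1) = ((b h0).1.1, (b h0).1.2.1)
    | .inr (some g') => ∀ k : PC, .inr (.inl k, true) ∈ c' h0 → ¬ lst g' k.1
  let Φ : Cn × List PC × Cod × Cod × (Row ⊕ Option Gf) → Df → Prop := fun x h0 =>
    ty h0 = t ∧ x.1.c ⊆ (p h0).c ∧
    (∀ k ∈ x.2.1, ∀ v : Bool, (.inr (.inl k, v) ∈ c h0 → .inr (.inl k, v) ∈ x.2.2.1) ∧
      (.inr (.inl k, v) ∈ c' h0 → .inr (.inl k, v) ∈ x.2.2.2.1)) ∧ W x.2.2.2.2 h0
  let sel : Cn × List PC × Cod × Cod × (Row ⊕ Option Gf) → Df := fun x =>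
    Classical.epsilon fun h0 => Φ x h0
  let D : Df → Cn × Pt × Pt × Cod × Cod := fun h => (p h, a h, b h, c h, c' h)
  obtain ⟨M, -, hM, hF, hG⟩ := close2 (fun h : Df => Sp.sp (D h)) (fun x => Sp.sp (sel x))
    (fun h => SpL.cnt (D h)) (fun x => SpL.cnt (sel x)) ∅ (by simp)
  obtain ⟨χ, hχ, -⟩ := exists_chi M hM
  obtain ⟨hs, hst, hsχ⟩ := ht χ
  -- the rows of `h*`
  have hfree : ∀ h : Df, inM M h → ¬ lst (a hs).1.1 h := fun h hh hl =>
    hnl hs (lst_le hl (fun l => hχ ⟨l, h l⟩ (inM_df.1 hh l)) hsχ)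
  have ha : ¬ inM M (a hs).1.1 := not_inM_of hχ (a hs).2 hsχ (hnl hs)
  -- the last component
  have hw : ∃ w : Row ⊕ Option Gf, inM M w ∧ W w hs ∧ ∀ h0, W w h0 → inM M (c' h0) →
      (inM M (b hs).1.1 ∧ (b h0).1 = (b hs).1) ∨
      (¬ inM M (b hs).1.1 ∧ ((a hs).1.1, (a hs).1.2.1) = ((b hs).1.1, (b hs).1.2.1) ∧
        ((a h0).1.1, (a h0).1.2.1) = ((b h0).1.1, (b h0).1.2.1)) ∨
      (¬ inM M (b hs).1.1 ∧ ((a hs).1.1, (a hs).1.2.1) ≠ ((b hs).1.1, (b hs).1.2.1) ∧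
        ∀ k : PC, .inr (.inl k, true) ∈ c' h0 → ¬ lst (b hs).1.1 k.1) := by
    by_cases h1 : inM M (b hs).1.1
    · refine ⟨.inl (b hs).1, ?_, rfl, fun h0 h2 _ => Or.inl ⟨h1, h2⟩⟩
      rw [inM_inl, inM_prod, inM_prod]
      exact ⟨h1, inM_nat _, inM_nat _⟩
    · by_cases h2 : ((a hs).1.1, (a hs).1.2.1) = ((b hs).1.1, (b hs).1.2.1)
      · refine ⟨.inr none, ?_, h2, fun h0 h3 _ => Or.inr (Or.inl ⟨h1, h2, h3⟩)⟩
        rw [inM_inr]
        exact inM_none
      · obtain ⟨g', hg1, hg2, -, hg4, -⟩ := exists_star M (b hs).1.1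
        refine ⟨.inr (some g'), ?_, ?_, fun h0 h3 h4 => Or.inr (Or.inr ⟨h1, h2, ?_⟩)⟩
        · rw [inM_inr, inM_some]
          exact hg1
        · intro k hk hl
          have h3 := (hkb hs _ hk).2
          have h4 : ¬ free (b hs).1.1 (.inl k) := fun h5 => h5 (lst_mono hg2 hl)
          exact absurd (h3 h4) (by simp)
        · intro k hk hl
          have h5 := inM_list.1 h4 _ hk
          rw [inM_inr, inM_mk, inM_inl, inM_prod] at h5
          exact h3 k hk ((hg4 k.1 h5.1.1).1 hl)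
  obtain ⟨w, hwM, hws, hwu⟩ := hw
  -- the element of the model
  have hfin : {k | occ (p hs) k ∧ inM M k}.Finite := (occ_fin (p hs)).subset fun _ h => h.1
  let x : Cn × List PC × Cod × Cod × (Row ⊕ Option Gf) :=
    (rs M (p hs), hfin.toFinset.toList, (c hs).filter (fun z => decide (inM M z)),
      (c' hs).filter (fun z => decide (inM M z)), w)
  have hmL : ∀ k, k ∈ hfin.toFinset.toList ↔ occ (p hs) k ∧ inM M k := fun k => by
    rw [Finset.mem_toList, Set.Finite.mem_toFinset]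
    rfl
  have hxM : inM M x := by
    refine inM_mk.2 ⟨inM_rs _ _, inM_mk.2 ⟨inM_list.2 fun k hk => ((hmL k).1 hk).2,
      inM_mk.2 ⟨inM_list.2 fun z hz => ?_, inM_mk.2 ⟨inM_list.2 fun z hz => ?_, hwM⟩⟩⟩⟩
    · exact of_decide_eq_true (List.mem_filter.1 hz).2
    · exact of_decide_eq_true (List.mem_filter.1 hz).2
  have hLit : ∀ (k : PC) (v : Bool), inM M k → inM M (.inr (.inl k, v) : Lit) := by
    intro k v hk
    rw [inM_inr, inM_mk, inM_inl]
    exact ⟨hk, inM_bool _⟩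
  have hΦ : Φ x hs := by
    refine ⟨hst, fun z hz => hz.1, fun k hk v => ⟨fun h1 => ?_, fun h1 => ?_⟩, hws⟩
    · exact List.mem_filter.2 ⟨h1, decide_eq_true (hLit k v ((hmL k).1 hk).2)⟩
    · exact List.mem_filter.2 ⟨h1, decide_eq_true (hLit k v ((hmL k).1 hk).2)⟩
  have hsel : Φ x (sel x) := Classical.epsilon_spec (p := fun h0 => Φ x h0) ⟨hs, hΦ⟩
  obtain ⟨h0, hh0⟩ : ∃ h0, h0 = sel x := ⟨_, rfl⟩
  rw [← hh0] at hsel
  have hh0M : inM M h0 := by
    rw [hh0]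
    exact hG x hxM
  have hD : inM M (D h0) := hF h0 hh0M
  obtain ⟨hp0, hD⟩ := inM_mk.1 hD
  obtain ⟨ha0, hD⟩ := inM_mk.1 hD
  obtain ⟨hb0, hD⟩ := inM_mk.1 hD
  obtain ⟨hc0, hc0'⟩ := inM_mk.1 hD
  obtain ⟨hty, hi, hii, hiii⟩ := hsel
  have hty2 : ty h0 = ty hs := hty.trans hst.symm
  have e1 : (c h0).filterMap lowf = (c hs).filterMap lowf := congrArg Prod.fst hty2
  have e2 : (c' h0).filterMap lowf = (c' hs).filterMap lowf :=
    congrArg (fun z => z.2.1) hty2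
  have e3 : (p h0).fr.toFinset = (p hs).fr.toFinset := congrArg (fun z => z.2.2) hty2
  obtain ⟨p3, h1, h2, h3, h4⟩ := amal_dl (M := M) (p := p hs) (p0 := p h0) (a := (a hs).1)
    (b := (b hs).1) (a0 := (a h0).1) (b0 := (b h0).1) (c := c hs) (c' := c' hs) (c0 := c h0)
    (c0' := c' h0) hp0 hc0 hc0'
    (fun z hz => by
      have h5 : z ∈ (p hs).fr.toFinset := (Set.Finite.mem_toFinset _).2 hz
      rw [← e3] at h5
      exact (Set.Finite.mem_toFinset _).1 h5)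
    (fun z hz hz' => hi ⟨hz, hz'⟩) (hka hs) (hkb hs) (hka h0) (hkb h0)
    (fun z hz hz' => low_mem e1 hz hz') (fun z hz hz' => low_mem e2 hz hz')
    (fun k v hk ho hz => (List.mem_filter.1 ((hii k ((hmL k).2 ⟨ho, hk⟩) v).1 hz)).1)
    (fun k v hk ho hz => (List.mem_filter.1 ((hii k ((hmL k).2 ⟨ho, hk⟩) v).2 hz)).1)
    hfree ha (hwu h0 hiii hc0')
  obtain ⟨h5, -⟩ := hU h0 (a hs) (b hs) p3 h2 ((Z (a hs) (b hs)).down h1 (hpZ hs)) h3 h4
  apply ha
  rw [h5]
  have h6 : inM M (a h0).1 := ha0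
  exact (inM_prod.1 h6).1

end DLN
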