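import Pool.Agent.DLN.CRst
import Pool.Agent.DLN.CChi
import Pool.Agent.DLN.CClose
import Pool.Agent.DLN.CSupB

/-! # Covering property; the space is not Lindelof (package C13)

(problem MP_c2fbea_gt, project DLN, part C)

* `cover`: for `x = (p0, n) : Cn × ℕ` choose, if possible, `p1 ≤ p0` and `b` with `p1 ∈ f n b`, and put
  `F x := Sp.sp p1`. `close` with `A = Sp.sp q` gives `M`. Let `W` be the set of the chosen `b` for all `x` in
  `M` (size `≤ #Th` by `SpL.sml` for `Cn × ℕ` and `Cardinal.mk_image_le`). Let `r ≤ q`, `r ∈ f n b`. For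
  `x = (rs M r, n)` (in `M` by `inM_rs`) the choice is possible (`r` itself, `le_rs`): `p1 ≤ rs M r`, `b1`,
  `p1 ∈ f n b1`, and `p1` is in `M`. By `compat` there is `t ≤ r`, `t ≤ p1`; `t ∈ f n b`, `t ∈ f n b1`, `t ≤ q`,
  so `b = b1 ∈ W`.
* `tnlin`: `O` is the set of the codes `[.inl (u, true)]`, `u : Co`. Every point `a` is in some of them:
  `a ∈ Z`, so `a.1.1 l = ↑k` for some `l`, `u = ⟨l, k⟩`. Given `q`, `f`: let `W` be from `cover` and
  `S := {u | [.inl (u, true)] ∈ W}`, `#S ≤ #Th`. Let `χ` be from `exists_chi S` (`S : Set Co`), `r = q`,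
  `a := ⟨(up χ, 0, 0), InZ_up χ⟩`. If `r' ≤ q`, `b = [.inl (u, true)]`, `r' ∈ f n b` then `b ∈ W`, `u ∈ S`,
  `u.2 < χ u.1`, so `¬ Kn r' a.1 b`. -/

namespace DLN

open Cardinal STP

theorem cover {B : Type} (f : ℕ → B → RO Cn) (q : Cn)
    (hf : ∀ r ≤ q, ∀ n b b', r ∈ f n b → r ∈ f n b' → b = b') :
    ∃ W : Set B, #W ≤ #Th ∧ ∀ n b, ∀ r ≤ q, r ∈ f n b → b ∈ W := by
  classical
  have h1 : ∀ x : Cn × ℕ, ∃ c : Option (Cn × B),
      (∃ z : Cn × B, z.1 ≤ x.1 ∧ z.1 ∈ f x.2 z.2) →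
        ∃ z, c = some z ∧ z.1 ≤ x.1 ∧ z.1 ∈ f x.2 z.2 := by
    intro x
    by_cases h : ∃ z : Cn × B, z.1 ≤ x.1 ∧ z.1 ∈ f x.2 z.2
    · obtain ⟨z, hz⟩ := h
      exact ⟨some z, fun _ => ⟨z, rfl, hz⟩⟩
    · exact ⟨none, fun h' => absurd h' h⟩
  choose c hc using h1
  have hF : ∀ x : Cn × ℕ, {u : Co | ∃ z, c x = some z ∧ u ∈ Sp.sp z.1}.Countable := by
    intro x
    cases hx : c x with
    | none =>
      refine Set.countable_empty.mono ?_
      rintro u ⟨z, hz, -⟩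
      cases hz
    | some z =>
      refine (SpL.cnt z.1).mono ?_
      rintro u ⟨z', hz, hu⟩
      cases hz
      exact hu
  obtain ⟨M, hA, hM, hcl⟩ := close (X := Cn × ℕ) (fun x => {u : Co | ∃ z, c x = some z ∧
    u ∈ Sp.sp z.1}) hF (Sp.sp q) ((SpL.cnt q).le_aleph0.trans aleph0_le_th)
  refine ⟨{b | ∃ x : Cn × ℕ, inM M x ∧ ∃ z, c x = some z ∧ z.2 = b}, ?_, fun n b r hr hb => ?_⟩
  · refine le_trans ?_ (SpL.sml (X := Cn × ℕ) M hM)
    have hin : ∀ b : {b | ∃ x : Cn × ℕ, inM M x ∧ ∃ z, c x = some z ∧ z.2 = b},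
        ∃ x : Cn × ℕ, inM M x ∧ ∃ z, c x = some z ∧ z.2 = b.1 := fun b => b.2
    choose g hg hg' using hin
    refine Cardinal.mk_le_of_injective (f := fun b => (⟨g b, hg b⟩ :
      {x : Cn × ℕ | Sp.sp x ⊆ M})) ?_
    intro b b' hbb
    have e : g b = g b' := congrArg Subtype.val hbb
    obtain ⟨z, hz, hz'⟩ := hg' b
    obtain ⟨w, hw, hw'⟩ := hg' b'
    rw [e, hw] at hz
    cases hz
    exact Subtype.ext (hz'.symm.trans hw')
  · have hx : inM M ((rs M r, n) : Cn × ℕ) := inM_mk.2 ⟨inM_rs M r, inM_nat n⟩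
    obtain ⟨z, hz, hz1, hz2⟩ := hc (rs M r, n) ⟨(r, b), le_rs M r, hb⟩
    have hzM : inM M z.1 := fun u hu => hcl _ hx ⟨z, hz, hu⟩
    obtain ⟨t, ht, ht'⟩ := compat hzM hz1
    have e : b = z.2 := hf t (ht.trans hr) n b z.2 ((f n b).down ht hb) ((f n z.2).down ht' hz2)
    exact ⟨(rs M r, n), hx, z, hz, e.symm⟩

theorem tnlin : TNLin rho := by
  refine ⟨{b | ∃ u : Co, b = [.inl (u, true)]}, fun q a => ?_, fun q f hf => ?_⟩
  · obtain ⟨m, hm⟩ := a.2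
    obtain ⟨k, hk⟩ := WithTop.ne_top_iff_exists.1 (hm m le_rfl)
    refine ⟨q, le_rfl, [.inl (⟨m, k⟩, true)], ⟨⟨m, k⟩, rfl⟩, ?_⟩
    rw [mem_rho]
    intro z hz
    rw [List.mem_singleton] at hz
    subst hz
    exact hk.symm.le
  · obtain ⟨W, hW, hW'⟩ := cover f q hf
    have hS : #{u : Co | ([.inl (u, true)] : Cod) ∈ W} ≤ #Th := by
      refine le_trans ?_ hW
      refine Cardinal.mk_le_of_injective
        (f := fun u : {u : Co | ([.inl (u, true)] : Cod) ∈ W} =>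
          (⟨[.inl (u.1, true)], u.2⟩ : W)) ?_
      intro u v huv
      have e : ([.inl (u.1, true)] : Cod) = [.inl (v.1, true)] := congrArg Subtype.val huv
      simp only [List.cons.injEq, Sum.inl.injEq, Prod.mk.injEq, and_true] at e
      exact Subtype.ext e
    obtain ⟨χ, hχ, -⟩ := exists_chi _ hS
    refine ⟨q, le_rfl, ⟨(up χ, 0, 0), InZ_up χ⟩, ?_⟩
    rintro r' hr' n b ⟨u, rfl⟩ hb hk
    rw [mem_rho] at hk
    have h1 : up χ u.1 ≤ (u.2 : WithTop (K u.1)) := hk _ (List.mem_singleton.2 rfl)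
    have h2 : u.2 < χ u.1 := hχ u (hW' n _ r' hr' hb)
    exact absurd (WithTop.coe_le_coe.1 h1) (not_le.2 h2)

end DLN
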