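import Pool.Agent.DLN.CRst
import Pool.Agent.DLN.CChi

/-! # The easy typed statements (package C07)

(problem MP_c2fbea_gt, project DLN, part C)

`mem_rho : p ∈ rho a b ↔ Kn p a.1 b`.
* `tsp`: the code `[]`, and `b ++ b'` (`Kn.append`).
* `tclp`: given `q`, `a`, `b` with `¬ Kn r a.1 b` for all `r ≤ q`. By `decide_all` there is `r ≤ q` which
  decides all literals of `b`; some `z ∈ b` has `¬ Kl r a.1 z`, so `Kl r a.1 (nt z)`. Take `c = [nt z]`. For
  `a'` and `r' ≤ r`: `Kn r' a'.1 [nt z]` and `Kn r' a'.1 b` contradict `kl_nt`.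
* `thd`: it is enough to find `r ≤ q` and a literal `z` with `Kl r a.1 z` and `Kl r a'.1 (nt z)` (take
  `b = [z]`, `b' = [nt z]`, and `kl_nt`). If `a.1.1 ≠ a'.1.1`: they differ at some `l`, say
  `a.1.1 l < a'.1.1 l` (otherwise use the negated literal), so `a.1.1 l = ↑k`, and
  `z = .inl (⟨l, k⟩, true)`. If they are equal, the pairs `(i, j)` differ. By `InZ` there is `l` with
  `a.1.1 l = ↑k`. The low columns `c_n := .inr (⟨l, k⟩, n)`, `n : ℕ`, are free for both; choose `n` such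
  that the two (different) cells `cell a.1 c_n`, `cell a'.1 c_n` do not occur in `q` (`q.c` is finite), and
  add the entries `true` and `false` (`exists_add` twice). `z = .inr (c_n, true)`.
* `tcl`: `¬ lst a.1.1 h`, so the plus columns `(h, n)`, `n : ℕ`, are free for `a`. Choose `n` such that the
  cell `cell a.1 (.inl (h, n))` does not occur in `q`, and add the entry `true`: `r`. Take
  `b = [.inr (.inl (h, n), true)]`. For `a' ∈ Hh h` the column is not free, so `Kn r' a'.1 b` would give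
  `true = false`. -/

namespace DLN

open Cardinal STP

private theorem kn_one {p : Cn} {a : Row} {z : Lit} : Kn p a [z] ↔ Kl p a z :=
  ⟨fun h => h z (List.mem_singleton.2 rfl), fun h z' hz' => by
    rw [List.mem_singleton.1 hz']
    exact h⟩

/-- the number of a column of a cell -/
private def num : Cell × Bool → ℕ
  | (.inl (_, (_, n)), _) => n
  | (.inr (_, (_, n)), _) => n

private theorem exists_num (q : Cn) : ∃ n, ∀ z ∈ q.c, num z ≠ n := by
  obtain ⟨n, hn⟩ := (q.fc.image num).exists_notMem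
  exact ⟨n, fun z hz h => hn ⟨z, hz, h⟩⟩

theorem tsp : TSp rho :=
  ⟨fun _ => ⟨[], fun _ => mem_rho.2 fun _ hz => absurd hz List.not_mem_nil⟩,
    fun b b' => ⟨b ++ b', fun _ _ => Kn.append⟩⟩

theorem tclp : TClp rho := by
  intro q a b h
  obtain ⟨r, hr, hd⟩ := decide_all q a.1 b
  have h1 : ¬ ∀ z ∈ b, Kl r a.1 z := h r hr
  push Not at h1
  obtain ⟨z, hz, h2⟩ := h1
  have h3 := (hd z hz).resolve_left h2
  refine ⟨r, hr, [nt z], kn_one.2 h3, ?_⟩
  rintro a' r' - ⟨h4, h5⟩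
  exact kl_nt ⟨h5 z hz, kn_one.1 h4⟩

theorem thd : THd rho := by
  intro q a a' hne
  suffices h : ∃ r ≤ q, ∃ z, Kl r a.1 z ∧ Kl r a'.1 (nt z) by
    obtain ⟨r, hr, z, h1, h2⟩ := h
    refine ⟨r, hr, [z], [nt z], kn_one.2 h1, kn_one.2 h2, ?_⟩
    rintro a'' r' - ⟨h4, h5⟩
    exact kl_nt ⟨kn_one.1 h4, kn_one.1 h5⟩
  by_cases hg : a.1.1 = a'.1.1
  · obtain ⟨m, hm⟩ := a.2
    obtain ⟨k, hk⟩ := WithTop.ne_top_iff_exists.1 (hm m le_rfl)
    obtain ⟨n, hn⟩ := exists_num q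
    have hf : free a.1.1 (.inr (⟨m, k⟩, n)) := hk.ge
    have hf' : free a'.1.1 (.inr (⟨m, k⟩, n)) := by
      rw [← hg]
      exact hf
    obtain ⟨q1, hq1, h1, -, h2⟩ := exists_add q (cell a.1 (.inr (⟨m, k⟩, n))) true
      (fun h => hn _ h rfl)
    obtain ⟨q2, hq2, h3, -, -⟩ := exists_add q1 (cell a'.1 (.inr (⟨m, k⟩, n))) false (by
      intro h
      rcases h2 _ _ h with h4 | ⟨h4, -⟩
      · exact hn _ h4 rfl
      · have h5 : ((a'.1, (⟨m, k⟩, n)) : Row × LC) = (a.1, (⟨m, k⟩, n)) := Sum.inr.inj h4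
        exact hne (Subtype.ext (congrArg Prod.fst h5).symm))
    refine ⟨q2, hq2.trans hq1, .inr (.inr (⟨m, k⟩, n), true),
      ⟨fun _ => hq2.2 h1, fun h => absurd hf h⟩, ⟨fun _ => h3, fun h => absurd hf' h⟩⟩
  · obtain ⟨l, hl⟩ := Function.ne_iff.1 hg
    rcases lt_or_gt_of_ne hl with h | h
    · obtain ⟨k, hk⟩ := WithTop.ne_top_iff_exists.1 (ne_top_of_lt h)
      refine ⟨q, le_rfl, .inl (⟨l, k⟩, true), ?_, ?_⟩
      · change a.1.1 l ≤ (k : WithTop (K l))
        exact hk.ge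
      · change ¬ a'.1.1 l ≤ (k : WithTop (K l))
        rw [hk]
        exact not_le.2 h
    · obtain ⟨k, hk⟩ := WithTop.ne_top_iff_exists.1 (ne_top_of_lt h)
      refine ⟨q, le_rfl, .inl (⟨l, k⟩, false), ?_, ?_⟩
      · change ¬ a.1.1 l ≤ (k : WithTop (K l))
        rw [hk]
        exact not_le.2 h
      · change a'.1.1 l ≤ (k : WithTop (K l))
        exact hk.ge

theorem tcl (h : Df) : TCl rho (Hh h) := by
  intro q a ha
  obtain ⟨n, hn⟩ := exists_num q
  obtain ⟨r, hr, h1, -, -⟩ := exists_add q (cell a.1 (.inl (h, n))) true (fun h' => hn _ h' rfl)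
  have hf : free a.1.1 (.inl (h, n)) := ha
  refine ⟨r, hr, [.inr (.inl (h, n), true)], kn_one.2 ⟨fun _ => h1, fun h' => absurd hf h'⟩, ?_⟩
  intro a' ha' r' hr' h2
  have h3 := kn_one.1 h2
  have h4 : ¬ free a'.1.1 (.inl (h, n)) := fun h' => h' ha'
  exact absurd (h3.2 h4) (by simp)

end DLN
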