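import Pool.Agent.DLN.CTra
import Pool.Agent.DLN.CClose
import Pool.Agent.DLN.CSupB

/-! # The set `X_h × X_h` minus the diagonal is Lindelof (package C09)

(problem MP_c2fbea_gt, project DLN, part C)

Let `q`, `O` with `TCov2 rho q (Hh h) O`. Skolem function: for `x = (p0, a', b') : Cn × Row × Row` choose, if
possible, `p1 ≤ p0` and codes `c`, `c'` with `p1 ∈ O c c'`, `Kn p1 a' c`, `Kn p1 b' c'`, and put
`F x := Sp.sp p1 ∪ Sp.sp c ∪ Sp.sp c'` (otherwise `∅`). `close` with `A = Sp.sp q ∪ Sp.sp h` (countable, so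
`#A ≤ #Th`: `aleph0_le_th`) gives `M`. The set `W` of all pairs `(c, c')` of codes in `M` has size `≤ #Th`
(`SpL.sml` for `Cod × Cod`), so there is `e : Th → Cod × Cod` with `W ⊆ Set.range e` (`exists_enum`:
an injection `W → Th` has a left inverse). Let `r ≤ q`, `a ≠ b` in `Hh h`. Apply `transport M r a.1 b.1`
(`a.1 ≠ b.1` by `Subtype.ext`): `a'`, `b'`, `p0`. `p0 ≤ rs M r ≤ q` (`rs_le`). `lst a'.1 h` and `lst b'.1 h`
since `inM M h`, so `a'`, `b'` are points (`InZ_of_lst`) in `Hh h`, and different. By `TCov2` at `p0 ≤ q` there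
are `p1 ≤ p0`, `c`, `c'` as in the definition of the Skolem function (`mem_rho`), so for its values
`F (p0, a', b') ⊆ M`: `p1`, `c`, `c'` are in `M`. The last clause of `transport` gives `p2 ≤ r` with
`Kn p2 a.1 c`, `Kn p2 b.1 c'`, `p2 ≤ p1`, so `p2 ∈ O c c'` (`RO.down`), and `(c, c') ∈ Set.range e`.
(`r' ∈ O b b' ⊓ chi _`: `RO.mem_inf`, `RO.mem_chi`.) -/

namespace DLN

open Cardinal STP

theorem exists_enum {C : Type} [Inhabited C] (W : Set C) (hW : #W ≤ #Th) :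
    ∃ e : Th → C, W ⊆ Set.range e := by
  classical
  obtain ⟨i⟩ := (Cardinal.le_def _ _).1 hW
  refine ⟨fun t => if h : ∃ x : W, i x = t then (h.choose : C) else default, fun x hx => ?_⟩
  refine ⟨i ⟨x, hx⟩, ?_⟩
  have h1 : ∃ y : W, i y = i ⟨x, hx⟩ := ⟨_, rfl⟩
  beta_reduce
  rw [dif_pos h1, i.injective h1.choose_spec]

theorem tlin2 (h : Df) : TLin2 rho (Hh h) := by
  classical
  intro q O hcov
  let F : Cn × Row × Row → Set Co := fun x =>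
    if h : ∃ y : Cn × Cod × Cod, y.1 ≤ x.1 ∧ y.1 ∈ O y.2.1 y.2.2 ∧ Kn y.1 x.2.1 y.2.1 ∧
      Kn y.1 x.2.2 y.2.2 then Sp.sp h.choose else ∅
  have hF : ∀ x, (F x).Countable := by
    intro x
    by_cases h : ∃ y : Cn × Cod × Cod, y.1 ≤ x.1 ∧ y.1 ∈ O y.2.1 y.2.2 ∧ Kn y.1 x.2.1 y.2.1 ∧
      Kn y.1 x.2.2 y.2.2
    · have : F x = Sp.sp h.choose := dif_pos h
      rw [this]
      exact SpL.cnt _
    · have : F x = ∅ := dif_neg h
      rw [this]
      exact Set.countable_empty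
  have hA : #(↥(Sp.sp q ∪ Sp.sp h : Set Co)) ≤ #Th := by
    refine le_trans ?_ aleph0_le_th
    exact Cardinal.le_aleph0_iff_set_countable.2 ((SpL.cnt q).union (SpL.cnt h))
  obtain ⟨M, hAM, hM, hcl⟩ := close F hF (Sp.sp q ∪ Sp.sp h) hA
  have hqM : inM M q := Set.subset_union_left.trans hAM
  have hhM : inM M h := Set.subset_union_right.trans hAM
  obtain ⟨e, he⟩ := exists_enum {z : Cod × Cod | Sp.sp z ⊆ M} (SpL.sml M hM)
  refine ⟨e, ?_⟩
  intro r hr a ha b hb hab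
  have hab' : a.1 ≠ b.1 := fun h' => hab (Subtype.ext h')
  obtain ⟨a', b', p0, ha', hb', hp0, hne, hle, hlst, htr⟩ := transport M r a.1 b.1 hab'
  have hp0q : p0 ≤ q := hle.trans (rs_le hr hqM)
  have ha2 : lst a'.1 h := (hlst h hhM).1.1 ha
  have hb2 : lst b'.1 h := (hlst h hhM).2.1 hb
  obtain ⟨p1, hp1, c, c', h1, h2, h3⟩ := hcov p0 hp0q ⟨a', InZ_of_lst ha2⟩ ha2
    ⟨b', InZ_of_lst hb2⟩ hb2 (fun h' => hne (congrArg Subtype.val h'))
  have hex : ∃ y : Cn × Cod × Cod, y.1 ≤ (p0, a', b').1 ∧ y.1 ∈ O y.2.1 y.2.2 ∧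
      Kn y.1 (p0, a', b').2.1 y.2.1 ∧ Kn y.1 (p0, a', b').2.2 y.2.2 :=
    ⟨(p1, c, c'), hp1, h1, h2, h3⟩
  have hFx : F (p0, a', b') = Sp.sp hex.choose := dif_pos hex
  have hsub := hcl (p0, a', b') (inM_mk.2 ⟨hp0, inM_mk.2 ⟨ha', hb'⟩⟩)
  rw [hFx] at hsub
  obtain ⟨k1, k2, k3, k4⟩ := hex.choose_spec
  generalize hex.choose = y at hsub k1 k2 k3 k4
  obtain ⟨p, d, d'⟩ := y
  have hy : inM M p ∧ inM M (d, d') := inM_mk.1 hsub
  have hy2 : inM M d ∧ inM M d' := inM_mk.1 hy.2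
  obtain ⟨p2, m1, m2, m3, m4⟩ := htr p k1 hy.1
  refine ⟨p2, m1, d, d', ?_, ?_, ?_⟩
  · refine RO.mem_inf.2 ⟨(O d d').down m2 k2, RO.mem_chi.2 ?_⟩
    exact he hy.2
  · exact m3 d hy2.1 k3
  · exact m4 d' hy2.2 k4

end DLN
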