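import Pool.Agent.DLN.CBnd
import Pool.Agent.DLN.CLinH
import Pool.Agent.DLN.CEasy

/-! # The complement of the diagonal is discretely Lindelof (package C12)

(problem MP_c2fbea_gt, project DLN, part C)

`tdisc_swap`: the definition of `TDisc` is symmetric. `tdl`: `bounded` for `Z` and for
`fun a a' => Z a' a` gives `h1`, `h2`; let `h` be from `exists_max h1 h2`, and `H = Hh h`; `tcl`, `tlin2`. -/

namespace DLN

open Cardinal STP

theorem tdisc_swap {q : Cn} {Z : Pt → Pt → RO Cn} (h : TDisc rho q Z) :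
    TDisc rho q fun a a' => Z a' a := by
  intro r hr a a' ha
  obtain ⟨h1, r', hr', b, b', h2, h3, h4⟩ := h r hr a' a ha
  refine ⟨fun h5 => h1 h5.symm, r', hr', b', b, h3, h2, fun c c' r'' hr'' h5 h6 h7 => ?_⟩
  exact (h4 c' c r'' hr'' h5 h7 h6).symm

theorem tdl : TDL rho := by
  intro q Z hZ
  obtain ⟨h1, hh1⟩ := bounded q Z hZ
  obtain ⟨h2, hh2⟩ := bounded q _ (tdisc_swap hZ)
  obtain ⟨h, hh⟩ := exists_max h1 h2
  refine ⟨Hh h, tcl h, tlin2 h, fun r hr a a' ha => ⟨?_, ?_⟩⟩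
  · exact hh _ (Or.inl (hh1 r hr a a' ha))
  · exact hh _ (Or.inr (hh2 r hr a' a ha))

end DLN
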