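import Pool.Agent.DLN.Sup

/-! # Restriction and extension of conditions (package C06)

(problem MP_c2fbea_gt, project DLN, part C)

* `rs_le`: `q.c ⊆ p.c` and all cells of `q` are in `M`. `compat`: the condition with the collapsing part
  `q.r` and the Cohen part `p.c ∪ q.c`: if `(x, v) ∈ p.c` and `(x, v') ∈ q.c` then `x` is in `M`, so
  `(x, v) ∈ (rs M p).c ⊆ q.c`.
* `glue`: `⟨q.r, p.c ∪ q.c ∪ S, ..⟩`.
* `fresh`: only finitely many indices `ix z.1` occur in `p.c`, `q.c` (`Set.Finite.image`,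
  `Set.Finite.exists_notMem` for infinite `Set.Ici N`, or take a number greater than all of them).
* `decide_all`: induction on the list `b`: decide one literal after the other. Atoms: classical logic.
  `.inr (c, v)` with `c` free for `a`: if `(cell a c, !v) ∉ p.c` then `exists_add p (cell a c) v` gives
  `q` with `Kl q a (.inr (c, v))`, otherwise `Kl p a (.inr (c, !v))`. If `c` is not free: `Kl` of
  `.inr (c, v)` holds iff `v = false`. `nt` is the negated literal.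
* `kl_nt`: not both (`p.uc`; for a column which is not free `v = false` and `!v = false` is false). -/

namespace DLN

open Cardinal STP

theorem rs_le {M : Set Co} {p q : Cn} (h : p ≤ q) (hq : inM M q) : rs M p ≤ q := by
  refine ⟨h.1, fun z hz => ⟨h.2 hz, inM_cn.1 hq z hz⟩⟩

theorem compat {M : Set Co} {p q : Cn} (hq : inM M q) (h : q ≤ rs M p) :
    ∃ t, t ≤ p ∧ t ≤ q := by
  refine ⟨⟨q.r, p.c ∪ q.c, q.fr, p.fc.union q.fc, q.ur, ?_⟩, ⟨h.1, Set.subset_union_left⟩,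
    ⟨subset_rfl, Set.subset_union_right⟩⟩
  rintro x v v' (h1 | h1) (h2 | h2)
  · exact p.uc x v v' h1 h2
  · exact q.uc x v v' (h.2 ⟨h1, (inM_cn.1 hq (x, v') h2 : inM M x)⟩) h2
  · exact q.uc x v v' h1 (h.2 ⟨h2, (inM_cn.1 hq (x, v) h1 : inM M x)⟩)
  · exact q.uc x v v' h1 h2

/-- a common extension of `p` and `q` which contains the entries in `S` -/
theorem glue {p q : Cn} (S : Set (Cell × Bool)) (hS : S.Finite) (hr : p.r ⊆ q.r)
    (h1 : ∀ x v v', (x, v) ∈ p.c → (x, v') ∈ q.c → v = v')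
    (h2 : ∀ x v v', (x, v) ∈ p.c → (x, v') ∈ S → v = v')
    (h3 : ∀ x v v', (x, v) ∈ q.c → (x, v') ∈ S → v = v')
    (h4 : ∀ x v v', (x, v) ∈ S → (x, v') ∈ S → v = v') :
    ∃ t, t ≤ p ∧ t ≤ q ∧ S ⊆ t.c ∧ t.r = q.r ∧ t.c = p.c ∪ q.c ∪ S := by
  refine ⟨⟨q.r, p.c ∪ q.c ∪ S, q.fr, (p.fc.union q.fc).union hS, q.ur, ?_⟩,
    ⟨hr, Set.subset_union_left.trans Set.subset_union_left⟩,
    ⟨subset_rfl, Set.subset_union_right.trans Set.subset_union_left⟩,
    Set.subset_union_right, rfl, rfl⟩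
  rintro x v v' ((k1 | k1) | k1) ((k2 | k2) | k2)
  · exact p.uc x v v' k1 k2
  · exact h1 x v v' k1 k2
  · exact h2 x v v' k1 k2
  · exact (h1 x v' v k2 k1).symm
  · exact q.uc x v v' k1 k2
  · exact h3 x v v' k1 k2
  · exact (h2 x v' v k2 k1).symm
  · exact (h3 x v' v k2 k1).symm
  · exact h4 x v v' k1 k2

theorem fresh (p q : Cn) (N : ℕ) :
    ∃ i, N ≤ i ∧ (∀ z ∈ p.c, ix z.1 ≠ i) ∧ ∀ z ∈ q.c, ix z.1 ≠ i := by
  obtain ⟨i, hi, hi'⟩ := (Set.Ici_infinite N).exists_notMem_finite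
    ((p.fc.image fun z => ix z.1).union (q.fc.image fun z => ix z.1))
  refine ⟨i, hi, fun z hz h => hi' (Or.inl ⟨z, hz, h⟩), fun z hz h => hi' (Or.inr ⟨z, hz, h⟩)⟩

/-- the negated literal -/
def nt : Lit → Lit
  | .inl (u, s) => .inl (u, !s)
  | .inr (c, v) => .inr (c, !v)

theorem kl_nt {p : Cn} {a : Row} {z : Lit} : ¬ (Kl p a z ∧ Kl p a (nt z)) := by
  rintro ⟨h1, h2⟩
  match z with
  | .inl (u, true) => exact h2 h1
  | .inl (u, false) => exact h1 h2
  | .inr (c, v) =>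
    by_cases hf : free a.1 c
    · have h3 := p.uc _ _ _ (h1.1 hf) (h2.1 hf)
      cases v <;> simp at h3
    · have h3 := h1.2 hf
      have h4 : (!v) = false := h2.2 hf
      rw [h3] at h4
      simp at h4

private theorem decide_one (p : Cn) (a : Row) (z : Lit) :
    ∃ q ≤ p, Kl q a z ∨ Kl q a (nt z) := by
  match z with
  | .inl (u, true) =>
    by_cases h : a.1 u.1 ≤ (u.2 : WithTop (K u.1))
    · exact ⟨p, le_rfl, Or.inl h⟩
    · exact ⟨p, le_rfl, Or.inr h⟩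
  | .inl (u, false) =>
    by_cases h : a.1 u.1 ≤ (u.2 : WithTop (K u.1))
    · exact ⟨p, le_rfl, Or.inr h⟩
    · exact ⟨p, le_rfl, Or.inl h⟩
  | .inr (c, v) =>
    by_cases hf : free a.1 c
    · by_cases h : (cell a c, !v) ∈ p.c
      · exact ⟨p, le_rfl, Or.inr ⟨fun _ => h, fun h' => absurd hf h'⟩⟩
      · obtain ⟨q, hq, h1, -⟩ := exists_add p (cell a c) v h
        exact ⟨q, hq, Or.inl ⟨fun _ => h1, fun h' => absurd hf h'⟩⟩
    · cases v
      · exact ⟨p, le_rfl, Or.inl ⟨fun h => absurd h hf, fun _ => rfl⟩⟩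
      · exact ⟨p, le_rfl, Or.inr ⟨fun h => absurd h hf, fun _ => rfl⟩⟩

theorem decide_all (p : Cn) (a : Row) (b : Cod) :
    ∃ q ≤ p, ∀ z ∈ b, Kl q a z ∨ Kl q a (nt z) := by
  induction b with
  | nil => exact ⟨p, le_rfl, fun z hz => absurd hz List.not_mem_nil⟩
  | cons z b ih =>
    obtain ⟨q, hq, h⟩ := ih
    obtain ⟨r, hr, h'⟩ := decide_one q a z
    refine ⟨r, hr.trans hq, fun y hy => ?_⟩
    rcases List.mem_cons.1 hy with rfl | hy
    · exact h'
    · exact (h y hy).imp (fun k => k.mono hr) (fun k => k.mono hr)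

theorem kn_eq_val {p : Cn} {a : Row} {b b' : Cod} (h : Kn p a b) (h' : Kn p a b') {c : Col}
    {v v' : Bool} (hc : .inr (c, v) ∈ b) (hc' : .inr (c, v') ∈ b') : v = v' := by
  have h1 := h _ hc
  have h2 := h' _ hc'
  by_cases hf : free a.1 c
  · exact p.uc _ _ _ (h1.1 hf) (h2.1 hf)
  · rw [h1.2 hf, h2.2 hf]

end DLN
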