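import Pool.Agent.DLN.CAmN
import Pool.Agent.DLN.CClose
import Pool.Agent.DLN.CSupB

/-! # No countable separating family of open sets (package C15)

(problem MP_c2fbea_gt, project DLN, part C)

Let `q`, `U` be as in `TNSep`, (O) the first hypothesis (the sets are open), (S) the separation. For
`g : Df` let `x_g = ⟨(up g, 0, 0), _⟩`, `y_g = ⟨(up g, 0, 1), _⟩` (different points). By (S) and (O) (twice)
choose `p_g ≤ q`, `n_g`, `m_g`, codes `c_g`, `c'_g` with `Kn p_g (up g, 0, 0) c_g`,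
`Kn p_g (up g, 0, 1) c'_g`, `r ∈ U n_g a` for all `r ≤ p_g`, `a` with `Kn r a.1 c_g`, `r ∈ U m_g a` for all
`r ≤ p_g`, `a` with `Kn r a.1 c'_g`, and (D): no `r ≤ p_g` is in `U n_g a` and in `U m_g a`.
Model: `close2` for `g ↦ ` support of the data of `g` (on `Df`) and `x ↦ Sp.sp (g0 x)`, where for
`x = (q1, n, m, B, L, c1) : Cn × ℕ × ℕ × List Co × List Col × Cod` we choose, if possible, `g0 x = g0`
with `Φ x g0`: `p_{g0}.r = q1.r`, `q1.c ⊆ p_{g0}.c`, `n_{g0} = n`, `m_{g0} = m`, `u.2 < g0 u.1` for all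
`u ∈ B`, and `.inr (k, v) ∈ c_{g0} → .inr (k, v) ∈ c1` for all `k ∈ L` and all `v`. (`A = ∅`.) Let `M` be the
model and `g` from `exists_chi M`; write `p, c, c'` for the data of `g`. Let `L` be a list of all columns `k`
in `M` which occur in `c'`; for every `u = ⟨l, β⟩` with `.inl (u, false) ∈ c'` we have `β < g l`
(`Kn p (up g, 0, 1) c'`), and `exists_chi` gives `β'` with `⟨l, β'⟩ ∈ M`, `β ≤ β'`; let `B` be a list of such
`⟨l, β'⟩`. `x := (rs M p, n_g, m_g, B, L, c.filter (inM M))` is in `M`, and `Φ x g`. So `g0 := g0 x`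
satisfies `Φ x g0`, and it and its data `p0, c0` are in `M`. `amal_nsep` applies and gives `p5 ≤ p`,
`p5 ≤ p0` and a row `a` with `InZ a.1`, `Kn p5 a c0`, `Kn p5 a c'`. So for the point `a`: `p5 ∈ U n_{g0} a`,
`p5 ∈ U m_g a`, and `n_{g0} = n_g`, a contradiction to (D). -/

namespace DLN

open Cardinal STP

open Classical in
/-- the columns in `M` which occur in `c` -/
private noncomputable def colM (M : Set Co) (c : Cod) : List Col :=
  c.filterMap fun z => match z with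
    | .inr (k, _) => if inM M k then some k else none
    | .inl _ => none

private theorem mem_colM {M : Set Co} {c : Cod} {k : Col} :
    k ∈ colM M c ↔ inM M k ∧ ∃ v, .inr (k, v) ∈ c := by
  unfold colM
  rw [List.mem_filterMap]
  constructor
  · rintro ⟨z, hz, h⟩
    match z, hz, h with
    | .inl _, _, h => exact absurd h (by simp)
    | .inr (k', v), hz, h =>
      by_cases hk : inM M k'
      · simp only [if_pos hk, Option.some.injEq] at h
        subst h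
        exact ⟨hk, v, hz⟩
      · simp [if_neg hk] at h
  · rintro ⟨hk, v, hz⟩
    exact ⟨.inr (k, v), hz, if_pos hk⟩

/-- the negated atoms which occur in `c`, moved by `bb` -/
private def atB (bb : (u : Co) → K u.1) (c : Cod) : List Co :=
  c.filterMap fun z => match z with
    | .inl (u, false) => some ⟨u.1, bb u⟩
    | .inl (_, true) => none
    | .inr _ => none

private theorem mem_atB {bb : (u : Co) → K u.1} {c : Cod} {w : Co} :
    w ∈ atB bb c ↔ ∃ u, .inl (u, false) ∈ c ∧ w = ⟨u.1, bb u⟩ := by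
  unfold atB
  rw [List.mem_filterMap]
  constructor
  · rintro ⟨z, hz, h⟩
    match z, hz, h with
    | .inl (u, false), hz, h => exact ⟨u, hz, (Option.some.inj h).symm⟩
    | .inl (_, true), _, h => exact absurd h (by simp)
    | .inr _, _, h => exact absurd h (by simp)
  · rintro ⟨u, hu, rfl⟩
    exact ⟨.inl (u, false), hu, rfl⟩

/-- data of the small model -/
private abbrev YY : Type := Cn × ℕ × ℕ × List Co × List Col × Cod

theorem tnsep : TNSep rho := by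
  classical
  intro q U hO hS
  have hdat : ∀ g : Df, ∃ (p : Cn) (n m : ℕ) (c c' : Cod), Kn p (up g, 0, 0) c ∧
      Kn p (up g, 0, 1) c' ∧ (∀ r ≤ p, ∀ a : Pt, Kn r a.1 c → r ∈ U n a) ∧
      (∀ r ≤ p, ∀ a : Pt, Kn r a.1 c' → r ∈ U m a) ∧
      ∀ a : Pt, ∀ r ≤ p, ¬ (r ∈ U n a ∧ r ∈ U m a) := by
    intro g
    obtain ⟨r1, hr1, n, m, h1, h2, h3⟩ := hS q le_rfl ⟨(up g, 0, 0), InZ_up g⟩
      ⟨(up g, 0, 1), InZ_up g⟩ (by
        intro h
        have h4 : ((up g, 0, 0) : Row) = (up g, 0, 1) := Subtype.ext_iff.1 h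
        simp at h4)
    obtain ⟨r2, hr2, c, h4, h5⟩ := hO r1 hr1 n _ h1
    obtain ⟨r3, hr3, c', h6, h7⟩ := hO r2 (hr2.trans hr1) m _ ((U m _).down hr2 h2)
    refine ⟨r3, n, m, c, c', Kn.mono hr3 (mem_rho.1 h4), mem_rho.1 h6, ?_, ?_, ?_⟩
    · intro r hr a ha
      exact h5 a r (hr.trans hr3) (mem_rho.2 ha)
    · intro r hr a ha
      exact h7 a r hr (mem_rho.2 ha)
    · intro a r hr
      exact h3 a r ((hr.trans hr3).trans hr2)
  choose pp nf mf cc cc' hk hk' hU1 hU2 hdis using hdat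
  let Φ : YY → Df → Prop := fun x g0 => (pp g0).r = x.1.r ∧ x.1.c ⊆ (pp g0).c ∧
    nf g0 = x.2.1 ∧ (∀ u ∈ x.2.2.2.1, u.2 < g0 u.1) ∧
    ∀ k ∈ x.2.2.2.2.1, ∀ v, .inr (k, v) ∈ cc g0 → .inr (k, v) ∈ x.2.2.2.2.2
  have hd0 : Nonempty Df := by
    obtain ⟨g, -⟩ := exists_chi ∅ (by simp)
    exact ⟨g⟩
  have hch : ∀ x : YY, ∃ g0 : Df, (∃ g, Φ x g) → Φ x g0 := by
    intro x
    by_cases h : ∃ g, Φ x g
    · obtain ⟨g, hg⟩ := h
      exact ⟨g, fun _ => hg⟩
    · exact ⟨hd0.some, fun h' => absurd h' h⟩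
  choose gz hgz using hch
  obtain ⟨M, -, hM, hM1, hM2⟩ := close2 (X := Df) (Y := YY)
    (fun g => Sp.sp (pp g) ∪ Sp.sp (cc g)) (fun x => Sp.sp (gz x))
    (fun g => (SpL.cnt _).union (SpL.cnt _)) (fun x => SpL.cnt _) ∅ (by simp)
  obtain ⟨g, hg1, hg2⟩ := exists_chi M hM
  have hbb : ∀ u : Co, ∃ b : K u.1, u.2 < g u.1 → (⟨u.1, b⟩ : Co) ∈ M ∧ u.2 ≤ b := by
    intro u
    by_cases h : u.2 < g u.1
    · obtain ⟨b, hb1, hb2⟩ := hg2 u.1 u.2 h
      exact ⟨b, fun _ => ⟨hb1, hb2⟩⟩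
    · exact ⟨u.2, fun h' => absurd h' h⟩
  choose bb hbb using hbb
  have hat : ∀ u : Co, .inl (u, false) ∈ cc' g → u.2 < g u.1 := by
    intro u hu
    have h1 : ¬ (up g u.1 ≤ (u.2 : WithTop (K u.1))) := hk' g _ hu
    have h2 : ¬ g u.1 ≤ u.2 := fun h => h1 (WithTop.coe_le_coe.2 h)
    exact not_le.1 h2
  set x : YY := (rs M (pp g), nf g, mf g, atB bb (cc' g), colM M (cc' g),
    (cc g).filter fun z => decide (inM M z)) with hx
  have hxM : inM M x := by
    rw [hx]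
    simp only [inM_mk, inM_nat, true_and]
    refine ⟨inM_rs M _, ?_, ?_, ?_⟩
    · rw [inM_list]
      intro w hw
      obtain ⟨u, hu, rfl⟩ := mem_atB.1 hw
      rw [inM_co]
      exact (hbb u (hat u hu)).1
    · rw [inM_list]
      intro k hk
      exact (mem_colM.1 hk).1
    · rw [inM_list]
      intro z hz
      exact of_decide_eq_true (List.mem_filter.1 hz).2
  have hΦ : Φ x g := by
    refine ⟨rfl, fun z hz => hz.1, rfl, ?_, ?_⟩
    · intro w hw
      obtain ⟨u, hu, rfl⟩ := mem_atB.1 hw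
      exact hg1 _ (hbb u (hat u hu)).1
    · intro k hk v hv
      refine List.mem_filter.2 ⟨hv, decide_eq_true ?_⟩
      rw [inM_inr, inM_mk]
      exact ⟨(mem_colM.1 hk).1, inM_bool v⟩
  have h0 : Φ x (gz x) := hgz x ⟨g, hΦ⟩
  have hg0 : inM M (gz x) := hM2 x hxM
  have hF := hM1 (gz x) hg0
  obtain ⟨e1, e2, e3, e4, e5⟩ := h0
  obtain ⟨p5, a, ha, hp5, hp50, hka, hka'⟩ := amal_nsep (M := M) (p := pp g) (p0 := pp (gz x))
    (g := g) (g0 := gz x) (c := cc g) (c' := cc' g) (c0 := cc (gz x))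
    (fun u hu => hF (Or.inl hu)) hg0 (fun u hu => hF (Or.inr hu))
    (by rw [e1]; exact subset_rfl) (fun z hz hz' => e2 ⟨hz, hz'⟩) (hk g) (hk' g) (hk (gz x))
    (by
      intro k v v' hkM hv hv'
      exact (List.mem_filter.1 (e5 k (mem_colM.2 ⟨hkM, v, hv⟩) v' hv')).1)
    hg1 (by
      intro u hu
      have h1 := e4 ⟨u.1, bb u⟩ (mem_atB.2 ⟨u, hu, rfl⟩)
      exact lt_of_le_of_lt (hbb u (hat u hu)).2 h1)
  have h1 : p5 ∈ U (nf (gz x)) ⟨a, ha⟩ := hU1 (gz x) p5 hp50 ⟨a, ha⟩ hka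
  have h2 : p5 ∈ U (mf g) ⟨a, ha⟩ := hU2 g p5 hp5 ⟨a, ha⟩ hka'
  have e3' : nf (gz x) = nf g := e3
  rw [e3'] at h1
  exact hdis g ⟨a, ha⟩ p5 hp5 ⟨h1, h2⟩

end DLN
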