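import Pool.Agent.DLN.CRst
import Pool.Agent.DLN.CChi

/-! # Transport of rows into a model (package C08)

(problem MP_c2fbea_gt, project DLN, part C)

Let `c_g` be the function of `exists_star M g`. Choose (`fresh`) indices: if `inM M a.1` put `a' := a`;
otherwise `a' := (c_{a.1}, i, a.2.2)` with `i` fresh for `p` and larger than `b.2.1`. In the same way `b'`:
if `inM M b.1` then `b' := b`. If `¬ inM M b.1` and the plus-rows of `a` and `b` are equal
(`a.1 = b.1 ∧ a.2.1 = b.2.1`) use the same index `i`; otherwise an index `i'` which is fresh, larger than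
`i` and than `a.2.1`. Then
(P) `(a'.1, a'.2.1) = (b'.1, b'.2.1) ↔ (a.1, a.2.1) = (b.1, b.2.1)`, and `a' ≠ b'` (the last components
do not change: if `a' = b'` then by (P) `a = b`).
(Q) for `c` in `M`: `cell a' c = cell b' c ↔ cell a c = cell b c` (plus columns by (P), low columns: both
sides are false as `a ≠ b` and `a' ≠ b'`).
Let `p0` be `rs M p` together with all `(cell a' c, v)` with `(cell a c, v) ∈ p.c`, `inM M c`, and all
`(cell b' c, v)` with `(cell b c, v) ∈ p.c`, `inM M c` (finite sets: images of subsets of `p.c`). It is a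
condition: `rs M p` and the copies agree, because either `a' = a` or the index of `a'` is fresh for `p`;
the two copies agree by (Q) and `p.uc`. Now let `p1 ≤ p0` with `inM M p1`. Let `p2` have the collapsing part
`p1.r` and the Cohen part `p.c ∪ p1.c ∪ S`, where `S` is the set of all `(cell a c, v)` with
`(cell a' c, v) ∈ p1.c`, `inM M c`, and all `(cell b c, v)` with `(cell b' c, v) ∈ p1.c`, `inM M c`
(`glue`). Compatibility: `p` and `p1`: a cell of `p1` is in `M`, so an entry of `p` on it is in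
`(rs M p).c ⊆ p0.c ⊆ p1.c`. `p` and `S`: if `(cell a c, v) ∈ p.c`, `(cell a' c, v') ∈ p1.c`, `inM M c`, then
`(cell a' c, v) ∈ p0.c ⊆ p1.c`, so `v = v'`. `p1` and `S`: if `(cell a c, v) ∈ p1.c` then `cell a c` is in
`M`, so `inM M a.1` (`inM_cell`) and `a' = a`. Within `S`: (Q). (If `cell a c = cell b c'` then `c = c'`.)
Finally `Kn p1 a' c → Kn p2 a c` for a code `c` in `M`: atoms `(u, s)`, `u ∈ M`: third clause of `exists_star`;
columns `k` with `inM M k`: `free a.1 k ↔ free a'.1 k` (plus columns: the clause for `lst`, low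
columns: the third clause), and the entry of `p1` at `cell a' k` was copied to `cell a k`.
It is convenient to prove first an abstract lemma: given `a'`, `b'` with these properties there is
`p0`; and to treat `a`, `b` by a map on cells. Split freely into lemmas. -/

namespace DLN

open Cardinal STP

private theorem cell_inj {a b : Row} {c d : Col} (h : cell a c = cell b d) : c = d := by
  rcases c with c | c <;> rcases d with d | d
  · have h1 : ((a.1, a.2.1), c) = ((b.1, b.2.1), d) := Sum.inl.inj h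
    rw [(Prod.mk.inj h1).2]
  · cases h
  · cases h
  · have h1 : (a, c) = (b, d) := Sum.inr.inj h
    rw [(Prod.mk.inj h1).2]

private theorem cell_tra {a b a' b' : Row} (hab : a ≠ b)
    (P : (a.1, a.2.1) = (b.1, b.2.1) → (a'.1, a'.2.1) = (b'.1, b'.2.1)) {c : Col}
    (h : cell a c = cell b c) : cell a' c = cell b' c := by
  rcases c with c | c
  · have h1 : ((a.1, a.2.1), c) = ((b.1, b.2.1), c) := Sum.inl.inj h
    have h2 := P (Prod.mk.inj h1).1
    change Sum.inl ((a'.1, a'.2.1), c) = Sum.inl ((b'.1, b'.2.1), c)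
    rw [h2]
  · have h1 : (a, c) = (b, c) := Sum.inr.inj h
    exact absurd (Prod.mk.inj h1).1 hab

private theorem ix_cell (a : Row) (c : Col) : ix (cell a c) = a.2.1 := by
  rcases c with c | c <;> rfl

/-- the relation between the cells of `a`, `b` and the cells of `a'`, `b'` -/
private def Tr (M : Set Co) (a b a' b' : Row) (x x' : Cell) : Prop :=
  ∃ c, inM M c ∧ ((x = cell a c ∧ x' = cell a' c) ∨ (x = cell b c ∧ x' = cell b' c))

private theorem Tr_fun {M : Set Co} {a b a' b' : Row} (hab : a ≠ b)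
    (P : (a.1, a.2.1) = (b.1, b.2.1) → (a'.1, a'.2.1) = (b'.1, b'.2.1)) {x x' y' : Cell}
    (h : Tr M a b a' b' x x') (h' : Tr M a b a' b' x y') : x' = y' := by
  obtain ⟨c, -, ⟨h1, h2⟩ | ⟨h1, h2⟩⟩ := h <;> obtain ⟨d, -, ⟨h3, h4⟩ | ⟨h3, h4⟩⟩ := h'
  · have h5 : cell a c = cell a d := h1.symm.trans h3
    have h6 := cell_inj h5
    subst h6
    exact h2.trans h4.symm
  · have h5 : cell a c = cell b d := h1.symm.trans h3
    have h6 := cell_inj h5
    subst h6
    exact (h2.trans (cell_tra hab P h5)).trans h4.symm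
  · have h5 : cell b c = cell a d := h1.symm.trans h3
    have h6 := cell_inj h5
    subst h6
    exact (h2.trans (cell_tra hab P h5.symm).symm).trans h4.symm
  · have h5 : cell b c = cell b d := h1.symm.trans h3
    have h6 := cell_inj h5
    subst h6
    exact h2.trans h4.symm

private theorem Tr_symm {M : Set Co} {a b a' b' : Row} {x x' : Cell}
    (h : Tr M a b a' b' x x') : Tr M a' b' a b x' x := by
  obtain ⟨c, hc, ⟨h1, h2⟩ | ⟨h1, h2⟩⟩ := h
  · exact ⟨c, hc, Or.inl ⟨h2, h1⟩⟩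
  · exact ⟨c, hc, Or.inr ⟨h2, h1⟩⟩

private theorem fin_img {s : Set (Cell × Bool)} (hs : s.Finite) (T : Cell → Cell → Prop)
    (hT : ∀ x y y', T x y → T x y' → y = y') :
    {z : Cell × Bool | ∃ x, T x z.1 ∧ (x, z.2) ∈ s}.Finite := by
  classical
  refine (hs.image fun z => if h : ∃ y, T z.1 y then (h.choose, z.2) else z).subset ?_
  rintro ⟨y, v⟩ ⟨x, h1, h2⟩
  refine ⟨(x, v), h2, ?_⟩
  have h : ∃ y, T x y := ⟨y, h1⟩
  have h3 : h.choose = y := hT x _ _ h.choose_spec h1
  simp only [dif_pos h, h3]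

private theorem core (M : Set Co) (p : Cn) (a b a' b' : Row) (hab : a ≠ b) (hab' : a' ≠ b')
    (ha' : inM M a'.1) (hb' : inM M b'.1)
    (P : (a.1, a.2.1) = (b.1, b.2.1) ↔ (a'.1, a'.2.1) = (b'.1, b'.2.1))
    (fa : a' = a ∨ ∀ z ∈ p.c, ix z.1 ≠ a'.2.1) (fb : b' = b ∨ ∀ z ∈ p.c, ix z.1 ≠ b'.2.1)
    (ma : inM M a.1 → a' = a) (mb : inM M b.1 → b' = b)
    (ua : ∀ u ∈ M, (a.1 u.1 ≤ (u.2 : WithTop (K u.1)) ↔ a'.1 u.1 ≤ (u.2 : WithTop (K u.1))))
    (ub : ∀ u ∈ M, (b.1 u.1 ≤ (u.2 : WithTop (K u.1)) ↔ b'.1 u.1 ≤ (u.2 : WithTop (K u.1))))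
    (la : ∀ h : Df, inM M h → (lst a.1 h ↔ lst a'.1 h))
    (lb : ∀ h : Df, inM M h → (lst b.1 h ↔ lst b'.1 h)) :
    ∃ p0 : Cn, inM M p0 ∧ p0 ≤ rs M p ∧
      ∀ p1 ≤ p0, inM M p1 → ∃ p2, p2 ≤ p ∧ p2 ≤ p1 ∧
        (∀ c : Cod, inM M c → Kn p1 a' c → Kn p2 a c) ∧
        ∀ c : Cod, inM M c → Kn p1 b' c → Kn p2 b c := by
  have T1 : ∀ x y y', Tr M a b a' b' x y → Tr M a b a' b' x y' → y = y' :=
    fun x y y' h h' => Tr_fun hab P.1 h h'
  have T2 : ∀ x x' y, Tr M a b a' b' x y → Tr M a b a' b' x' y → x = x' :=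
    fun x x' y h h' => Tr_fun hab' P.2 (Tr_symm h) (Tr_symm h')
  have T3 : ∀ x y, Tr M a b a' b' x y → inM M y := by
    rintro x y ⟨c, hc, ⟨-, rfl⟩ | ⟨-, rfl⟩⟩
    · exact inM_cell.2 ⟨ha', hc⟩
    · exact inM_cell.2 ⟨hb', hc⟩
  have T4 : ∀ x y, Tr M a b a' b' x y → y = x ∨ ∀ z ∈ p.c, z.1 ≠ y := by
    rintro x y ⟨c, hc, ⟨rfl, rfl⟩ | ⟨rfl, rfl⟩⟩
    · rcases fa with h | h
      · exact Or.inl (by rw [h])
      · refine Or.inr fun z hz h1 => h z hz ?_
        rw [h1, ix_cell]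
    · rcases fb with h | h
      · exact Or.inl (by rw [h])
      · refine Or.inr fun z hz h1 => h z hz ?_
        rw [h1, ix_cell]
  have T5 : ∀ x y, Tr M a b a' b' x y → inM M x → y = x := by
    rintro x y ⟨c, hc, ⟨rfl, rfl⟩ | ⟨rfl, rfl⟩⟩ h
    · rw [ma (inM_cell.1 h).1]
    · rw [mb (inM_cell.1 h).1]
  let A : Set (Cell × Bool) := {z | ∃ x, Tr M a b a' b' x z.1 ∧ (x, z.2) ∈ p.c}
  have hA : A.Finite := fin_img p.fc _ T1
  let p0 : Cn := {
    r := p.r
    c := (rs M p).c ∪ A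
    fr := p.fr
    fc := (rs M p).fc.union hA
    ur := p.ur
    uc := by
      rintro y v v' (h | ⟨x, h1, h2⟩) (h' | ⟨x', h1', h2'⟩)
      · exact (rs M p).uc y v v' h h'
      · rcases T4 _ _ h1' with h3 | h3
        · change y = x' at h3
          subst h3
          exact p.uc y v v' h.1 h2'
        · exact (h3 (y, v) h.1 rfl).elim
      · rcases T4 _ _ h1 with h3 | h3
        · change y = x at h3
          subst h3
          exact p.uc y v v' h2 h'.1
        · exact (h3 (y, v') h'.1 rfl).elim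
      · have h3 := T2 _ _ _ h1 h1'
        subst h3
        exact p.uc x v v' h2 h2' }
  have hp0 : p0 ≤ rs M p := ⟨subset_rfl, Set.subset_union_left⟩
  refine ⟨p0, ?_, hp0, ?_⟩
  · rw [inM_cn]
    rintro z (h | ⟨x, h1, -⟩)
    · exact h.2
    · exact T3 _ _ h1
  intro p1 h1 hM1
  rw [inM_cn] at hM1
  let S : Set (Cell × Bool) := {z | ∃ x', Tr M a b a' b' z.1 x' ∧ (x', z.2) ∈ p1.c}
  have hS : S.Finite :=
    fin_img p1.fc (fun x' x => Tr M a b a' b' x x') fun x y y' h h' => T2 _ _ _ h h'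
  obtain ⟨t, ht, ht1, hSt, -, -⟩ := glue (p := p) (q := p1) S hS h1.1
    (fun x v v' h h' => p1.uc x v v' (h1.2 (Or.inl ⟨h, hM1 (x, v') h'⟩)) h')
    (fun x v v' h ⟨x', h2, h3⟩ => p1.uc x' v v' (h1.2 (Or.inr ⟨x, h2, h⟩)) h3)
    (fun x v v' h ⟨x', h2, h3⟩ => by
      have h4 : x' = x := T5 _ _ h2 (hM1 _ h)
      subst h4
      exact p1.uc x' v v' h h3)
    (fun x v v' ⟨x', h2, h3⟩ ⟨y', h4, h5⟩ => by
      have h6 : x' = y' := T1 _ _ _ h2 h4
      subst h6
      exact p1.uc x' v v' h3 h5)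
  have key : ∀ (r r' : Row), (∀ c, inM M c → Tr M a b a' b' (cell r c) (cell r' c)) →
      (∀ u ∈ M, (r.1 u.1 ≤ (u.2 : WithTop (K u.1)) ↔ r'.1 u.1 ≤ (u.2 : WithTop (K u.1)))) →
      (∀ h : Df, inM M h → (lst r.1 h ↔ lst r'.1 h)) →
      ∀ c : Cod, inM M c → Kn p1 r' c → Kn t r c := by
    intro r r' hT hu hl c hc hk z hz
    have hzM : inM M z := inM_list.1 hc z hz
    have hk' := hk z hz
    match z, hzM, hk' with
    | .inl (u, true), hzM, hk' =>
      have hu' : u ∈ M := inM_co.1 (inM_mk.1 (inM_inl.1 hzM)).1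
      exact (hu u hu').2 hk'
    | .inl (u, false), hzM, hk' =>
      have hu' : u ∈ M := inM_co.1 (inM_mk.1 (inM_inl.1 hzM)).1
      exact fun h => hk' ((hu u hu').1 h)
    | .inr (k, v), hzM, hk' =>
      have hkM : inM M k := (inM_mk.1 (inM_inr.1 hzM)).1
      have hf : free r.1 k ↔ free r'.1 k := by
        match k, hkM with
        | .inl k, hkM =>
          have h5 : inM M k.1 := (inM_prod.1 (inM_inl.1 hkM)).1
          exact not_congr (hl k.1 h5)
        | .inr k, hkM =>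
          have h5 : k.1 ∈ M := inM_co.1 (inM_prod.1 (inM_inr.1 hkM)).1
          exact hu k.1 h5
      exact ⟨fun h => hSt ⟨cell r' k, hT k hkM, hk'.1 (hf.1 h)⟩,
        fun h => hk'.2 fun h' => h (hf.2 h')⟩
  exact ⟨t, ht, ht1, key a a' (fun c hc => ⟨c, hc, Or.inl ⟨rfl, rfl⟩⟩) ua la,
    key b b' (fun c hc => ⟨c, hc, Or.inr ⟨rfl, rfl⟩⟩) ub lb⟩

theorem transport (M : Set Co) (p : Cn) (a b : Row) (hab : a ≠ b) :
    ∃ (a' b' : Row) (p0 : Cn), inM M a' ∧ inM M b' ∧ inM M p0 ∧ a' ≠ b' ∧ p0 ≤ rs M p ∧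
      (∀ h : Df, inM M h → ((lst a.1 h ↔ lst a'.1 h) ∧ (lst b.1 h ↔ lst b'.1 h))) ∧
      ∀ p1 ≤ p0, inM M p1 → ∃ p2, p2 ≤ p ∧ p2 ≤ p1 ∧
        (∀ c : Cod, inM M c → Kn p1 a' c → Kn p2 a c) ∧
        ∀ c : Cod, inM M c → Kn p1 b' c → Kn p2 b c := by
  classical
  choose ch hch using exists_star M
  -- the index of the copy of `a`
  obtain ⟨i, hi, hip, -⟩ := fresh p p (b.2.1 + 1)
  obtain ⟨j, hj, hjp, -⟩ := fresh p p (i + a.2.1 + 1)
  let ia : ℕ := if inM M a.1 then a.2.1 else i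
  let ib : ℕ := if inM M b.1 then b.2.1 else
    if (a.1, a.2.1) = (b.1, b.2.1) then ia else j
  let a' : Row := (ch a.1, ia, a.2.2)
  let b' : Row := (ch b.1, ib, b.2.2)
  have ma : inM M a.1 → a' = a := by
    intro h
    change (ch a.1, ia, a.2.2) = a
    rw [(hch a.1).2.2.2.2 h, show ia = a.2.1 from if_pos h]
  have mb : inM M b.1 → b' = b := by
    intro h
    change (ch b.1, ib, b.2.2) = b
    rw [(hch b.1).2.2.2.2 h, show ib = b.2.1 from if_pos h]
  have P : (a.1, a.2.1) = (b.1, b.2.1) ↔ (a'.1, a'.2.1) = (b'.1, b'.2.1) := by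
    constructor
    · intro h
      have h1 : a.1 = b.1 := (Prod.mk.inj h).1
      have h2 : a.2.1 = b.2.1 := (Prod.mk.inj h).2
      change (ch a.1, ia) = (ch b.1, ib)
      have h3 : ia = ib := by
        by_cases hb : inM M b.1
        · have ha : inM M a.1 := h1 ▸ hb
          rw [show ia = a.2.1 from if_pos ha, show ib = b.2.1 from if_pos hb, h2]
        · change ia = if inM M b.1 then b.2.1 else if (a.1, a.2.1) = (b.1, b.2.1) then ia else j
          rw [if_neg hb, if_pos h]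
      rw [h3, h1]
    · intro h
      have h2 : ia = ib := (Prod.mk.inj h).2
      have h1 : ch a.1 = ch b.1 := (Prod.mk.inj h).1
      by_contra hne
      by_cases hb : inM M b.1
      · have e1 : ib = b.2.1 := if_pos hb
        by_cases ha : inM M a.1
        · have e2 : ia = a.2.1 := if_pos ha
          rw [(hch a.1).2.2.2.2 ha, (hch b.1).2.2.2.2 hb] at h1
          exact hne (by rw [h1, ← e1, ← e2, h2])
        · have e2 : ia = i := if_neg ha
          omega
      · have e1 : ib = j := by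
          change (if inM M b.1 then b.2.1 else
            if (a.1, a.2.1) = (b.1, b.2.1) then ia else j) = j
          rw [if_neg hb, if_neg hne]
        by_cases ha : inM M a.1
        · have e2 : ia = a.2.1 := if_pos ha
          omega
        · have e2 : ia = i := if_neg ha
          omega
  have hab' : a' ≠ b' := by
    intro h
    have h1 : (a'.1, a'.2.1) = (b'.1, b'.2.1) := by rw [h]
    have h2 := P.2 h1
    have h3 : a.2.2 = b.2.2 := by
      have := congrArg (fun z : Row => z.2.2) h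
      exact this
    apply hab
    have h4 : a.1 = b.1 := (Prod.mk.inj h2).1
    have h5 : a.2.1 = b.2.1 := (Prod.mk.inj h2).2
    exact Prod.ext h4 (Prod.ext h5 h3)
  have fa : a' = a ∨ ∀ z ∈ p.c, ix z.1 ≠ a'.2.1 := by
    by_cases ha : inM M a.1
    · exact Or.inl (ma ha)
    · have e2 : ia = i := if_neg ha
      exact Or.inr fun z hz => by
        change ix z.1 ≠ ia
        rw [e2]
        exact hip z hz
  have fb : b' = b ∨ ∀ z ∈ p.c, ix z.1 ≠ b'.2.1 := by
    by_cases hb : inM M b.1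
    · exact Or.inl (mb hb)
    · refine Or.inr fun z hz => ?_
      change ix z.1 ≠ ib
      by_cases h : (a.1, a.2.1) = (b.1, b.2.1)
      · have e1 : ib = ia := by
          change (if inM M b.1 then b.2.1 else
            if (a.1, a.2.1) = (b.1, b.2.1) then ia else j) = ia
          rw [if_neg hb, if_pos h]
        have ha : ¬ inM M a.1 := fun h' => hb ((Prod.mk.inj h).1 ▸ h')
        rw [e1, show ia = i from if_neg ha]
        exact hip z hz
      · have e1 : ib = j := by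
          change (if inM M b.1 then b.2.1 else
            if (a.1, a.2.1) = (b.1, b.2.1) then ia else j) = j
          rw [if_neg hb, if_neg h]
        rw [e1]
        exact hjp z hz
  obtain ⟨p0, h1, h2, h3⟩ := core M p a b a' b' hab hab' (hch a.1).1 (hch b.1).1 P fa fb ma mb
    (hch a.1).2.2.1 (hch b.1).2.2.1 (hch a.1).2.2.2.1 (hch b.1).2.2.2.1
  refine ⟨a', b', p0, ?_, ?_, h1, hab', h2,
    fun h hh => ⟨(hch a.1).2.2.2.1 h hh, (hch b.1).2.2.2.1 h hh⟩, h3⟩
  · rw [inM_prod]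
    exact ⟨(hch a.1).1, by rw [inM_prod]; exact ⟨inM_nat _, inM_nat _⟩⟩
  · rw [inM_prod]
    exact ⟨(hch b.1).1, by rw [inM_prod]; exact ⟨inM_nat _, inM_nat _⟩⟩

end DLN
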