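import Pool.Agent.DLN.Lang
import Pool.Agent.CPI.Coded

/-! # Coded spaces inside a structure `(N, E)`

(problem MP_c2fbea_gt, project DLN; definitions, no sorry in this file)

A coded space is a triple `(Y, B, h)`: `Y` is the set of points, `B` a set of codes, and `(y, b) ∈ h`
(`Val E h y b`) means that the point `y` is in the basic open set with the code `b`. Only `y ∈ Y`,
`b ∈ B` matter. `CSp`, `CHd`, `CLin` (coded space, Hausdorff, Lindelof) are defined in
`CPI/Coded.lean`. -/

universe v

namespace DLN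

open STP CPI

section

variable {N : Type v} (E : N → N → Prop)

/-- the basic sets are closed -/
def CClp (Y B h : N) : Prop :=
  ∀ y b, E y Y → E b B → ¬ Val E h y b →
    ∃ c, E c B ∧ Val E h y c ∧ ∀ z, E z Y → ¬ (Val E h z c ∧ Val E h z b)

/-- `H` is a closed subset of the coded space -/
def CCl (Y B h H : N) : Prop :=
  Sub E H Y ∧ ∀ y, E y Y → ¬ E y H → ∃ b, E b B ∧ Val E h y b ∧ ∀ z, E z H → ¬ Val E h z b

/-- `O` is a set of pairs of codes; the boxes with codes in `O` cover all pairs of different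
elements of `H` -/
def CCov2 (h H O : N) : Prop :=
  ∀ x y, E x H → E y H → x ≠ y → ∃ b c, Val E O b c ∧ Val E h x b ∧ Val E h y c

/-- the set of pairs of different elements of `H` is Lindelof -/
def CLin2 (B h H : N) : Prop :=
  ∀ O, (∀ b c, Val E O b c → E b B ∧ E c B) → CCov2 E h H O →
    ∃ O', Sub E O' O ∧ IsCnt E O' ∧ CCov2 E h H O'

/-- the ordered pairs in `A` form a discrete subset of the complement of the diagonal -/
def CDisc (Y B h A : N) : Prop :=
  ∀ x y, Val E A x y → E x Y ∧ E y Y ∧ x ≠ y ∧ ∃ b c, E b B ∧ E c B ∧ Val E h x b ∧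
    Val E h y c ∧ ∀ x' y', Val E A x' y' → Val E h x' b → Val E h y' c → x' = x ∧ y' = y

/-- every discrete subset of the complement of the diagonal is a subset of `H × H` for some closed
set `H` such that the set of pairs of different elements of `H` is Lindelof -/
def CDL (Y B h : N) : Prop :=
  ∀ A, CDisc E Y B h A → ∃ H, CCl E Y B h H ∧ CLin2 E B h H ∧
    ∀ x y, Val E A x y → E x H ∧ E y H

/-- `K` codes a sequence of open sets (`(k, y) ∈ K`: `y` is in the `k`-th set) -/
def CSq (Y B h w K : N) : Prop :=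
  ∀ k y, E k w → E y Y → Val E K k y →
    ∃ b, E b B ∧ Val E h y b ∧ ∀ z, E z Y → Val E h z b → Val E K k z

/-- any two different points are in disjoint members of the sequence coded by `K` -/
def CSpr (Y w K : N) : Prop :=
  ∀ x y, E x Y → E y Y → x ≠ y → ∃ k m, E k w ∧ E m w ∧ Val E K k x ∧ Val E K m y ∧
    ∀ z, E z Y → ¬ (Val E K k z ∧ Val E K m z)

/-- no sequence of open sets separates any two different points by disjoint members -/
def CNSep (Y B h : N) : Prop := ∀ w K, IsOm E w → CSq E Y B h w K → ¬ CSpr E Y w K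

/-- the coded data of a counterexample -/
structure CDat (Y B h : N) : Prop where
  sp : CSp E Y B h
  hd : CHd E Y B h
  clp : CClp E Y B h
  dl : CDL E Y B h
  nlin : ¬ CLin E Y B h
  nsep : CNSep E Y B h

/-- `(Q, q)` is a countable dense linear order without end points; `(x, y) ∈ q` means `x < y` -/
def CQ (Q q : N) : Prop :=
  (∃ x, E x Q) ∧ IsCnt E Q ∧
  (∀ x y, Val E q x y → E x Q ∧ E y Q) ∧
  (∀ x, ¬ Val E q x x) ∧
  (∀ x y z, Val E q x y → Val E q y z → Val E q x z) ∧
  (∀ x y, E x Q → E y Q → Val E q x y ∨ x = y ∨ Val E q y x) ∧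
  (∀ x, E x Q → (∃ y, Val E q y x) ∧ ∃ y, Val E q x y) ∧
  ∀ x y, Val E q x y → ∃ d, Val E q x d ∧ Val E q d y

end

end DLN
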