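import Pool.Agent.DLN.ANlin
import Pool.Agent.DLN.ADis
import Pool.Agent.DLN.ATyc
import Pool.Agent.DLN.ABij
import Pool.Agent.DLN.ARLb

/-! # Part A: assembly

(problem MP_c2fbea_gt, project DLN, part A) -/

universe v

namespace DLN

open STP STP.Fml CPI

variable {N : Type v} {E : N → N → Prop}

theorem KDL (hE : ZFC E) {Y B h Q q : N} (hd : CDat E Y B h) (hQ : CQ E Q q) : NegDL E := by
  obtain ⟨R, l, hR⟩ := exists_RL hE hQ
  obtain ⟨τ, hτ⟩ := exists_CT hE Y B h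
  obtain ⟨D, hD⟩ := exists_Off hE Y
  obtain ⟨σ, hσ⟩ := exists_PT hE τ D
  have htop := CT_top hd.sp hτ
  have hhd := CT_hd hE hd.hd hτ
  have hzd := CT_zd hE hd.clp hτ
  exact ⟨R, l, Y, τ, D, σ, hR, htop, tych_of_zd hE htop hhd hzd hR, hD, hσ,
    PT_top hE htop hD hσ, tych_of_zd hE (PT_top hE htop hD hσ) (PT_hd hE htop hhd hD hσ)
      (PT_zd hE htop hzd hD hσ) hR, dl_of_cdl hE hd.sp hd.dl hτ hD hσ,
    CT_nlin hE hd.nlin hτ, no_bij hE hd.nsep hτ⟩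

end DLN
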