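import Pool.Agent.CPI.Lang

/-! # General topology inside a structure `(N, E)`: discretely Lindelof spaces

(problem MP_c2fbea_gt, project DLN; definitions, no sorry in this file)

Every definition quantifies over the elements of `N` only. `Sub`, `IsOP`, `Val`, `IsFun`, `IsInt` are
the notions of `STP/Lang.lean` (inclusion, ordered pair, `(x, y) ∈ f`, function with domain `a`,
intersection), `IsCnt`, `IsTop`, `IsLin`, `IsHd`, `IsRL`, `IsCts`, `IsCl` those of `CPI/Lang.lean`
(countable, topology, Lindelof, Hausdorff, the real line, continuous real function, closure). -/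

universe v

namespace DLN

open STP CPI

section

variable {N : Type v} (E : N → N → Prop)

/-- `D` is the complement of the diagonal in `X × X`: the set of all ordered pairs `(x, y)` of
different elements of `X` -/
def IsOff (X D : N) : Prop := ∀ p, E p D ↔ ∃ x y, E x X ∧ E y X ∧ x ≠ y ∧ IsOP E p x y

/-- `σ` is the topology on `D` (a set of ordered pairs) induced by the product topology of `τ` and
`τ`: a subset `U` of `D` is in `σ` if for every `(x, y) ∈ U` there are `V, W ∈ τ` with `x ∈ V`,
`y ∈ W`, and `(V × W) ∩ D ⊆ U` -/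
def IsPT (τ D σ : N) : Prop :=
  ∀ U, E U σ ↔ Sub E U D ∧ ∀ p x y, E p U → IsOP E p x y →
    ∃ V W, E V τ ∧ E W τ ∧ E x V ∧ E y W ∧
      ∀ q x' y', E q D → IsOP E q x' y' → E x' V → E y' W → E q U

/-- the space `(X, τ)` is Tychonoff: it is Hausdorff, and for every open set `U` and every `x ∈ U`
there is a continuous real function `g` which has the value `a` at `x` and the value `b` at all
points outside of `U`, where `a ≠ b` -/
def IsTych (R l X τ : N) : Prop :=
  IsHd E X τ ∧ ∀ x U, E U τ → E x U → ∃ g a b, IsCts E R l X τ g ∧ a ≠ b ∧ Val E g x a ∧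
    ∀ y, E y X → ¬ E y U → Val E g y b

/-- `A` is a discrete subset of the space `(X, τ)`: every point of `A` has a neighbourhood which
contains no other point of `A` -/
def IsDisc (X τ A : N) : Prop :=
  Sub E A X ∧ ∀ a, E a A → ∃ U, E U τ ∧ E a U ∧ ∀ b, E b A → E b U → b = a

/-- `ρ` is the subspace topology on `Y`: `ρ = {U ∩ Y | U ∈ τ}` -/
def IsSubT (τ Y ρ : N) : Prop := ∀ U, E U ρ ↔ ∃ V, E V τ ∧ IsInt E U V Y

/-- the space `(X, τ)` is discretely Lindelof: the closure of every discrete subset, with the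
subspace topology, is Lindelof -/
def IsDL (X τ : N) : Prop :=
  ∀ A c ρ, IsDisc E X τ A → IsCl E X τ A c → IsSubT E τ c ρ → IsLin E c ρ

/-- the topology `τ` has a countable base -/
def IsCB (τ : N) : Prop :=
  ∃ B, Sub E B τ ∧ IsCnt E B ∧ ∀ U x, E U τ → E x U → ∃ V, E V B ∧ E x V ∧ Sub E V U

/-- `f` is a continuous bijection from the space `(X, τ)` onto the space `(Y, ρ)` -/
def IsCBij (X τ Y ρ f : N) : Prop :=
  IsFun E f X ∧ (∀ x y, Val E f x y → E y Y) ∧ (∀ y, E y Y → ∃ x, Val E f x y) ∧
  (∀ x x' y, Val E f x y → Val E f x' y → x = x') ∧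
  ∀ U, E U ρ → ∃ V, E V τ ∧ ∀ x, E x V ↔ ∃ y, E y U ∧ Val E f x y

/-- There is a Tychonoff space `(X, τ)` such that the complement `D` of the diagonal of `X × X`
with the subspace topology `σ` of the product topology is a discretely Lindelof Tychonoff space, `X`
is not Lindelof, and there is no continuous bijection from `X` onto a Hausdorff space with a
countable base. -/
def NegDL : Prop :=
  ∃ R l X τ D σ, IsRL E R l ∧ IsTop E X τ ∧ IsTych E R l X τ ∧ IsOff E X D ∧ IsPT E τ D σ ∧
    IsTop E D σ ∧ IsTych E R l D σ ∧ IsDL E D σ ∧ ¬ IsLin E X τ ∧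
    ¬ ∃ Y ρ f, IsTop E Y ρ ∧ IsHd E Y ρ ∧ IsCB E ρ ∧ IsCBij E X τ Y ρ f

end

end DLN
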