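import Pool.Agent.DLN.KDL
import Pool.Agent.DLN.BDL
import Pool.Agent.DLN.BNlin
import Pool.Agent.DLN.BNsep
import Pool.Agent.DLN.CDis
import Pool.Agent.DLN.CCov
import Pool.Agent.DLN.CSep

/-! # Assembly

(problem MP_c2fbea_gt, project DLN) -/

namespace DLN

open STP STP.BSet CPI

theorem dat (G : Ult (RO Cn)) :
    CDat (EG G) (NG.mk G (pN Pt)) (NG.mk G (pN Cod)) (NG.mk G (rn rho)) where
  sp := br_sp tsp G
  hd := br_hd thd G
  clp := br_clp tclp G
  dl := br_dl enum_Cn tdl G
  nlin := br_nlin tnlin G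
  nsep := br_nsep tnsep G

/-- There is a model `(N, E)` of `ZFC` in which there is a Tychonoff space `X` such that the complement
of the diagonal of `X × X` is a discretely Lindelof Tychonoff space, `X` is not Lindelof, and no
continuous bijection maps `X` onto a Hausdorff space with a countable base. -/
theorem main : ∃ (N : Type 1) (E : N → N → Prop), ZFC E ∧ NegDL E := by
  obtain ⟨G, -⟩ := Ult.exists_mem (B := RO Cn) (b := ⊤) (by
    intro h
    have h1 : one ∈ (⊤ : RO Cn) := RO.mem_top
    rw [h] at h1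
    exact RO.not_mem_bot h1)
  exact ⟨NG G, EG G, NG_zfc G, KDL (NG_zfc G) (dat G) (br_Q G)⟩

end DLN
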