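import Pool.Agent.DLN.Typed
import Pool.Agent.DLN.Coded
import Pool.Agent.CPI.BOmB

/-! # Names of typed spaces; truth values of the coded statements

(problem MP_c2fbea_gt, project DLN; no sorry in this file)

`pN A`: the set of (codes of) all elements of `A`. `HN H`: the set of the elements of `H : Set A`. The
membership relation of a typed space `ρ` is the name `rn ρ` (`CPI/Nam.lean`). -/

set_option autoImplicit false

namespace DLN

open STP STP.BSet CPI

section

variable {P : Type} [PartialOrder P] {A C : Type}

/-- the name of the set of the codes of all elements of `A` -/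
noncomputable abbrev pN (A : Type) : BSet (RO P) := sn fun _ : A => (⊤ : RO P)

/-- the name of the set of the codes of all elements of `H` -/
noncomputable abbrev HN (H : Set A) : BSet (RO P) := sn fun a => (chi (a ∈ H) : RO P)

variable (Y B h H O Z Q q : BSet (RO P))

instance : TV fun G => CClp (EG G) (NG.mk G Y) (NG.mk G B) (NG.mk G h) := by
  unfold CClp
  infer_instance

instance : TV fun G => CCl (EG G) (NG.mk G Y) (NG.mk G B) (NG.mk G h) (NG.mk G H) := by
  unfold CCl
  infer_instance

instance : TV fun G => CCov2 (EG G) (NG.mk G h) (NG.mk G H) (NG.mk G O) := by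
  unfold CCov2
  infer_instance

instance : TV fun G => CLin2 (EG G) (NG.mk G B) (NG.mk G h) (NG.mk G H) := by
  unfold CLin2
  infer_instance

instance : TV fun G => CDisc (EG G) (NG.mk G Y) (NG.mk G B) (NG.mk G h) (NG.mk G Z) := by
  unfold CDisc
  infer_instance

instance : TV fun G => CDL (EG G) (NG.mk G Y) (NG.mk G B) (NG.mk G h) := by
  unfold CDL
  infer_instance

instance (w K : BSet (RO P)) : TV fun G => CSq (EG G) (NG.mk G Y) (NG.mk G B) (NG.mk G h)
    (NG.mk G w) (NG.mk G K) := by
  unfold CSq
  infer_instance

instance (w K : BSet (RO P)) : TV fun G => CSpr (EG G) (NG.mk G Y) (NG.mk G w) (NG.mk G K) := by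
  unfold CSpr
  infer_instance

instance : TV fun G => CNSep (EG G) (NG.mk G Y) (NG.mk G B) (NG.mk G h) := by
  unfold CNSep
  infer_instance

end

end DLN
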