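import Pool.Agent.DLN.Pos

/-! # Supports

(problem MP_c2fbea_gt, project DLN; definitions and simple rules, no sorry in this file)

Every object `x` (row, column, cell, condition, code) has a support `Sp.sp x`, a set of pairs `(l, β)`. A
small elementary submodel is replaced by a set `M : Set Co` of pairs; `inM M x` (`x` is in the model)
means that the support of `x` is a subset of `M`. -/

namespace DLN

open Cardinal STP

/-- objects with a support -/
class Sp (X : Type) where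
  sp : X → Set Co

/-- the supports are countable, and there are few objects in a small model -/
class SpL (X : Type) [Sp X] : Prop where
  cnt : ∀ x : X, (Sp.sp x).Countable
  sml : ∀ M : Set Co, #M ≤ #Th → #{x : X | Sp.sp x ⊆ M} ≤ #Th

instance : Sp ℕ := ⟨fun _ => ∅⟩

instance : Sp Bool := ⟨fun _ => ∅⟩

instance : Sp Th := ⟨fun _ => ∅⟩

instance : Sp Co := ⟨fun u => {u}⟩

instance : Sp Gf := ⟨fun g => {u | g u.1 = (u.2 : WithTop (K u.1))}⟩

instance : Sp Df := ⟨fun h => {u | h u.1 = u.2}⟩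

instance {X Y : Type} [Sp X] [Sp Y] : Sp (X × Y) := ⟨fun z => Sp.sp z.1 ∪ Sp.sp z.2⟩

instance {X Y : Type} [Sp X] [Sp Y] : Sp (X ⊕ Y) := ⟨Sum.elim Sp.sp Sp.sp⟩

instance {X : Type} [Sp X] : Sp (List X) := ⟨fun l => {u | ∃ x ∈ l, u ∈ Sp.sp x}⟩

instance {X : Type} [Sp X] : Sp (Option X) := ⟨fun o => {u | ∃ x, o = some x ∧ u ∈ Sp.sp x}⟩

instance {X : Type} [Sp X] {s : X → Prop} : Sp {x : X // s x} := ⟨fun x => Sp.sp x.1⟩

instance : Sp Cn := ⟨fun p => {u | ∃ z ∈ p.c, u ∈ Sp.sp z.1}⟩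

/-- `x` is in the model `M` -/
def inM (M : Set Co) {X : Type} [Sp X] (x : X) : Prop := Sp.sp x ⊆ M

section

variable {M : Set Co} {X Y : Type} [Sp X] [Sp Y]

theorem inM.mono {M' : Set Co} (h : M ⊆ M') {x : X} (hx : inM M x) : inM M' x := hx.trans h

@[simp] theorem inM_nat (n : ℕ) : inM M n := Set.empty_subset _

@[simp] theorem inM_bool (b : Bool) : inM M b := Set.empty_subset _

@[simp] theorem inM_th (v : Th) : inM M v := Set.empty_subset _

@[simp] theorem inM_co {u : Co} : inM M u ↔ u ∈ M := Set.singleton_subset_iff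

theorem inM_gf {g : Gf} : inM M g ↔ ∀ u : Co, g u.1 = (u.2 : WithTop (K u.1)) → u ∈ M := Iff.rfl

theorem inM_df {h : Df} : inM M h ↔ ∀ l, (⟨l, h l⟩ : Co) ∈ M := by
  constructor
  · intro h1 l
    exact h1 rfl
  · rintro h1 ⟨l, k⟩ hk
    have hk' : h l = k := hk
    rw [← hk']
    exact h1 l

theorem inM_up {h : Df} : inM M (up h) ↔ inM M h := by
  rw [inM_gf, inM_df]
  constructor
  · intro h1 l
    exact h1 ⟨l, h l⟩ rfl
  · rintro h1 ⟨l, k⟩ hk
    have : h l = k := WithTop.coe_injective hk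
    rw [← this]
    exact h1 l

@[simp] theorem inM_mk {x : X} {y : Y} : inM M (x, y) ↔ inM M x ∧ inM M y := Set.union_subset_iff

theorem inM_prod {z : X × Y} : inM M z ↔ inM M z.1 ∧ inM M z.2 := Set.union_subset_iff

@[simp] theorem inM_inl {x : X} : inM M (Sum.inl x : X ⊕ Y) ↔ inM M x := Iff.rfl

@[simp] theorem inM_inr {y : Y} : inM M (Sum.inr y : X ⊕ Y) ↔ inM M y := Iff.rfl

theorem inM_list {l : List X} : inM M l ↔ ∀ x ∈ l, inM M x :=
  ⟨fun h _ hx _ hu => h ⟨_, hx, hu⟩, fun h _ ⟨x, hx, hu⟩ => h x hx hu⟩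

@[simp] theorem inM_nil : inM M ([] : List X) := inM_list.2 fun _ h => absurd h List.not_mem_nil

@[simp] theorem inM_cons {x : X} {l : List X} : inM M (x :: l) ↔ inM M x ∧ inM M l := by
  simp only [inM_list, List.mem_cons]
  exact ⟨fun h => ⟨h x (Or.inl rfl), fun y hy => h y (Or.inr hy)⟩,
    fun h y hy => hy.elim (fun h' => h' ▸ h.1) (h.2 y)⟩

@[simp] theorem inM_some {x : X} : inM M (some x) ↔ inM M x :=
  ⟨fun h _ hu => h ⟨x, rfl, hu⟩, fun h _ ⟨_, hy, hu⟩ => h (Option.some.inj hy ▸ hu)⟩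

@[simp] theorem inM_none : inM M (none : Option X) := fun _ ⟨_, hy, _⟩ => absurd hy (by simp)

theorem inM_sub {s : X → Prop} {x : {x : X // s x}} : inM M x ↔ inM M x.1 := Iff.rfl

theorem inM_cn {p : Cn} : inM M p ↔ ∀ z ∈ p.c, inM M z.1 :=
  ⟨fun h _ hz _ hu => h ⟨_, hz, hu⟩, fun h _ ⟨z, hz, hu⟩ => h z hz hu⟩

theorem inM_cell {a : Row} {c : Col} : inM M (cell a c) ↔ inM M a.1 ∧ inM M c := by
  rcases c with c | c
  · change inM M ((a.1, a.2.1), c) ↔ _
    simp
  · change inM M (a, c) ↔ _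
    rw [inM_mk, inM_prod, inM_prod]
    simp

end

/-- the restriction of a condition to the model `M` -/
def rs (M : Set Co) (p : Cn) : Cn where
  r := p.r
  c := {z | z ∈ p.c ∧ inM M z.1}
  fr := p.fr
  fc := p.fc.subset fun _ h => h.1
  ur := p.ur
  uc x v v' h h' := p.uc x v v' h.1 h'.1

theorem le_rs (M : Set Co) (p : Cn) : p ≤ rs M p := ⟨subset_rfl, fun _ h => h.1⟩

theorem inM_rs (M : Set Co) (p : Cn) : inM M (rs M p) := inM_cn.2 fun _ h => h.2

/-- the closed sets `X_h` -/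
def Hh (h : Df) : Set Pt := {a | lst a.1.1 h}

/-- low literals: atoms, and literals for low columns -/
def isLow : Lit → Prop
  | .inl _ => True
  | .inr (.inl _, _) => False
  | .inr (.inr _, _) => True

/-- the plus column `k` occurs in the condition `p` -/
def occ (p : Cn) (k : PC) : Prop := ∃ x v, (.inl (x, k), v) ∈ p.c

/-- the index `i` of a cell of a row `(g, i, j)` -/
def ix : Cell → ℕ
  | .inl ((_, i), _) => i
  | .inr ((_, i, _), _) => i

end DLN
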