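import Pool.Agent.STP.RO

/-! # The typed statements

(problem MP_c2fbea_gt, project DLN; definitions, no sorry in this file)

`P` is a poset, `A` the type of points, `C` the type of codes of basic open sets, `ρ a b : RO P` the
truth value of: the point `a` is in the basic set with the code `b`. -/

namespace DLN

open STP

/-- a type of size `2^ω` -/
abbrev Th : Type := Set ℕ

section

variable {P : Type} [PartialOrder P] {A C : Type} (ρ : A → C → RO P)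

/-- the basic sets cover the space, and the intersection of two basic sets is a basic set -/
structure TSp : Prop where
  ex : ∀ a, ∃ b, ∀ q : P, q ∈ ρ a b
  dir : ∀ b b', ∃ c, ∀ a, ∀ q : P, q ∈ ρ a c ↔ q ∈ ρ a b ∧ q ∈ ρ a b'

/-- the space is Hausdorff -/
def THd : Prop :=
  ∀ (q : P) (a a' : A), a ≠ a' → ∃ r ≤ q, ∃ b b', r ∈ ρ a b ∧ r ∈ ρ a' b' ∧
    ∀ a'', ∀ r' ≤ r, ¬ (r' ∈ ρ a'' b ∧ r' ∈ ρ a'' b')

/-- the basic sets are closed -/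
def TClp : Prop :=
  ∀ (q : P) (a : A) (b : C), (∀ r ≤ q, r ∉ ρ a b) → ∃ r ≤ q, ∃ c, r ∈ ρ a c ∧
    ∀ a', ∀ r' ≤ r, ¬ (r' ∈ ρ a' c ∧ r' ∈ ρ a' b)

/-- the ground model set `H` of points is closed -/
def TCl (H : Set A) : Prop :=
  ∀ (q : P) (a : A), a ∉ H → ∃ r ≤ q, ∃ b, r ∈ ρ a b ∧ ∀ a' ∈ H, ∀ r' ≤ r, r' ∉ ρ a' b

/-- `q` forces that the boxes with codes in `O` cover all pairs of different elements of `H` -/
def TCov2 (q : P) (H : Set A) (O : C → C → RO P) : Prop :=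
  ∀ r ≤ q, ∀ a ∈ H, ∀ a' ∈ H, a ≠ a' → ∃ r' ≤ r, ∃ b b', r' ∈ O b b' ∧ r' ∈ ρ a b ∧ r' ∈ ρ a' b'

/-- `2^ω` members of every cover (from the ground model) suffice -/
def TLin2 (H : Set A) : Prop :=
  ∀ (q : P) (O : C → C → RO P), TCov2 ρ q H O → ∃ e : Th → C × C,
    TCov2 ρ q H fun b b' => O b b' ⊓ chi ((b, b') ∈ Set.range e)

/-- `q` forces that `Z` is a discrete subset of the complement of the diagonal -/
def TDisc (q : P) (Z : A → A → RO P) : Prop :=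
  ∀ r ≤ q, ∀ a a', r ∈ Z a a' → a ≠ a' ∧ ∃ r' ≤ r, ∃ b b', r' ∈ ρ a b ∧ r' ∈ ρ a' b' ∧
    ∀ c c', ∀ r'' ≤ r', r'' ∈ Z c c' → r'' ∈ ρ c b → r'' ∈ ρ c' b' → c = a ∧ c' = a'

/-- every discrete set is a subset of the square of some closed ground model set `H` with
`TLin2 H` -/
def TDL : Prop :=
  ∀ (q : P) (Z : A → A → RO P), TDisc ρ q Z → ∃ H : Set A, TCl ρ H ∧ TLin2 ρ H ∧
    ∀ r ≤ q, ∀ a a', r ∈ Z a a' → a ∈ H ∧ a' ∈ H

/-- the space is not Lindelof: `O` is a ground model cover without a countable subcover -/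
def TNLin : Prop :=
  ∃ O : Set C, (∀ (q : P) (a : A), ∃ r ≤ q, ∃ b ∈ O, r ∈ ρ a b) ∧
    ∀ (q : P) (f : ℕ → C → RO P), (∀ r ≤ q, ∀ n b b', r ∈ f n b → r ∈ f n b' → b = b') →
      ∃ r ≤ q, ∃ a, ∀ r' ≤ r, ∀ n, ∀ b ∈ O, r' ∈ f n b → r' ∉ ρ a b

/-- no sequence `U` of open sets separates any two different points by disjoint members -/
def TNSep : Prop :=
  ∀ (q : P) (U : ℕ → A → RO P),
    (∀ r ≤ q, ∀ n a, r ∈ U n a → ∃ r' ≤ r, ∃ b, r' ∈ ρ a b ∧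
      ∀ a', ∀ r'' ≤ r', r'' ∈ ρ a' b → r'' ∈ U n a') →
    ¬ ∀ r ≤ q, ∀ a a', a ≠ a' → ∃ r' ≤ r, ∃ n m, r' ∈ U n a ∧ r' ∈ U m a' ∧
      ∀ c, ∀ r'' ≤ r', ¬ (r'' ∈ U n c ∧ r'' ∈ U m c)

end

end DLN
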